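import Pool.Agent.Lib.MP_8ae0c1_agF.E11

/-!
# The interface: facts on the function field of `y² = x (x - 1) (x - l)` over an algebraically closed field of characteristic `0`
-/

set_option autoImplicit false
set_option linter.unusedSectionVars false
set_option linter.unusedVariables false

namespace EllFF

open WeierstrassCurve IsDedekindDomain

noncomputable section

variable {Ω : Type*} [Field Ω] [IsAlgClosed Ω] [CharZero Ω] {l : Ω} [Leg l]

/-! ## Residues and uniformisers -/

/-- The residue field is `Ω`. -/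
theorem exists_residue (P : Place l) {f : KL l} (h : OrdGe P 0 f) : ∃ a : Ω, OrdGe P 1 (f - algebraMap Ω (KL l) a) :=
  E1_exists_residue P h

/-- The residue of a function is the evaluation at the point. -/
theorem ordGe_one_iff (a b : Ω) (h : b ^ 2 = a * (a - 1) * (a - l)) (r : RL l) :
    OrdGe (Place.pt a b h) 1 (algebraMap (RL l) (KL l) r) ↔ evR a b h r = 0 := E1_ordGe_one_iff a b h r

theorem ordGe_RL (a b : Ω) (h : b ^ 2 = a * (a - 1) * (a - l)) (r : RL l) :
    OrdGe (Place.pt a b h) 0 (algebraMap (RL l) (KL l) r) := E1_ordGe_RL a b h r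

/-! ## The divisors of `x`, `y`, `x - a` -/

theorem ord_x_inf : ord (Place.inf : Place l) (xK l) = -2 := E1_ord_x_inf

theorem ord_y_inf : ord (Place.inf : Place l) (yK l) = -3 := E1_ord_y_inf

theorem ord_xa_ne (c a b : Ω) (h : b ^ 2 = a * (a - 1) * (a - l)) (hac : a ≠ c) :
    ord (Place.pt a b h) (xK l - algebraMap Ω (KL l) c) = 0 := E1_ord_xa_ne c a b h hac

theorem ord_xa_one (a b : Ω) (h : b ^ 2 = a * (a - 1) * (a - l)) (hb : b ≠ 0) :
    ord (Place.pt a b h) (xK l - algebraMap Ω (KL l) a) = 1 := E1_ord_xa_one a b h hb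

theorem ord_xa_two (a b : Ω) (h : b ^ 2 = a * (a - 1) * (a - l)) (hb : b = 0) :
    ord (Place.pt a b h) (xK l - algebraMap Ω (KL l) a) = 2 := (E1_ord_branch a b h hb).2

theorem ord_y_ne (a b : Ω) (h : b ^ 2 = a * (a - 1) * (a - l)) (hb : b ≠ 0) : ord (Place.pt a b h) (yK l) = 0 :=
  E1_ord_y_ne a b h hb

theorem ord_y_zero (a b : Ω) (h : b ^ 2 = a * (a - 1) * (a - l)) (hb : b = 0) : ord (Place.pt a b h) (yK l) = 1 :=
  (E1_ord_branch a b h hb).1

/-- The order of `p(x) + q(x) y` at infinity is minus the degree of the norm. -/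
theorem ord_inf_RL {r : RL l} (hr : r ≠ 0) :
    ord (Place.inf : Place l) (algebraMap (RL l) (KL l) r) = -((Algebra.norm (Polynomial Ω) r).natDegree : ℤ) :=
  E2_ord_inf_RL hr

/-- Functions without finite poles are polynomials. -/
theorem mem_RL_iff (f : KL l) : (∃ r : RL l, algebraMap (RL l) (KL l) r = f) ↔ ∀ P : Place l, P ≠ Place.inf → OrdGe P 0 f :=
  E2_mem_RL_iff f

/-! ## The degree of a principal divisor -/

theorem ord_support {f : KL l} (hf : f ≠ 0) : (Function.support fun P : Place l => ord P f).Finite := (E3_OS hf).1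

theorem ord_sum {f : KL l} (hf : f ≠ 0) : ∑ᶠ P : Place l, ord P f = 0 := (E3_OS hf).2

/-- A function without poles is constant. -/
theorem const_of_no_poles {f : KL l} (h : ∀ P, OrdGe P 0 f) : ∃ a : Ω, f = algebraMap Ω (KL l) a := E3_const h

/-- There is no function with exactly one simple pole. -/
theorem no_simple_pole {f : KL l} (P : Place l) (h1 : OrdGe P (-1) f) (h2 : ∀ Q, Q ≠ P → OrdGe Q 0 f) :
    ∃ a : Ω, f = algebraMap Ω (KL l) a := E3_no_simple_pole P h1 h2

/-! ## Riemann-Roch -/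

theorem LSp_finite {δ : Place l → ℤ} (hδ : (Function.support δ).Finite) : FiniteDimensional Ω (LSp δ) := (E4_main hδ).1

theorem LSp_neg {δ : Place l → ℤ} (hδ : (Function.support δ).Finite) (h : ∑ᶠ P, δ P < 0) : LSp δ = ⊥ := E4_neg hδ h

theorem LSp_le {δ : Place l → ℤ} (hδ : (Function.support δ).Finite) :
    (Module.finrank Ω (LSp δ) : ℤ) ≤ max 1 (∑ᶠ P, δ P) := (E4_main hδ).2

theorem LSp_eq {δ : Place l → ℤ} (hδ : (Function.support δ).Finite) (h : 0 < ∑ᶠ P, δ P) :
    (Module.finrank Ω (LSp δ) : ℤ) = ∑ᶠ P, δ P := E5_eq hδ h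

/-! ## Subfields -/

/-- The number of poles of a function. -/
def npoles (f : KL l) : ℤ := ∑ᶠ P : Place l, max 0 (-ord P f)

theorem finite_adjoin {ξ : KL l} (hξ : ∀ a : Ω, ξ ≠ algebraMap Ω (KL l) a) :
    FiniteDimensional (IntermediateField.adjoin Ω {ξ}) (KL l) := (E10_finite hξ).1

theorem finrank_adjoin {ξ : KL l} (hξ : ∀ a : Ω, ξ ≠ algebraMap Ω (KL l) a) :
    (Module.finrank (IntermediateField.adjoin Ω {ξ}) (KL l) : ℤ) = npoles ξ :=
  le_antisymm (E10_finite hξ).2 (E11_lower hξ)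

/-- The algebraic closure of `Ω` in the function field is `Ω`. -/
theorem const_of_algebraic {f : KL l} (h : IsAlgebraic Ω f) : ∃ a : Ω, f = algebraMap Ω (KL l) a := E9_const_of_algebraic h

/-- A function is integral over `Ω[ξ]` if and only if its poles are poles of `ξ`. -/
theorem integral_iff (ξ f : KL l) :
    IsIntegral (Algebra.adjoin Ω {ξ}) f ↔ ∀ P, OrdGe P 0 ξ → OrdGe P 0 f := E9_integral_iff ξ f

/-- Every valuation ring of the function field which contains `Ω` and is not the whole field belongs to a place. -/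
theorem valuationSubring_place (V : ValuationSubring (KL l)) (hΩ : ∀ a : Ω, algebraMap Ω (KL l) a ∈ V) (hV : V ≠ ⊤) :
    ∃ P : Place l, ∀ f, f ∈ V ↔ OrdGe P 0 f := E9_place V hΩ hV

/-! ## Derivations -/

/-- The invariant derivation `∂`: `∂x = 2 y`, `∂y = 3 x² - 2 (1 + l) x + l`. -/
theorem exists_dd : ∃ D : Derivation Ω (KL l) (KL l), D (xK l) = 2 * yK l ∧
    D (yK l) = 3 * xK l ^ 2 - 2 * (1 + algebraMap Ω (KL l) l) * xK l + algebraMap Ω (KL l) l := E7_exists_dd

def dd : Derivation Ω (KL l) (KL l) := Classical.choose exists_dd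

theorem dd_x : dd (xK l) = 2 * yK l := (Classical.choose_spec exists_dd).1

theorem dd_y : dd (yK l) = 3 * xK l ^ 2 - 2 * (1 + algebraMap Ω (KL l) l) * xK l + algebraMap Ω (KL l) l :=
  (Classical.choose_spec exists_dd).2

theorem dd_isDD : IsDD (fun f : KL l => dd f) := E7_isDD dd dd_x dd_y

theorem dd_ord (P : Place l) {f : KL l} (hf : f ≠ 0) (h : ord P f ≠ 0) : dd f ≠ 0 ∧ ord P (dd f) = ord P f - 1 :=
  dd_isDD.ord P hf h

theorem dd_ordGe (P : Place l) {f : KL l} (h : OrdGe P 0 f) : OrdGe P 0 (dd f) := dd_isDD.ordGe P h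

theorem dd_ordGe' (P : Place l) {n : ℤ} {f : KL l} (h : OrdGe P n f) : OrdGe P (n - 1) (dd f) := dd_isDD.ordGe' P h

theorem dd_eq_zero {f : KL l} (h : dd f = 0) : ∃ a : Ω, f = algebraMap Ω (KL l) a := dd_isDD.eq_zero h

/-- Derivations of the function field are determined by their values on `Ω`, `x`, `y`. -/
theorem der_ext (D D' : Derivation ℤ (KL l) (KL l)) (h : ∀ a : Ω, D (algebraMap Ω (KL l) a) = D' (algebraMap Ω (KL l) a))
    (hx : D (xK l) = D' (xK l)) (hy : D (yK l) = D' (yK l)) : D = D' := E6_ext D D' h hx hy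

/-- The extension of a derivation `E` of `Ω` with `x ↦ 0`. -/
theorem exists_ext (E : Derivation ℤ Ω Ω) : ∃ D : Derivation ℤ (KL l) (KL l), (∀ a : Ω, D (algebraMap Ω (KL l) a) = algebraMap Ω (KL l) (E a)) ∧
    D (xK l) = 0 ∧ 2 * yK l * D (yK l) = -(xK l * (xK l - 1) * algebraMap Ω (KL l) (E l)) := E8_exists E

def dext (E : Derivation ℤ Ω Ω) : Derivation ℤ (KL l) (KL l) := Classical.choose (exists_ext E)

theorem dext_const (E : Derivation ℤ Ω Ω) (a : Ω) : dext E (algebraMap Ω (KL l) a) = algebraMap Ω (KL l) (E a) :=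
  (Classical.choose_spec (exists_ext E)).1 a

theorem dext_x (E : Derivation ℤ Ω Ω) : dext E (xK l) = 0 := (Classical.choose_spec (exists_ext E)).2.1

theorem dext_y (E : Derivation ℤ Ω Ω) : 2 * yK l * dext E (yK l) = -(xK l * (xK l - 1) * algebraMap Ω (KL l) (E l)) :=
  (Classical.choose_spec (exists_ext E)).2.2

theorem dext_isExt (E : Derivation ℤ Ω Ω) : IsExt E (fun f : KL l => dext E f) where
  toIsDer := IsDer.ofZ (dext E)
  const := dext_const E
  x := dext_x E
  y := dext_y E

theorem dext_y' (E : Derivation ℤ Ω Ω) (hE : E l = 0) : dext E (yK l) = 0 := (dext_isExt E).y0 hE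

theorem dext_add (E E' : Derivation ℤ Ω Ω) (f : KL l) : dext (E + E') f = dext E f + dext E' f := by
  have h := (dext_isExt (l := l) (E + E')).unique (dext_isExt E) (dext_isExt E') 1 (fun a => by
    rw [one_mul]
    rfl) f
  rwa [map_one, one_mul] at h

theorem dext_smul (c : Ω) (E : Derivation ℤ Ω Ω) (f : KL l) : dext (c • E) f = algebraMap Ω (KL l) c * dext E f := by
  have h := (dext_isExt (l := l) (c • E)).unique (dext_isExt 0) (dext_isExt E) c (fun a => by
    rw [Derivation.coe_zero, Pi.zero_apply, zero_add]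
    rfl) f
  have h0 := (dext_isExt (l := l) (0 : Derivation ℤ Ω Ω)).unique (dext_isExt 0) (dext_isExt 0) 1 (fun a => by
    rw [Derivation.coe_zero, Pi.zero_apply]
    ring) f
  rw [map_one, one_mul] at h0
  linear_combination h - h0

theorem dext_comm (E : Derivation ℤ Ω Ω) (hE : E l = 0) (f : KL l) : dext E (dd f) = dd (dext E f) :=
  (dext_isExt E).comm hE dd_isDD f

/-- `D O_P ⊆ O_P` -/
theorem dext_ordGe (E : Derivation ℤ Ω Ω) (hE : E l = 0) (P : Place l) {f : KL l} (h : OrdGe P 0 f) : OrdGe P 0 (dext E f) :=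
  (dext_isExt E).ordGe hE P h

theorem dext_ordGe' (E : Derivation ℤ Ω Ω) (P : Place l) (hP : P ≠ Place.pt l 0 (by ring)) {f : KL l} (h : OrdGe P 0 f) :
    OrdGe P 0 (dext E f) := (dext_isExt E).ordGe' P hP h

/-- The correction term of a derivation with `l ↦ 1`. -/
def theta (l : Ω) : KL l := xK l * (xK l - 1) /
  (2 * yK l * (3 * xK l ^ 2 - 2 * (1 + algebraMap Ω (KL l) l) * xK l + algebraMap Ω (KL l) l))

theorem theta_ord : theta l ≠ 0 ∧ ord (Place.pt l 0 (by ring)) (theta l) = -1 := theta0_ord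

theorem dext_theta (E : Derivation ℤ Ω Ω) {f : KL l} (h : OrdGe (Place.pt l 0 (by ring)) 0 f) :
    OrdGe (Place.pt l 0 (by ring)) 0 (dext E f + algebraMap Ω (KL l) (E l) * theta l * dd f) :=
  (dext_isExt E).theta dd_isDD h

end

end EllFF
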