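import Pool.Agent.Lib.MP_8ae0c1_agF.EOrd

/-!
# Residues, the divisors of `x`, `y`, `x - a`
-/

set_option autoImplicit false
set_option linter.unusedSectionVars false
set_option linter.unusedVariables false

namespace EllFF

open WeierstrassCurve IsDedekindDomain

noncomputable section

variable {Ω : Type*} [Field Ω] [IsAlgClosed Ω] [CharZero Ω] {l : Ω} [Leg l]

theorem E1_self (P : Place l) (f : KL l) : OrdGe P (ord P f) f := Or.inr le_rfl

theorem E1_algebraMap_ne {r : RL l} (hr : r ≠ 0) : algebraMap (RL l) (KL l) r ≠ 0 := by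
  rw [Ne, FaithfulSMul.algebraMap_eq_zero_iff]
  exact hr

theorem E1_ordGe_RL (a b : Ω) (h : b ^ 2 = a * (a - 1) * (a - l)) (r : RL l) :
    OrdGe (Place.pt a b h) 0 (algebraMap (RL l) (KL l) r) := by
  by_cases hr : r = 0
  · left
    rw [hr, map_zero]
  · right
    rw [ord, ordF_ge_iff _ (E1_algebraMap_ne hr), neg_zero, WithZero.exp_zero]
    exact HeightOneSpectrum.valuation_le_one _ _

theorem E1_ordGe_one_iff (a b : Ω) (h : b ^ 2 = a * (a - 1) * (a - l)) (r : RL l) :
    OrdGe (Place.pt a b h) 1 (algebraMap (RL l) (KL l) r) ↔ evR a b h r = 0 := by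
  by_cases hr : r = 0
  · rw [hr, map_zero, map_zero]
    exact ⟨fun _ => rfl, fun _ => OrdGe.zero _ _⟩
  · have h1 : evR a b h r = 0 ↔ r ∈ (spec a b h).asIdeal := Iff.rfl
    rw [h1, ← HeightOneSpectrum.valuation_lt_one_iff_mem (K := KL l)]
    have h2 := E1_algebraMap_ne hr
    have h3 : OrdGe (Place.pt a b h) 1 (algebraMap (RL l) (KL l) r) ↔ 1 ≤ ordF (spec a b h) (algebraMap (RL l) (KL l) r) :=
      ⟨fun h4 => h4.resolve_left h2, fun h4 => Or.inr h4⟩
    rw [h3]
    have h5 := (Valuation.ne_zero_iff ((spec a b h).valuation (KL l))).2 h2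
    rw [ordF, ← WithZero.log_lt_log h5 one_ne_zero, WithZero.log_one]
    constructor <;> intro h6 <;> omega

theorem E1_ord_eq_zero (a b : Ω) (h : b ^ 2 = a * (a - 1) * (a - l)) {r : RL l} (hr : evR a b h r ≠ 0) :
    ord (Place.pt a b h) (algebraMap (RL l) (KL l) r) = 0 := by
  have hr0 : r ≠ 0 := fun h0 => hr (by rw [h0, map_zero])
  have h1 := (E1_ordGe_RL a b h r).le (E1_algebraMap_ne hr0)
  by_contra hne
  exact hr ((E1_ordGe_one_iff a b h r).1 (Or.inr (by omega)))

theorem E1_exists_residue (P : Place l) {f : KL l} (h : OrdGe P 0 f) : ∃ a : Ω, OrdGe P 1 (f - algebraMap Ω (KL l) a) := by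
  have hpt : ∀ (a b : Ω) (h : b ^ 2 = a * (a - 1) * (a - l)) (f : KL l), OrdGe (Place.pt a b h) 0 f →
      ∃ c : Ω, OrdGe (Place.pt a b h) 1 (f - algebraMap Ω (KL l) c) := by
    intro a b h f hf
    have hv : (spec a b h).valuation (KL l) f ≤ 1 := by
      rcases hf with hf | hf
      · rw [hf, map_zero]
        exact zero_le_one
      · by_cases hf0 : f = 0
        · rw [hf0, map_zero]
          exact zero_le_one
        · rw [ord, ordF_ge_iff _ hf0, neg_zero, WithZero.exp_zero] at hf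
          exact hf
    obtain ⟨n, d, hnd⟩ := HeightOneSpectrum.exists_primeCompl_mul_eq_of_integer (K := KL l) (v := spec a b h) f hv
    have hd : evR a b h (d : RL l) ≠ 0 := d.2
    have hd0 : (d : RL l) ≠ 0 := fun h0 => hd (by rw [h0, map_zero])
    have hdK := E1_algebraMap_ne hd0
    refine ⟨evR a b h n / evR a b h (d : RL l), ?_⟩
    have h1 : f - algebraMap Ω (KL l) (evR a b h n / evR a b h (d : RL l)) =
        algebraMap (RL l) (KL l) (n - algebraMap Ω (RL l) (evR a b h n / evR a b h (d : RL l)) * d) *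
          (algebraMap (RL l) (KL l) (d : RL l))⁻¹ := by
      rw [eq_mul_inv_iff_mul_eq₀ hdK, sub_mul, map_sub, map_mul, ← IsScalarTower.algebraMap_apply Ω (RL l) (KL l)]
      rw [← hnd]
    rw [h1]
    have h2 : OrdGe (Place.pt a b h) 1
        (algebraMap (RL l) (KL l) (n - algebraMap Ω (RL l) (evR a b h n / evR a b h (d : RL l)) * d)) := by
      rw [E1_ordGe_one_iff, map_sub, map_mul, AlgHom.commutes]
      show evR a b h n - evR a b h n / evR a b h (d : RL l) * evR a b h (d : RL l) = 0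
      rw [div_mul_cancel₀ _ hd, sub_self]
    have h3 : OrdGe (Place.pt a b h) 0 (algebraMap (RL l) (KL l) (d : RL l))⁻¹ := by
      right
      rw [ord_inv, E1_ord_eq_zero a b h hd, neg_zero]
    have h4 := h2.mul h3
    rwa [add_zero] at h4
  cases P with
  | pt a b h' => exact hpt a b h' f h
  | inf =>
    have h0 : OrdGe (Place.pt 0 0 (by ring) : Place l) 0 (trK f) := by
      rcases h with h | h
      · left
        rw [h, map_zero]
      · right
        exact h
    obtain ⟨c, hc⟩ := hpt 0 0 (by ring) (trK f) h0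
    refine ⟨c, ?_⟩
    rcases hc with hc | hc
    · left
      have h1 : trK (f - algebraMap Ω (KL l) c) = 0 := by rw [map_sub, AlgHom.commutes]; exact hc
      by_contra hne
      exact trK_ne hne h1
    · right
      rw [ord, map_sub, AlgHom.commutes]
      exact hc

theorem E1_alg_sub (c : Ω) : xK l - algebraMap Ω (KL l) c = algebraMap (RL l) (KL l) (xR l - algebraMap Ω (RL l) c) := by
  rw [map_sub, ← IsScalarTower.algebraMap_apply Ω (RL l) (KL l)]
  rfl

theorem E1_alg_suby (c : Ω) : yK l - algebraMap Ω (KL l) c = algebraMap (RL l) (KL l) (yR l - algebraMap Ω (RL l) c) := by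
  rw [map_sub, ← IsScalarTower.algebraMap_apply Ω (RL l) (KL l)]
  rfl

theorem E1_alg_addy (c : Ω) : yK l + algebraMap Ω (KL l) c = algebraMap (RL l) (KL l) (yR l + algebraMap Ω (RL l) c) := by
  rw [map_add, ← IsScalarTower.algebraMap_apply Ω (RL l) (KL l)]
  rfl

theorem E1_ord_xa_ne (c a b : Ω) (h : b ^ 2 = a * (a - 1) * (a - l)) (hac : a ≠ c) :
    ord (Place.pt a b h) (xK l - algebraMap Ω (KL l) c) = 0 := by
  rw [E1_alg_sub]
  apply E1_ord_eq_zero
  rw [map_sub, evR_x, AlgHom.commutes]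
  exact sub_ne_zero.2 hac

theorem E1_xa_ne (c : Ω) : xK l - algebraMap Ω (KL l) c ≠ 0 := by
  intro h0
  exact xK_transc (l := l) (by rw [sub_eq_zero.1 h0]; exact isAlgebraic_algebraMap c)

theorem E1_yK_ne : yK l ≠ 0 := by
  intro h0
  have h1 := yK_sq (l := l)
  rw [h0] at h1
  have h2 := xK_ne_zero (l := l)
  have h3 := E1_xa_ne (l := l) 1
  rw [map_one] at h3
  have h4 := E1_xa_ne (l := l) l
  have h5 := mul_ne_zero (mul_ne_zero h2 h3) h4
  apply h5
  rw [← h1]
  ring

theorem E1_min (a b : Ω) (h : b ^ 2 = a * (a - 1) * (a - l)) (n : ℤ)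
    (h1 : OrdGe (Place.pt a b h) n (xK l - algebraMap Ω (KL l) a)) (h2 : OrdGe (Place.pt a b h) n (yK l - algebraMap Ω (KL l) b)) :
    n ≤ 1 := by
  obtain ⟨t, ht'⟩ := HeightOneSpectrum.valuation_exists_uniformizer' (KL l) (spec a b h)
  have ht : (spec a b h).valuation (KL l) (algebraMap (RL l) (KL l) t) = WithZero.exp (-1) := ht'
  have ht0 : t ≠ 0 := by
    intro h0
    rw [h0, map_zero, map_zero] at ht
    exact WithZero.exp_ne_zero ht.symm
  have ht1 : ord (Place.pt a b h) (algebraMap (RL l) (KL l) t) = 1 := by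
    rw [ord, ordF, ht, WithZero.log_exp, neg_neg]
  have hmem : t ∈ RingHom.ker (evR a b h) := by
    rw [RingHom.mem_ker]
    exact (E1_ordGe_one_iff a b h t).1 (Or.inr ht1.ge)
  rw [ker_eq_span, Ideal.mem_span_pair] at hmem
  obtain ⟨u, v, huv⟩ := hmem
  have h3 : OrdGe (Place.pt a b h) n (algebraMap (RL l) (KL l) t) := by
    rw [← huv, map_add, map_mul, map_mul, ← E1_alg_sub, ← E1_alg_suby]
    have h4 := (E1_ordGe_RL a b h u).mul h1
    have h5 := (E1_ordGe_RL a b h v).mul h2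
    rw [zero_add] at h4 h5
    exact h4.add h5
  have h6 := h3.le (E1_algebraMap_ne ht0)
  rwa [ht1] at h6

theorem E1_kR_mul (a b : Ω) (h : b ^ 2 = a * (a - 1) * (a - l)) :
    (yK l - algebraMap Ω (KL l) b) * (yK l + algebraMap Ω (KL l) b) =
      (xK l - algebraMap Ω (KL l) a) * algebraMap (RL l) (KL l) (kR l a) := by
  rw [E1_alg_sub, E1_alg_suby, E1_alg_addy, ← map_mul, ← map_mul, kR_mul a b h]

theorem E1_ord_xa_one (a b : Ω) (h : b ^ 2 = a * (a - 1) * (a - l)) (hb : b ≠ 0) :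
    ord (Place.pt a b h) (xK l - algebraMap Ω (KL l) a) = 1 := by
  have hx := E1_xa_ne (l := l) a
  have h1 : 1 ≤ ord (Place.pt a b h) (xK l - algebraMap Ω (KL l) a) := by
    refine OrdGe.le ?_ hx
    rw [E1_alg_sub, E1_ordGe_one_iff, map_sub, evR_x, AlgHom.commutes]
    exact sub_self a
  refine le_antisymm (E1_min a b h _ (Or.inr le_rfl) ?_) h1
  have hyb : evR a b h (yR l + algebraMap Ω (RL l) b) ≠ 0 := by
    rw [map_add, evR_y, AlgHom.commutes]
    show b + b ≠ 0
    rw [← two_mul]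
    exact mul_ne_zero two_ne_zero hb
  have h2 := E1_ord_eq_zero a b h hyb
  have hyb0 : yR l + algebraMap Ω (RL l) b ≠ 0 := fun h0 => hyb (by rw [h0, map_zero])
  have hyK := E1_algebraMap_ne hyb0
  rw [← E1_alg_addy] at h2 hyK
  have h3 : yK l - algebraMap Ω (KL l) b = (xK l - algebraMap Ω (KL l) a) *
      (algebraMap (RL l) (KL l) (kR l a) * (yK l + algebraMap Ω (KL l) b)⁻¹) := by
    rw [← mul_assoc, eq_mul_inv_iff_mul_eq₀ hyK, E1_kR_mul a b h]
  rw [h3]
  have h4 : OrdGe (Place.pt a b h) 0 (algebraMap (RL l) (KL l) (kR l a) * (yK l + algebraMap Ω (KL l) b)⁻¹) := by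
    have h5 : OrdGe (Place.pt a b h) 0 (yK l + algebraMap Ω (KL l) b)⁻¹ := by
      right
      rw [ord_inv, h2, neg_zero]
    have h6 := (E1_ordGe_RL a b h (kR l a)).mul h5
    rwa [zero_add] at h6
  have h7 := (E1_self (Place.pt a b h) (xK l - algebraMap Ω (KL l) a)).mul h4
  rwa [add_zero] at h7

theorem E1_ord_branch (a b : Ω) (h : b ^ 2 = a * (a - 1) * (a - l)) (hb : b = 0) :
    ord (Place.pt a b h) (yK l) = 1 ∧ ord (Place.pt a b h) (xK l - algebraMap Ω (KL l) a) = 2 := by
  have hx := E1_xa_ne (l := l) a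
  have hy := E1_yK_ne (l := l)
  have h1 : 1 ≤ ord (Place.pt a b h) (yK l) := by
    refine OrdGe.le ?_ hy
    show OrdGe (Place.pt a b h) 1 (algebraMap (RL l) (KL l) (yR l))
    rw [E1_ordGe_one_iff, evR_y]
    exact hb
  have hk : evR a b h (kR l a) ≠ 0 := by
    rw [evR_k]
    exact gder_ne a (by rw [← h, hb]; ring)
  have h2 := E1_ord_eq_zero a b h hk
  have hk0 : kR l a ≠ 0 := fun h0 => hk (by rw [h0, map_zero])
  have h3 := E1_kR_mul a b h
  have hb0 : algebraMap Ω (KL l) b = 0 := by rw [hb, map_zero]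
  rw [hb0, sub_zero, add_zero] at h3
  have h4 := congrArg (ord (Place.pt a b h)) h3
  rw [ord_mul _ hy hy, ord_mul _ hx (E1_algebraMap_ne hk0), h2, add_zero] at h4
  have h5 : ord (Place.pt a b h) (yK l) ≤ 1 := by
    apply E1_min a b h
    · right
      omega
    · right
      rw [hb0, sub_zero]
  omega

theorem E1_ord_y_ne (a b : Ω) (h : b ^ 2 = a * (a - 1) * (a - l)) (hb : b ≠ 0) : ord (Place.pt a b h) (yK l) = 0 := by
  show ord (Place.pt a b h) (algebraMap (RL l) (KL l) (yR l)) = 0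
  apply E1_ord_eq_zero
  rw [evR_y]
  exact hb

theorem E1_x00 : ord (Place.pt 0 0 (by ring) : Place l) (xK l) = 2 := by
  have h1 := (E1_ord_branch (l := l) 0 0 (by ring) rfl).2
  rwa [map_zero, sub_zero] at h1

theorem E1_y00 : ord (Place.pt 0 0 (by ring) : Place l) (yK l) = 1 := (E1_ord_branch (l := l) 0 0 (by ring) rfl).1

theorem E1_lK_ne : algebraMap Ω (KL l) l ≠ 0 := by
  rw [Ne, FaithfulSMul.algebraMap_eq_zero_iff]
  exact Leg.ne0

theorem E1_ord_x_inf : ord (Place.inf : Place l) (xK l) = -2 := by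
  have h1 : ord (Place.inf : Place l) (xK l) = ord (Place.pt 0 0 (by ring) : Place l) (algebraMap Ω (KL l) l / xK l) := by
    rw [ord, trK_x]
    rfl
  rw [h1, ord_div _ E1_lK_ne xK_ne_zero, ord_const, E1_x00]
  norm_num

theorem E1_ord_y_inf : ord (Place.inf : Place l) (yK l) = -3 := by
  have h1 : ord (Place.inf : Place l) (yK l) =
      ord (Place.pt 0 0 (by ring) : Place l) (-(algebraMap Ω (KL l) l * yK l / xK l ^ 2)) := by
    rw [ord, trK_y]
    rfl
  rw [h1, ord_neg, ord_div _ (mul_ne_zero E1_lK_ne E1_yK_ne) (pow_ne_zero 2 xK_ne_zero), ord_mul _ E1_lK_ne E1_yK_ne, ord_const,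
    E1_y00, ord_pow, E1_x00]
  norm_num

end

end EllFF
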