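import Pool.Agent.Lib.MP_8ae0c1_agF.E9

/-!
# The degree of the function field over `Ω(ξ)` is the number of poles of `ξ`
-/

set_option autoImplicit false
set_option linter.unusedSectionVars false
set_option linter.unusedVariables false

namespace EllFF

open WeierstrassCurve IsDedekindDomain Classical
open scoped IntermediateField.algebraAdjoinAdjoin

noncomputable section

variable {Ω : Type*} [Field Ω] [IsAlgClosed Ω] [CharZero Ω] {l : Ω} [Leg l]

theorem E10_transc {ξ : KL l} (hξ : ∀ a : Ω, ξ ≠ algebraMap Ω (KL l) a) : Transcendental Ω ξ := by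
  intro h
  obtain ⟨a, ha⟩ := E9_const_of_algebraic h
  exact hξ a ha

theorem E10_ne {ξ : KL l} (hξ : ∀ a : Ω, ξ ≠ algebraMap Ω (KL l) a) : ξ ≠ 0 := by
  have := hξ 0
  rwa [map_zero] at this

theorem E10_poly {P : Place l} {ξ : KL l} (hP : ord P ξ < 0) {p : Polynomial Ω} (hp : p ≠ 0) :
    Polynomial.aeval ξ p ≠ 0 ∧ ord P (Polynomial.aeval ξ p) = p.natDegree * ord P ξ := by
  have hξ0 : ξ ≠ 0 := fun h0 => by
    rw [h0, ord_zero] at hP
    exact lt_irrefl _ hP
  induction hn : p.natDegree using Nat.strong_induction_on generalizing p with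
  | _ n ih =>
    have hlc : algebraMap Ω (KL l) p.leadingCoeff ≠ 0 := by
      rw [Ne, FaithfulSMul.algebraMap_eq_zero_iff]
      exact Polynomial.leadingCoeff_ne_zero.2 hp
    have h1 : Polynomial.aeval ξ p = algebraMap Ω (KL l) p.leadingCoeff * ξ ^ n + Polynomial.aeval ξ p.eraseLead := by
      conv_lhs => rw [← Polynomial.eraseLead_add_C_mul_X_pow p]
      rw [map_add, map_mul, map_pow, Polynomial.aeval_X, Polynomial.aeval_C, hn]
      ring
    have h2 : ord P (algebraMap Ω (KL l) p.leadingCoeff * ξ ^ n) = n * ord P ξ := by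
      rw [ord_mul _ hlc (pow_ne_zero n hξ0), ord_const, ord_pow]
      ring
    have h3 : OrdGe P (ord P (algebraMap Ω (KL l) p.leadingCoeff * ξ ^ n) + 1) (Polynomial.aeval ξ p.eraseLead) := by
      by_cases he : p.eraseLead = 0
      · left
        rw [he, map_zero]
      · right
        have hlt : p.eraseLead.natDegree < n := by
          rcases Polynomial.eraseLead_natDegree_lt_or_eraseLead_eq_zero p with h4 | h4
          · rw [← hn]
            exact h4
          · exact absurd h4 he
        have h5 := (ih p.eraseLead.natDegree hlt he rfl).2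
        rw [h5, h2]
        have : (p.eraseLead.natDegree : ℤ) + 1 ≤ n := by exact_mod_cast hlt
        nlinarith
    have h4 := ord_add_eq P (mul_ne_zero hlc (pow_ne_zero n hξ0)) h3
    rw [h1]
    exact ⟨h4.1, by rw [h4.2, h2]⟩

/-- The polar divisor. -/
def pol (ξ : KL l) (P : Place l) : ℤ := max 0 (-ord P ξ)

theorem pol_nonneg (ξ : KL l) (P : Place l) : 0 ≤ pol ξ P := le_max_left _ _

theorem pol_support {ξ : KL l} (hξ : ξ ≠ 0) : (Function.support (pol ξ)).Finite := by
  refine (E3_OS hξ).1.subset fun P hP => ?_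
  rw [Function.mem_support] at hP ⊢
  intro h0
  apply hP
  rw [pol, h0]
  simp

theorem pol_eq_zero {ξ : KL l} (hξ : ξ ≠ 0) {P : Place l} (h : pol ξ P = 0) : OrdGe P 0 ξ := by
  right
  rw [pol] at h
  have := le_max_right 0 (-ord P ξ)
  omega

theorem npol_pos {ξ : KL l} (hξ : ∀ a : Ω, ξ ≠ algebraMap Ω (KL l) a) : 1 ≤ ∑ᶠ P : Place l, pol ξ P := by
  have hξ0 := E10_ne hξ
  have h1 : ∃ P, 0 < pol ξ P := by
    by_contra hcon
    push Not at hcon
    obtain ⟨a, ha⟩ := E3_const (f := ξ) (fun P => pol_eq_zero hξ0 (le_antisymm (hcon P) (pol_nonneg ξ P)))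
    exact hξ a ha
  exact finsum_pos (fun P => pol_nonneg ξ P) h1 (pol_support hξ0)

/-- Clearing of denominators. -/
theorem E10_clear {ξ : KL l} (hξ : ∀ a : Ω, ξ ≠ algebraMap Ω (KL l) a) (f : KL l) :
    ∃ p : Polynomial Ω, p ≠ 0 ∧ ∀ P, OrdGe P 0 ξ → OrdGe P 0 (Polynomial.aeval ξ p * f) := by
  by_cases hf : f = 0
  · exact ⟨1, one_ne_zero, fun P _ => by
      left
      rw [hf, mul_zero]⟩
  have hfin := (E3_OS hf).1
  have hα : ∀ P : Place l, ∃ a : Ω, OrdGe P 0 ξ → OrdGe P 1 (ξ - algebraMap Ω (KL l) a) := by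
    intro P
    by_cases h : OrdGe P 0 ξ
    · obtain ⟨a, ha⟩ := E1_exists_residue P h
      exact ⟨a, fun _ => ha⟩
    · exact ⟨0, fun h' => absurd h' h⟩
  choose α hα using hα
  refine ⟨∏ Q ∈ hfin.toFinset, (Polynomial.X - Polynomial.C (α Q)) ^ (-ord Q f).toNat, ?_, ?_⟩
  · exact Finset.prod_ne_zero_iff.2 fun Q _ => pow_ne_zero _ (Polynomial.X_sub_C_ne_zero _)
  · intro P hP
    rw [map_prod]
    simp only [map_pow, map_sub, Polynomial.aeval_X, Polynomial.aeval_C]
    have h0 : ∀ Q : Place l, OrdGe P 0 ((ξ - algebraMap Ω (KL l) (α Q)) ^ (-ord Q f).toNat) := by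
      intro Q
      have h1 : OrdGe P 0 (ξ - algebraMap Ω (KL l) (α Q)) := hP.sub (OrdGe.const P _)
      exact (pow_mem (show ξ - algebraMap Ω (KL l) (α Q) ∈ OPl P from h1) _ : _ ∈ OPl P)
    have hprod0 : ∀ s : Finset (Place l), OrdGe P 0 (∏ Q ∈ s, (ξ - algebraMap Ω (KL l) (α Q)) ^ (-ord Q f).toNat) := by
      intro s
      exact (prod_mem (fun Q _ => (h0 Q : _ ∈ OPl P)) : _ ∈ OPl P)
    by_cases hPf : 0 ≤ ord P f
    · exact E7_hm (hprod0 _) (Or.inr hPf)
    · push Not at hPf
      have hmem : P ∈ hfin.toFinset := by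
        rw [Set.Finite.mem_toFinset, Function.mem_support]
        omega
      rw [← Finset.mul_prod_erase _ _ hmem]
      have h1 : OrdGe P (-ord P f) ((ξ - algebraMap Ω (KL l) (α P)) ^ (-ord P f).toNat) := by
        have hne : ξ - algebraMap Ω (KL l) (α P) ≠ 0 := sub_ne_zero.2 (hξ _)
        right
        rw [ord_pow]
        have h2 := (hα P hP).le hne
        have h3 : ((-ord P f).toNat : ℤ) = -ord P f := Int.toNat_of_nonneg (by omega)
        rw [h3]
        nlinarith
      have h2 := (h1.mul (hprod0 (hfin.toFinset.erase P))).mul (E1_self P f)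
      rwa [add_zero, neg_add_cancel] at h2

theorem E10_fin_bound {ξ : KL l} (hξ : ∀ a : Ω, ξ ≠ algebraMap Ω (KL l) a) {m : ℕ} (f : Fin m → KL l)
    (hf : LinearIndependent (IntermediateField.adjoin Ω {ξ}) f) : (m : ℤ) ≤ ∑ᶠ P : Place l, pol ξ P := by
  have hξ0 := E10_ne hξ
  have htr := E10_transc hξ
  have hfin := pol_support hξ0
  set n := ∑ᶠ P : Place l, pol ξ P with hn
  have hn1 : 1 ≤ n := npol_pos hξ
  choose p hp0 hp using fun i => E10_clear hξ (f i)
  set g : Fin m → KL l := fun i => Polynomial.aeval ξ (p i) * f i with hg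
  -- independence over polynomials
  have hind : ∀ q : Fin m → Polynomial Ω, ∑ i, Polynomial.aeval ξ (q i) * g i = 0 → ∀ i, q i = 0 := by
    intro q hq i
    have h1 : ∑ i, (⟨Polynomial.aeval ξ (q i * p i), IntermediateField.algebra_adjoin_le_adjoin Ω {ξ} (Polynomial.aeval_mem_adjoin_singleton Ω ξ)⟩ :
        IntermediateField.adjoin Ω {ξ}) • f i = 0 := by
      rw [← hq]
      refine Finset.sum_congr rfl fun i _ => ?_
      show Polynomial.aeval ξ (q i * p i) * f i = Polynomial.aeval ξ (q i) * (Polynomial.aeval ξ (p i) * f i)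
      rw [map_mul, mul_assoc]
    have h2 := (Fintype.linearIndependent_iff.1 hf) _ h1 i
    have h3 : Polynomial.aeval ξ (q i * p i) = 0 := congrArg Subtype.val h2
    have h4 := (transcendental_iff.1 htr) _ h3
    exact (mul_eq_zero.1 h4).resolve_right (hp0 i)
  -- a common bound for the poles
  obtain ⟨c, hc⟩ : ∃ c : ℕ, ∀ i P, OrdGe P (-((c + 1 : ℕ) : ℤ) * pol ξ P) (g i) := by
    refine ⟨∑ i, ∑ P ∈ hfin.toFinset, (ord P (g i)).natAbs, fun i P => ?_⟩
    by_cases hP : pol ξ P = 0
    · rw [hP, mul_zero]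
      exact hp i P (pol_eq_zero hξ0 hP)
    · right
      have hmem : P ∈ hfin.toFinset := by
        rw [Set.Finite.mem_toFinset, Function.mem_support]
        exact hP
      have h1 : (ord P (g i)).natAbs ≤ ∑ i, ∑ P ∈ hfin.toFinset, (ord P (g i)).natAbs := by
        refine le_trans ?_ (Finset.single_le_sum (f := fun i => ∑ P ∈ hfin.toFinset, (ord P (g i)).natAbs)
          (fun _ _ => Nat.zero_le _) (Finset.mem_univ i))
        exact Finset.single_le_sum (f := fun P => (ord P (g i)).natAbs) (fun _ _ => Nat.zero_le _) hmem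
      have h2 : 1 ≤ pol ξ P := by
        have := pol_nonneg ξ P
        omega
      have h3 : -(((ord P (g i)).natAbs : ℤ)) ≤ ord P (g i) := by omega
      have h4 : (((ord P (g i)).natAbs : ℤ)) ≤ ((∑ i, ∑ P ∈ hfin.toFinset, (ord P (g i)).natAbs : ℕ) : ℤ) := by
        exact_mod_cast h1
      have h5 : (0 : ℤ) ≤ ((∑ i, ∑ P ∈ hfin.toFinset, (ord P (g i)).natAbs : ℕ) : ℤ) := by positivity
      generalize hS : (∑ i, ∑ P ∈ hfin.toFinset, (ord P (g i)).natAbs : ℕ) = S at h4 h5 ⊢
      push_cast
      nlinarith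
  have hmain : ∀ s : ℕ, (m : ℤ) * (s + 1) ≤ ((c + 1 : ℕ) + s) * n := by
    intro s
    set δ : Place l → ℤ := fun P => ((c + 1 : ℕ) + s : ℤ) * pol ξ P with hδ
    have hδfin : (Function.support δ).Finite := hfin.subset fun P hP => by
      rw [Function.mem_support] at hP ⊢
      intro h0
      apply hP
      rw [hδ]
      simp only
      rw [h0, mul_zero]
    have hδsum : ∑ᶠ P, δ P = ((c + 1 : ℕ) + s) * n := by
      rw [hn, mul_finsum]
    have hmem : ∀ q : Fin m → Polynomial.degreeLT Ω (s + 1), ∑ i, Polynomial.aeval ξ (q i).1 * g i ∈ LSp δ := by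
      intro q
      refine Submodule.sum_mem _ fun i _ P => ?_
      have h1 : OrdGe P (-(s : ℤ) * pol ξ P) (Polynomial.aeval ξ (q i).1) := by
        by_cases hq : (q i).1 = 0
        · left
          rw [hq, map_zero]
        · by_cases hP : 0 ≤ ord P ξ
          · have h2 : pol ξ P = 0 := by
              rw [pol]
              exact max_eq_left (by omega)
            rw [h2, mul_zero]
            have h3 : ∀ r : Polynomial Ω, Polynomial.aeval ξ r ∈ OPl P := by
              intro r
              induction r using Polynomial.induction_on' with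
              | add a b ha hb =>
                rw [map_add]
                exact add_mem ha hb
              | monomial k a =>
                rw [Polynomial.aeval_monomial]
                exact mul_mem (OrdGe.const P a) (pow_mem (show ξ ∈ OPl P from Or.inr hP) k)
            exact h3 _
          · push Not at hP
            right
            rw [(E10_poly hP hq).2]
            have h2 : pol ξ P = -ord P ξ := by
              rw [pol]
              exact max_eq_right (by omega)
            have h3 : ((q i).1.natDegree : ℤ) ≤ s := by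
              have h4 := Polynomial.mem_degreeLT.1 (q i).2
              have h5 := (Polynomial.natDegree_lt_iff_degree_lt hq).2 h4
              omega
            rw [h2]
            nlinarith
      have h2 := h1.mul (hc i P)
      have h3 : -(s : ℤ) * pol ξ P + -((c + 1 : ℕ) : ℤ) * pol ξ P = -δ P := by
        rw [hδ]
        ring
      rwa [h3] at h2
    let Φ : (Fin m → Polynomial.degreeLT Ω (s + 1)) →ₗ[Ω] LSp δ :=
      { toFun := fun q => ⟨∑ i, Polynomial.aeval ξ (q i).1 * g i, hmem q⟩
        map_add' := fun q r => Subtype.ext (by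
          show ∑ i, Polynomial.aeval ξ ((q i).1 + (r i).1) * g i =
            ∑ i, Polynomial.aeval ξ (q i).1 * g i + ∑ i, Polynomial.aeval ξ (r i).1 * g i
          rw [← Finset.sum_add_distrib]
          refine Finset.sum_congr rfl fun i _ => ?_
          rw [map_add, add_mul])
        map_smul' := fun a q => Subtype.ext (by
          show ∑ i, Polynomial.aeval ξ (a • (q i).1) * g i = a • ∑ i, Polynomial.aeval ξ (q i).1 * g i
          rw [Finset.smul_sum]
          refine Finset.sum_congr rfl fun i _ => ?_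
          rw [map_smul, smul_mul_assoc]) }
    have hinj : Function.Injective Φ := by
      rw [injective_iff_map_eq_zero]
      intro q hq
      have h1 : ∑ i, Polynomial.aeval ξ (q i).1 * g i = 0 := congrArg Subtype.val hq
      have h2 := hind (fun i => (q i).1) h1
      exact funext fun i => Subtype.ext (h2 i)
    have hfd := (E4_main hδfin).1
    have hle := (E4_main hδfin).2
    have h1 := LinearMap.finrank_le_finrank_of_injective hinj
    have hfd' : FiniteDimensional Ω (Polynomial.degreeLT Ω (s + 1)) :=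
      (Polynomial.degreeLTEquiv Ω (s + 1)).symm.finiteDimensional
    rw [Module.finrank_pi_fintype, Finset.sum_const, Finset.card_univ, Fintype.card_fin,
      (Polynomial.degreeLTEquiv Ω (s + 1)).finrank_eq, Module.finrank_fin_fun, smul_eq_mul] at h1
    rw [hδsum] at hle
    have h2 : (1 : ℤ) ≤ ((c + 1 : ℕ) + s) * n := by
      push_cast
      nlinarith
    rw [max_eq_right h2] at hle
    calc (m : ℤ) * (s + 1) = ((m * (s + 1) : ℕ) : ℤ) := by push_cast; ring
      _ ≤ (Module.finrank Ω (LSp δ) : ℤ) := by exact_mod_cast h1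
      _ ≤ _ := hle
  by_contra hlt
  push Not at hlt
  obtain ⟨N, hN⟩ := Int.eq_ofNat_of_zero_le (show 0 ≤ n by omega)
  have h1 := hmain ((c + 1) * N)
  rw [hN] at h1 hlt
  push_cast at h1 hlt
  have h2 : (N : ℤ) + 1 ≤ m := by omega
  nlinarith [mul_nonneg (show (0 : ℤ) ≤ c + 1 by positivity) (show (0 : ℤ) ≤ N by positivity)]

theorem E10_finite {ξ : KL l} (hξ : ∀ a : Ω, ξ ≠ algebraMap Ω (KL l) a) :
    FiniteDimensional (IntermediateField.adjoin Ω {ξ}) (KL l) ∧
      (Module.finrank (IntermediateField.adjoin Ω {ξ}) (KL l) : ℤ) ≤ ∑ᶠ P : Place l, pol ξ P := by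
  obtain ⟨N, hN⟩ := Int.eq_ofNat_of_zero_le (show 0 ≤ ∑ᶠ P : Place l, pol ξ P by have := npol_pos hξ; omega)
  have hr : Module.rank (IntermediateField.adjoin Ω {ξ}) (KL l) ≤ N := by
    refine rank_le fun s hs => ?_
    have e := s.equivFin
    have h1 := hs.comp e.symm e.symm.injective
    have h2 := E10_fin_bound hξ _ h1
    rw [hN] at h2
    exact_mod_cast h2
  have hfd : FiniteDimensional (IntermediateField.adjoin Ω {ξ}) (KL l) :=
    Module.rank_lt_aleph0_iff.1 (hr.trans_lt Cardinal.natCast_lt_aleph0)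
  refine ⟨hfd, ?_⟩
  rw [hN]
  have := Module.finrank_le_of_rank_le hr
  exact_mod_cast this

end

end EllFF
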