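import Pool.Agent.Lib.MP_8ae0c1_agF.E10

/-!
# The degree of the function field over `Ω(ξ)`: the lower bound
-/

set_option autoImplicit false
set_option linter.unusedSectionVars false
set_option linter.unusedVariables false

namespace EllFF

open WeierstrassCurve IsDedekindDomain Classical
open scoped IntermediateField.algebraAdjoinAdjoin

noncomputable section

variable {Ω : Type*} [Field Ω] [IsAlgClosed Ω] [CharZero Ω] {l : Ω} [Leg l]

theorem E11_infinite : Infinite (Place l) := by
  have : Infinite Ω := IsAlgClosed.instInfinite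
  have hb : ∀ a : Ω, ∃ b : Ω, b ^ 2 = a * (a - 1) * (a - l) := fun a => IsAlgClosed.exists_pow_nat_eq _ (by norm_num)
  choose b hb using hb
  refine Infinite.of_injective (fun a : Ω => Place.pt a (b a) (hb a)) fun a a' h => ?_
  injection h

/-- A function with prescribed pole at `P` which vanishes at the other places of `S`. -/
theorem E11_exists (S : Finset (Place l)) (P : Place l) (j : ℕ) :
    ∃ t : KL l, t ≠ 0 ∧ ord P t = -(j : ℤ) ∧ ∀ Q ∈ S, Q ≠ P → OrdGe Q 1 t := by
  have hinf := E11_infinite (l := l)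
  obtain ⟨R, hR⟩ := Infinite.exists_notMem_finset (insert P S)
  have hRP : R ≠ P := fun h => hR (by rw [h]; exact Finset.mem_insert_self _ _)
  have hRS : R ∉ S := fun h => hR (Finset.mem_insert_of_mem h)
  set δ0 : Place l → ℤ := fun Q => if Q ∈ S then (if Q = P then 0 else -1) else 0 with hδ0
  have hδ0fin : (Function.support δ0).Finite := (Finset.finite_toSet S).subset fun Q hQ => by
    rw [Function.mem_support] at hQ
    by_contra hQS
    apply hQ
    have hQS' : Q ∉ S := fun h => hQS (Finset.mem_coe.2 h)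
    rw [hδ0]
    simp only
    rw [if_neg hQS']
  obtain ⟨M, hM⟩ : ∃ M : ℕ, 2 ≤ ∑ᶠ Q, δ0 Q + M := ⟨(2 - ∑ᶠ Q, δ0 Q).toNat, by omega⟩
  set δ1 : Place l → ℤ := δ0 + (Pi.single R (M : ℤ) + Pi.single P ((j : ℤ) - 1)) with hδ1
  set δ2 : Place l → ℤ := δ1 + Pi.single P 1 with hδ2
  have hsf : ∀ (Q : Place l) (n : ℤ), (Function.support (Pi.single Q n : Place l → ℤ)).Finite := fun Q n => E4_single_support Q n
  have hf12 : (Function.support ((Pi.single R (M : ℤ) + Pi.single P ((j : ℤ) - 1) : Place l → ℤ))).Finite :=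
    ((hsf R M).union (hsf P _)).subset (Function.support_add _ _)
  have hδ1fin : (Function.support δ1).Finite := (hδ0fin.union hf12).subset (Function.support_add _ _)
  have hδ2fin : (Function.support δ2).Finite := (hδ1fin.union (hsf P 1)).subset (Function.support_add _ _)
  have hs12 : ∑ᶠ Q, ((Pi.single R (M : ℤ) + Pi.single P ((j : ℤ) - 1) : Place l → ℤ)) Q = M + (j - 1) := by
    have h1 := finsum_add_distrib (hsf R M) (hsf P ((j : ℤ) - 1))
    rw [E4_single_sum, E4_single_sum] at h1
    exact h1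
  have hs1 : ∑ᶠ Q, δ1 Q = ∑ᶠ Q, δ0 Q + (M + (j - 1)) := by
    have h1 := finsum_add_distrib hδ0fin hf12
    rw [hs12] at h1
    exact h1
  have hs2 : ∑ᶠ Q, δ2 Q = ∑ᶠ Q, δ1 Q + 1 := by
    have h1 := finsum_add_distrib hδ1fin (hsf P 1)
    rw [E4_single_sum] at h1
    exact h1
  have h1 := E5_eq hδ1fin (by rw [hs1]; omega)
  have h2 := E5_eq hδ2fin (by rw [hs2, hs1]; omega)
  have hnle : ¬ (LSp δ2 ≤ LSp δ1) := by
    intro hle
    have hfd := (E4_main hδ1fin).1
    have h3 := Submodule.finrank_mono hle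
    have h4 : (Module.finrank Ω (LSp δ2) : ℤ) ≤ Module.finrank Ω (LSp δ1) := by exact_mod_cast h3
    omega
  obtain ⟨t, ht2, ht1⟩ := SetLike.not_le_iff_exists.1 hnle
  have ht0 : t ≠ 0 := fun h0 => ht1 (by rw [h0]; exact zero_mem _)
  have hRv : ∀ Q, Q ≠ P → δ2 Q = δ1 Q := fun Q hQ => by
    rw [hδ2, Pi.add_apply, Pi.single_eq_of_ne hQ, add_zero]
  have hP1 : δ1 P = j - 1 := by
    rw [hδ1, Pi.add_apply, Pi.add_apply, Pi.single_eq_same, Pi.single_eq_of_ne hRP.symm, zero_add, hδ0]
    simp only [if_true]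
    by_cases hPS : P ∈ S
    · rw [if_pos hPS, zero_add]
    · rw [if_neg hPS, zero_add]
  have hP2 : δ2 P = j := by
    rw [hδ2, Pi.add_apply, Pi.single_eq_same, hP1]
    ring
  refine ⟨t, ht0, ?_, ?_⟩
  · have h3 := (ht2 P).le ht0
    rw [hP2] at h3
    have h4 : ¬ (-δ1 P ≤ ord P t) := by
      intro h5
      apply ht1
      intro Q
      by_cases hQ : Q = P
      · subst hQ
        exact Or.inr h5
      · have h6 := ht2 Q
        rwa [hRv Q hQ] at h6
    rw [hP1] at h4
    omega
  · intro Q hQ hQP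
    have h3 := ht2 Q
    have h4 : δ2 Q = -1 := by
      have hQR : Q ≠ R := fun h => hRS (by rw [← h]; exact hQ)
      rw [hRv Q hQP, hδ1, Pi.add_apply, Pi.add_apply, Pi.single_eq_of_ne hQR, Pi.single_eq_of_ne hQP, add_zero, add_zero, hδ0]
      simp only
      rw [if_pos hQ, if_neg hQP]
    rwa [h4, neg_neg] at h3

theorem E11_lower {ξ : KL l} (hξ : ∀ a : Ω, ξ ≠ algebraMap Ω (KL l) a) :
    ∑ᶠ P : Place l, pol ξ P ≤ (Module.finrank (IntermediateField.adjoin Ω {ξ}) (KL l) : ℤ) := by
  have hξ0 := E10_ne hξ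
  have htr := E10_transc hξ
  have hfin := pol_support hξ0
  have hfd := (E10_finite hξ).1
  set S := hfin.toFinset with hS
  have hSmem : ∀ P, P ∈ S → ord P ξ < 0 ∧ pol ξ P = -ord P ξ := by
    intro P hP
    rw [hS, Set.Finite.mem_toFinset, Function.mem_support] at hP
    have h1 : ord P ξ < 0 := by
      by_contra h2
      apply hP
      rw [pol]
      exact max_eq_left (by omega)
    exact ⟨h1, max_eq_right (by omega)⟩
  let I : Type _ := Σ P : S, Fin (pol ξ P.1).toNat
  choose t ht0 ht1 ht2 using fun (P : Place l) (j : ℕ) => E11_exists S P j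
  have hind : LinearIndependent (IntermediateField.adjoin Ω {ξ}) (fun i : I => t i.1.1 i.2.1) := by
    rw [← LinearIndependent.iff_fractionRing (R := Algebra.adjoin Ω {ξ})]
    rw [Fintype.linearIndependent_iff]
    intro g hg
    have hpoly : ∀ i : I, ∃ p : Polynomial Ω, Polynomial.aeval ξ p = (g i : KL l) := by
      intro i
      have h1 : (g i : KL l) ∈ (Polynomial.aeval ξ : Polynomial Ω →ₐ[Ω] KL l).range := by
        rw [← Algebra.adjoin_singleton_eq_range_aeval]
        exact (g i).2
      obtain ⟨p, hp⟩ := h1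
      exact ⟨p, hp⟩
    choose p hp using hpoly
    have hsum : ∑ i : I, Polynomial.aeval ξ (p i) * t i.1.1 i.2.1 = 0 := by
      rw [← hg]
      refine Finset.sum_congr rfl fun i _ => ?_
      rw [hp]
      rfl
    suffices h : ∀ i, p i = 0 by
      intro i
      apply Subtype.ext
      rw [← hp i, h i, map_zero]
      rfl
    by_contra hcon
    push Not at hcon
    obtain ⟨i1, hi1, hmax1⟩ := Finset.exists_max_image (Finset.univ.filter fun i : I => p i ≠ 0) (fun i => (p i).natDegree)
      (by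
        obtain ⟨i, hi⟩ := hcon
        exact ⟨i, Finset.mem_filter.2 ⟨Finset.mem_univ _, hi⟩⟩)
    obtain ⟨i0, hi0, hmax0⟩ := Finset.exists_max_image
      (Finset.univ.filter fun i : I => p i ≠ 0 ∧ (p i).natDegree = (p i1).natDegree ∧ i.1 = i1.1) (fun i => (i.2 : ℕ))
      ⟨i1, Finset.mem_filter.2 ⟨Finset.mem_univ _, (Finset.mem_filter.1 hi1).2, rfl, rfl⟩⟩
    obtain ⟨-, hp0, hd0, hP0⟩ := Finset.mem_filter.1 hi0
    set P0 : Place l := i0.1.1 with hP0def
    obtain ⟨he, hpol⟩ := hSmem P0 i0.1.2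
    set D := (p i1).natDegree with hD
    have hmax1' : ∀ i, p i ≠ 0 → (p i).natDegree ≤ D := fun i hi => hmax1 i (Finset.mem_filter.2 ⟨Finset.mem_univ _, hi⟩)
    have hterm0 : Polynomial.aeval ξ (p i0) * t P0 i0.2.1 ≠ 0 := mul_ne_zero (E10_poly he hp0).1 (ht0 _ _)
    have hord0 : ord P0 (Polynomial.aeval ξ (p i0) * t P0 i0.2.1) = D * ord P0 ξ - i0.2.1 := by
      rw [ord_mul _ (E10_poly he hp0).1 (ht0 _ _), (E10_poly he hp0).2, ht1, hd0]
      ring
    have ht1' : ∀ (Q : Place l) (j : ℕ), Q = P0 → ord P0 (t Q j) = -(j : ℤ) := by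
      intro Q j h
      rw [← h]
      exact ht1 Q j
    have hother : ∀ i ∈ Finset.univ.erase i0, OrdGe P0 (ord P0 (Polynomial.aeval ξ (p i0) * t P0 i0.2.1) + 1)
        (Polynomial.aeval ξ (p i) * t i.1.1 i.2.1) := by
      intro i hi
      have hne : i ≠ i0 := (Finset.mem_erase.1 hi).1
      by_cases hpi : p i = 0
      · left
        rw [hpi, map_zero, zero_mul]
      have hdi := hmax1' i hpi
      have hpoly := E10_poly he hpi
      by_cases hPi : i.1 = i0.1
      · right
        have hPi' : i.1.1 = P0 := by rw [hPi]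
        rw [hord0, ord_mul _ hpoly.1 (ht0 _ _), hpoly.2, ht1' _ _ hPi']
        have hj : ((i.2 : ℕ) : ℤ) < -ord P0 ξ := by
          have h1 := i.2.2
          have h2 : ((pol ξ i.1.1).toNat : ℤ) = -ord P0 ξ := by
            rw [hPi', hpol]
            exact Int.toNat_of_nonneg (by omega)
          omega
        rcases eq_or_lt_of_le hdi with h1 | h1
        · have h2 : (i.2 : ℕ) ≤ (i0.2 : ℕ) :=
            hmax0 i (Finset.mem_filter.2 ⟨Finset.mem_univ _, hpi, h1, hPi.trans hP0⟩)
          have h3 : (i.2 : ℕ) ≠ (i0.2 : ℕ) := by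
            intro h4
            apply hne
            obtain ⟨a, b⟩ := i
            obtain ⟨a0, b0⟩ := i0
            simp only at hPi h4
            subst hPi
            congr 1
            exact Fin.ext h4
          rw [h1]
          omega
        · have h2 : ((p i).natDegree : ℤ) + 1 ≤ D := by exact_mod_cast h1
          have h3 : (0 : ℤ) ≤ i0.2.1 := by positivity
          nlinarith
      · have hPi' : P0 ≠ i.1.1 := fun h => hPi (Subtype.ext h.symm)
        have h1 := ht2 i.1.1 i.2.1 P0 i0.1.2 hPi'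
        have h2 : OrdGe P0 ((D : ℤ) * ord P0 ξ) (Polynomial.aeval ξ (p i)) := by
          right
          rw [hpoly.2]
          have h3 : ((p i).natDegree : ℤ) ≤ D := by exact_mod_cast hdi
          nlinarith
        refine (h2.mul h1).mono ?_
        rw [hord0]
        have h3 : (0 : ℤ) ≤ i0.2.1 := by positivity
        omega
    have hsum2 := Finset.add_sum_erase Finset.univ (fun i : I => Polynomial.aeval ξ (p i) * t i.1.1 i.2.1) (Finset.mem_univ i0)
    rw [hsum] at hsum2
    exact (ord_add_eq P0 hterm0 (OrdGe.sum _ _ hother)).1 hsum2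
  have hcard := hind.fintype_card_le_finrank
  have hI : (Fintype.card I : ℤ) = ∑ᶠ P : Place l, pol ξ P := by
    rw [Fintype.card_sigma]
    simp only [Fintype.card_fin]
    rw [finsum_eq_sum_of_support_subset (s := S) _ (by rw [hS, Set.Finite.coe_toFinset])]
    push_cast
    rw [← Finset.sum_coe_sort S]
    refine Finset.sum_congr rfl fun P _ => ?_
    exact Int.toNat_of_nonneg (pol_nonneg ξ P.1)
  rw [← hI]
  exact_mod_cast hcard

end

end EllFF
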