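import Pool.Agent.Lib.MP_8ae0c1_agF.E1

/-!
# The degree of a principal divisor
-/

set_option autoImplicit false
set_option linter.unusedSectionVars false
set_option linter.unusedVariables false

namespace EllFF

open WeierstrassCurve IsDedekindDomain

noncomputable section

variable {Ω : Type*} [Field Ω] [IsAlgClosed Ω] [CharZero Ω] {l : Ω} [Leg l]

/-! ## The order of a polynomial at infinity -/

theorem E2_poly_inf {p : Polynomial Ω} (hp : p ≠ 0) :
    Polynomial.aeval (xK l) p ≠ 0 ∧ ord (Place.inf : Place l) (Polynomial.aeval (xK l) p) = -(2 * p.natDegree : ℤ) := by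
  have hne : Polynomial.aeval (xK l) p ≠ 0 := fun h0 => hp ((transcendental_iff.1 (xK_transc (l := l))) p h0)
  refine ⟨hne, ?_⟩
  induction hn : p.natDegree using Nat.strong_induction_on generalizing p with
  | _ n ih =>
    have hlc : algebraMap Ω (KL l) p.leadingCoeff ≠ 0 := by
      rw [Ne, FaithfulSMul.algebraMap_eq_zero_iff]
      exact Polynomial.leadingCoeff_ne_zero.2 hp
    have h1 : Polynomial.aeval (xK l) p = algebraMap Ω (KL l) p.leadingCoeff * xK l ^ n +
        Polynomial.aeval (xK l) p.eraseLead := by
      conv_lhs => rw [← Polynomial.eraseLead_add_C_mul_X_pow p]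
      rw [map_add, map_mul, map_pow, Polynomial.aeval_X, Polynomial.aeval_C, hn]
      ring
    have h2 : ord (Place.inf : Place l) (algebraMap Ω (KL l) p.leadingCoeff * xK l ^ n) = -(2 * n : ℤ) := by
      rw [ord_mul _ hlc (pow_ne_zero n xK_ne_zero), ord_const, ord_pow, E1_ord_x_inf]
      ring
    have h3 : OrdGe (Place.inf : Place l) (ord (Place.inf : Place l) (algebraMap Ω (KL l) p.leadingCoeff * xK l ^ n) + 1)
        (Polynomial.aeval (xK l) p.eraseLead) := by
      by_cases he : p.eraseLead = 0
      · left
        rw [he, map_zero]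
      · right
        have hlt : p.eraseLead.natDegree < n := by
          rcases Polynomial.eraseLead_natDegree_lt_or_eraseLead_eq_zero p with h4 | h4
          · rw [← hn]
            exact h4
          · exact absurd h4 he
        have h5 := ih p.eraseLead.natDegree hlt he
          (fun h0 => he ((transcendental_iff.1 (xK_transc (l := l))) _ h0)) rfl
        rw [h5, h2]
        have : (p.eraseLead.natDegree : ℤ) < n := by exact_mod_cast hlt
        omega
    have h4 := ord_add_eq Place.inf (mul_ne_zero hlc (pow_ne_zero n xK_ne_zero)) h3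
    rw [h1, h4.2, h2]

theorem E2_alg_poly (p : Polynomial Ω) : algebraMap (RL l) (KL l) (Polynomial.aeval (xR l) p) = Polynomial.aeval (xK l) p :=
  (Polynomial.aeval_algebraMap_apply (KL l) (xR l) p).symm

theorem E2_repr (r : RL l) : ∃ p q : Polynomial Ω, r = Polynomial.aeval (xR l) p + Polynomial.aeval (xR l) q * yR l ∧
    algebraMap (RL l) (KL l) r = Polynomial.aeval (xK l) p + Polynomial.aeval (xK l) q * yK l := by
  obtain ⟨p, q, h⟩ := RL_repr r
  refine ⟨p, q, h, ?_⟩
  rw [h, map_add, map_mul, E2_alg_poly, E2_alg_poly]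
  rfl

/-- The order of `p(x) + q(x) y` at infinity. -/
theorem E2_inf_bound {p q : Polynomial Ω} (n : ℕ)
    (h : OrdGe (Place.inf : Place l) (-(n : ℤ)) (Polynomial.aeval (xK l) p + Polynomial.aeval (xK l) q * yK l)) :
    2 * p.natDegree ≤ n ∧ (q ≠ 0 → 2 * q.natDegree + 3 ≤ n) := by
  have hy := E1_yK_ne (l := l)
  by_cases hq : q = 0
  · rw [hq, map_zero, zero_mul, add_zero] at h
    refine ⟨?_, fun h0 => absurd hq h0⟩
    by_cases hp : p = 0
    · rw [hp, Polynomial.natDegree_zero]
      exact Nat.zero_le _
    · have h1 := E2_poly_inf (l := l) hp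
      have h2 := h.le h1.1
      rw [h1.2] at h2
      omega
  · have h3 := E2_poly_inf (l := l) hq
    have h4 : ord (Place.inf : Place l) (Polynomial.aeval (xK l) q * yK l) = -(2 * q.natDegree + 3 : ℤ) := by
      rw [ord_mul _ h3.1 hy, h3.2, E1_ord_y_inf]
      ring
    have hqy := mul_ne_zero h3.1 hy
    by_cases hp : p = 0
    · rw [hp, map_zero, zero_add] at h
      have h2 := h.le hqy
      rw [h4] at h2
      rw [hp, Polynomial.natDegree_zero]
      refine ⟨Nat.zero_le _, fun _ => ?_⟩
      omega
    · have h1 := E2_poly_inf (l := l) hp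
      rcases lt_or_gt_of_ne (show 2 * p.natDegree ≠ 2 * q.natDegree + 3 by omega) with hlt | hlt
      · have h5 := ord_add_eq Place.inf hqy (g := Polynomial.aeval (xK l) p) (Or.inr (by rw [h1.2, h4]; omega))
        rw [add_comm] at h
        have h6 := h.le h5.1
        rw [h5.2, h4] at h6
        refine ⟨by omega, fun _ => by omega⟩
      · have h5 := ord_add_eq Place.inf h1.1 (g := Polynomial.aeval (xK l) q * yK l) (Or.inr (by rw [h1.2, h4]; omega))
        have h6 := h.le h5.1
        rw [h5.2, h1.2] at h6
        refine ⟨by omega, fun _ => by omega⟩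

theorem E2_mem_RL {f : KL l} (h : ∀ P : Place l, P ≠ Place.inf → OrdGe P 0 f) : ∃ r : RL l, algebraMap (RL l) (KL l) r = f := by
  refine HeightOneSpectrum.mem_integers_of_valuation_le_one (KL l) f fun v => ?_
  obtain ⟨a, b, hab, rfl⟩ := exists_spec v
  rcases h (Place.pt a b hab) (by simp) with h1 | h1
  · rw [h1, map_zero]
    exact zero_le_one
  · by_cases hf : f = 0
    · rw [hf, map_zero]
      exact zero_le_one
    · rw [ord, ordF_ge_iff _ hf, neg_zero, WithZero.exp_zero] at h1
      exact h1

theorem E2_mem_RL_iff (f : KL l) : (∃ r : RL l, algebraMap (RL l) (KL l) r = f) ↔ ∀ P : Place l, P ≠ Place.inf → OrdGe P 0 f := by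
  refine ⟨?_, E2_mem_RL⟩
  rintro ⟨r, rfl⟩ P hP
  cases P with
  | inf => exact absurd rfl hP
  | pt a b h => exact E1_ordGe_RL a b h r

/-- The order at infinity on the coordinate ring. -/
theorem E2_ord_inf_RL {r : RL l} (hr : r ≠ 0) :
    ord (Place.inf : Place l) (algebraMap (RL l) (KL l) r) = -((Algebra.norm (Polynomial Ω) r).natDegree : ℤ) := by
  obtain ⟨p, q, h1, h2⟩ := E2_repr r
  have hrK := E1_algebraMap_ne hr
  have hdeg := Affine.CoordinateRing.degree_norm_smul_basis (W' := WL l) p q
  have hh : p • (1 : RL l) + q • Affine.CoordinateRing.mk (WL l) Polynomial.X = r := by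
    rw [h1, Algebra.smul_def, Algebra.smul_def, algebraMap_poly, algebraMap_poly, mul_one]
    rfl
  rw [hh] at hdeg
  have hpq : ¬ (p = 0 ∧ q = 0) := by
    rintro ⟨h3, h4⟩
    rw [h3, h4, map_zero, zero_mul, add_zero] at h1
    exact hr h1
  have hy := E1_yK_ne (l := l)
  by_cases hq : q = 0
  · have hp : p ≠ 0 := fun h0 => hpq ⟨h0, hq⟩
    rw [h2, hq, map_zero, zero_mul, add_zero, (E2_poly_inf (l := l) hp).2]
    rw [hq, Polynomial.degree_zero, Polynomial.degree_eq_natDegree hp] at hdeg
    have : (Algebra.norm (Polynomial Ω) r).natDegree = 2 * p.natDegree := by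
      apply Polynomial.natDegree_eq_of_degree_eq_some
      rw [hdeg]
      simp [two_mul]
    rw [this]
    push_cast
    ring
  · have h3 := E2_poly_inf (l := l) hq
    have h4 : ord (Place.inf : Place l) (Polynomial.aeval (xK l) q * yK l) = -(2 * q.natDegree + 3 : ℤ) := by
      rw [ord_mul _ h3.1 hy, h3.2, E1_ord_y_inf]
      ring
    have hqy := mul_ne_zero h3.1 hy
    by_cases hp : p = 0
    · rw [h2, hp, map_zero, zero_add, h4]
      rw [hp, Polynomial.degree_zero, Polynomial.degree_eq_natDegree hq] at hdeg
      have : (Algebra.norm (Polynomial Ω) r).natDegree = 2 * q.natDegree + 3 := by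
        apply Polynomial.natDegree_eq_of_degree_eq_some
        rw [hdeg]
        simp [two_mul]
      rw [this]
      push_cast
      ring
    · have h1' := E2_poly_inf (l := l) hp
      rw [Polynomial.degree_eq_natDegree hq, Polynomial.degree_eq_natDegree hp] at hdeg
      rcases lt_or_gt_of_ne (show 2 * p.natDegree ≠ 2 * q.natDegree + 3 by omega) with hlt | hlt
      · have h5 := ord_add_eq Place.inf hqy (g := Polynomial.aeval (xK l) p) (Or.inr (by rw [h1'.2, h4]; omega))
        rw [h2, add_comm, h5.2, h4]
        have : (Algebra.norm (Polynomial Ω) r).natDegree = 2 * q.natDegree + 3 := by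
          apply Polynomial.natDegree_eq_of_degree_eq_some
          rw [hdeg, max_eq_right]
          · push_cast
            simp [two_mul]
          · have h6 : ((2 * p.natDegree : ℕ) : WithBot ℕ) ≤ ((2 * q.natDegree + 3 : ℕ) : WithBot ℕ) := by exact_mod_cast hlt.le
            push_cast at h6
            simpa [two_mul, two_nsmul] using h6
        rw [this]
        push_cast
        ring
      · have h5 := ord_add_eq Place.inf h1'.1 (g := Polynomial.aeval (xK l) q * yK l) (Or.inr (by rw [h1'.2, h4]; omega))
        rw [h2, h5.2, h1'.2]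
        have : (Algebra.norm (Polynomial Ω) r).natDegree = 2 * p.natDegree := by
          apply Polynomial.natDegree_eq_of_degree_eq_some
          rw [hdeg, max_eq_left]
          · push_cast
            simp [two_mul]
          · have h6 : ((2 * q.natDegree + 3 : ℕ) : WithBot ℕ) ≤ ((2 * p.natDegree : ℕ) : WithBot ℕ) := by exact_mod_cast hlt.le
            push_cast at h6
            simpa [two_mul, two_nsmul] using h6
        rw [this]
        push_cast
        ring

end

end EllFF
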