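import Pool.Agent.Lib.MP_8ae0c1_agF.E2

/-!
# The sum formula
-/

set_option autoImplicit false
set_option linter.unusedSectionVars false
set_option linter.unusedVariables false

namespace EllFF

open WeierstrassCurve IsDedekindDomain

noncomputable section

variable {Ω : Type*} [Field Ω] [IsAlgClosed Ω] [CharZero Ω] {l : Ω} [Leg l]

/-- The conjugation `y ↦ -y` of the function field. -/
def cjK : KL l →ₐ[Ω] KL l := liftK (xK l) (-yK l) (by rw [neg_sq, yK_sq]) xK_transc

theorem cjK_x : cjK (xK l) = xK l := liftK_x _ _ _ _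

theorem cjK_y : cjK (yK l) = -yK l := liftK_y _ _ _ _

theorem cjK_cjK (f : KL l) : cjK (cjK f) = f := by
  have h : (cjK (l := l)).comp cjK = AlgHom.id Ω (KL l) := by
    apply KL_hom_ext
    · rw [AlgHom.comp_apply, cjK_x, cjK_x, AlgHom.id_apply]
    · rw [AlgHom.comp_apply, cjK_y, map_neg, cjK_y, AlgHom.id_apply, neg_neg]
  exact congrArg (fun e : KL l →ₐ[Ω] KL l => e f) h

theorem cjK_trK (f : KL l) : trK (cjK f) = cjK (trK f) := by
  have h : (trK (l := l)).comp cjK = cjK.comp trK := by
    apply KL_hom_ext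
    · rw [AlgHom.comp_apply, AlgHom.comp_apply, cjK_x, trK_x, map_div₀, AlgHom.commutes, cjK_x]
    · rw [AlgHom.comp_apply, AlgHom.comp_apply, cjK_y, map_neg, trK_y, map_neg, map_div₀, map_mul, map_pow, AlgHom.commutes,
        cjK_x, cjK_y]
      ring
  exact congrArg (fun e : KL l →ₐ[Ω] KL l => e f) h

theorem cjK_ne {f : KL l} (hf : f ≠ 0) : cjK f ≠ 0 := fun h => hf (by rw [← cjK_cjK f, h, map_zero])

theorem cjK_alg (r : RL l) : cjK (algebraMap (RL l) (KL l) r) = algebraMap (RL l) (KL l) (conjR r) := by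
  obtain ⟨p, q, rfl⟩ := RL_repr r
  have h2 : ∀ p : Polynomial Ω, conjR (Polynomial.aeval (xR l) p) = Polynomial.aeval (xR l) p := fun p => by
    rw [← Polynomial.aeval_algHom_apply, conjR_x]
  have h3 : algebraMap (RL l) (KL l) (yR l) = yK l := rfl
  simp only [map_add, map_mul, h2, E2_alg_poly, conjR_y, map_neg, h3, cjK_y, ← Polynomial.aeval_algHom_apply, cjK_x]

/-- Order transport: if `φ` maps `O_Q` into `O_P` and `m_Q` into `m_P`, it multiplies orders by a positive constant. -/
theorem E3_transport (φ : KL l →ₐ[Ω] KL l) (P Q : Place l) (h0 : ∀ f, OrdGe Q 0 f → OrdGe P 0 (φ f))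
    (h1 : ∀ f, OrdGe Q 1 f → OrdGe P 1 (φ f)) : ∃ e : ℤ, 1 ≤ e ∧ ∀ f, ord P (φ f) = e * ord Q f := by
  obtain ⟨t, ht0, ht1⟩ := exists_unif Q
  have hφ : ∀ f : KL l, f ≠ 0 → φ f ≠ 0 := fun f hf h => hf ((map_eq_zero φ).1 h)
  have hu : ∀ u : KL l, u ≠ 0 → ord Q u = 0 → ord P (φ u) = 0 := by
    intro u hu0 hu1
    have h2 := (h0 u (Or.inr hu1.ge)).le (hφ u hu0)
    have h3 := (h0 u⁻¹ (Or.inr (by rw [ord_inv, hu1, neg_zero]))).le (hφ _ (inv_ne_zero hu0))
    rw [map_inv₀, ord_inv] at h3
    omega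
  refine ⟨ord P (φ t), (h1 t (Or.inr ht1.ge)).le (hφ t ht0), fun f => ?_⟩
  by_cases hf : f = 0
  · rw [hf, map_zero, ord_zero, ord_zero, mul_zero]
  · have hz : ∀ (R : Place l) (g : KL l) (n : ℤ), g ≠ 0 → ord R (g ^ n) = n * ord R g := by
      intro R g n hg
      cases n with
      | ofNat n => rw [Int.ofNat_eq_natCast, zpow_natCast, ord_pow]
      | negSucc n =>
        rw [zpow_negSucc, ord_inv, ord_pow, Int.negSucc_eq]
        push_cast
        ring
    have h4 : ord Q (f * t ^ (-ord Q f)) = 0 := by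
      rw [ord_mul Q hf (zpow_ne_zero _ ht0), hz Q t _ ht0, ht1]
      ring
    have h5 := hu _ (mul_ne_zero hf (zpow_ne_zero _ ht0)) h4
    rw [map_mul, map_zpow₀, ord_mul P (hφ f hf) (zpow_ne_zero _ (hφ t ht0)), hz P _ _ (hφ t ht0)] at h5
    linarith

/-- An involution which permutes two places preserves the orders. -/
theorem E3_transport_inv (φ : KL l →ₐ[Ω] KL l) (hφ : ∀ f, φ (φ f) = f) (P Q : Place l)
    (h0 : ∀ f, OrdGe Q 0 f → OrdGe P 0 (φ f)) (h1 : ∀ f, OrdGe Q 1 f → OrdGe P 1 (φ f))
    (h0' : ∀ f, OrdGe P 0 f → OrdGe Q 0 (φ f)) (h1' : ∀ f, OrdGe P 1 f → OrdGe Q 1 (φ f)) (f : KL l) :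
    ord P (φ f) = ord Q f := by
  obtain ⟨e, he, h2⟩ := E3_transport φ P Q h0 h1
  obtain ⟨e', he', h3⟩ := E3_transport φ Q P h0' h1'
  obtain ⟨t, ht0, ht1⟩ := exists_unif P
  have h4 := h2 (φ t)
  rw [hφ, h3, ht1, mul_one] at h4
  have h5 : e = 1 := by
    nlinarith
  rw [h2, h5, one_mul]

theorem E3_frac {a b : Ω} {h : b ^ 2 = a * (a - 1) * (a - l)} {f : KL l} (hf : OrdGe (Place.pt a b h) 0 f) :
    ∃ n d : RL l, evR a b h d ≠ 0 ∧ f = algebraMap (RL l) (KL l) n / algebraMap (RL l) (KL l) d := by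
  have hv : (spec a b h).valuation (KL l) f ≤ 1 := by
    rcases hf with hf | hf
    · rw [hf, map_zero]
      exact zero_le_one
    · by_cases hf0 : f = 0
      · rw [hf0, map_zero]
        exact zero_le_one
      · rw [ord, ordF_ge_iff _ hf0, neg_zero, WithZero.exp_zero] at hf
        exact hf
  obtain ⟨n, d, hnd⟩ := HeightOneSpectrum.exists_primeCompl_mul_eq_of_integer (K := KL l) (v := spec a b h) f hv
  have hd : evR a b h (d : RL l) ≠ 0 := d.2
  have hd0 : (d : RL l) ≠ 0 := fun h0 => hd (by rw [h0, map_zero])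
  have hdK := E1_algebraMap_ne hd0
  refine ⟨n, d, hd, ?_⟩
  rw [eq_div_iff hdK, ← hnd]

theorem E3_mk {a b : Ω} {h : b ^ 2 = a * (a - 1) * (a - l)} {n d : RL l} (hd : evR a b h d ≠ 0) :
    OrdGe (Place.pt a b h) 0 (algebraMap (RL l) (KL l) n / algebraMap (RL l) (KL l) d) := by
  have h1 : OrdGe (Place.pt a b h) 0 (algebraMap (RL l) (KL l) d)⁻¹ := by
    right
    rw [ord_inv, E1_ord_eq_zero a b h hd, neg_zero]
  have h2 := (E1_ordGe_RL a b h n).mul h1
  rw [add_zero] at h2
  rwa [div_eq_mul_inv]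

theorem E3_mk1 {a b : Ω} {h : b ^ 2 = a * (a - 1) * (a - l)} {n d : RL l} (hd : evR a b h d ≠ 0) :
    OrdGe (Place.pt a b h) 1 (algebraMap (RL l) (KL l) n / algebraMap (RL l) (KL l) d) ↔ evR a b h n = 0 := by
  have h1 : OrdGe (Place.pt a b h) 0 (algebraMap (RL l) (KL l) d)⁻¹ := by
    right
    rw [ord_inv, E1_ord_eq_zero a b h hd, neg_zero]
  have hd0 : (d : RL l) ≠ 0 := fun h0 => hd (by rw [h0, map_zero])
  have hdK := E1_algebraMap_ne hd0
  rw [← E1_ordGe_one_iff]
  constructor
  · intro h2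
    have h3 := h2.mul (E1_ordGe_RL a b h d)
    rwa [add_zero, div_mul_cancel₀ _ hdK] at h3
  · intro h2
    have h3 := h2.mul h1
    rwa [add_zero, ← div_eq_mul_inv] at h3

theorem E3_negpt {a b : Ω} (h : b ^ 2 = a * (a - 1) * (a - l)) : (-b) ^ 2 = a * (a - 1) * (a - l) := by rw [neg_sq, h]

theorem E3_ev_conj {a b : Ω} (h : b ^ 2 = a * (a - 1) * (a - l)) (r : RL l) :
    evR a (-b) (E3_negpt h) (conjR r) = evR a b h r := by
  obtain ⟨p, q, rfl⟩ := RL_repr r
  have h2 : ∀ p : Polynomial Ω, conjR (Polynomial.aeval (xR l) p) = Polynomial.aeval (xR l) p := fun p => by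
    rw [← Polynomial.aeval_algHom_apply, conjR_x]
  simp only [map_add, map_mul, h2, conjR_y, map_neg, ← Polynomial.aeval_algHom_apply, evR_x, evR_y, neg_neg]

theorem E3_cj_pt {a b : Ω} (h : b ^ 2 = a * (a - 1) * (a - l)) (f : KL l) :
    ord (Place.pt a (-b) (E3_negpt h)) (cjK f) = ord (Place.pt a b h) f := by
  have key : ∀ {a b : Ω} (h : b ^ 2 = a * (a - 1) * (a - l)) (f : KL l), (OrdGe (Place.pt a b h) 0 f →
      OrdGe (Place.pt a (-b) (E3_negpt h)) 0 (cjK f)) ∧ (OrdGe (Place.pt a b h) 1 f →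
      OrdGe (Place.pt a (-b) (E3_negpt h)) 1 (cjK f)) := by
    intro a b h f
    have h1 : ∀ n d : RL l, evR a b h d ≠ 0 → evR a (-b) (E3_negpt h) (conjR d) ≠ 0 := fun n d hd => by
      rw [E3_ev_conj]
      exact hd
    constructor
    · intro hf
      obtain ⟨n, d, hd, rfl⟩ := E3_frac hf
      rw [map_div₀, cjK_alg, cjK_alg]
      exact E3_mk (h1 n d hd)
    · intro hf
      obtain ⟨n, d, hd, rfl⟩ := E3_frac (hf.mono zero_le_one)
      rw [map_div₀, cjK_alg, cjK_alg, E3_mk1 (h1 n d hd), E3_ev_conj h, ← E3_mk1 hd]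
      exact hf
  have key2 : ∀ n : ℤ, ∀ f : KL l, (OrdGe (Place.pt a (- -b) (E3_negpt (E3_negpt h))) n (cjK f) ↔ OrdGe (Place.pt a b h) n (cjK f)) := by
    intro n f
    have h3 : Place.pt a (- -b) (E3_negpt (E3_negpt h)) = Place.pt a b h := by
      congr 1
      exact neg_neg b
    rw [h3]
  exact E3_transport_inv cjK cjK_cjK _ _ (fun f => (key h f).1) (fun f => (key h f).2)
    (fun f hf => (key2 0 f).1 ((key (E3_negpt h) f).1 hf)) (fun f hf => (key2 1 f).1 ((key (E3_negpt h) f).2 hf)) f

/-- The conjugation on the places. -/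
def cjP : Place l → Place l
  | .inf => .inf
  | .pt a b h => .pt a (-b) (E3_negpt h)

theorem cjP_cjP (P : Place l) : cjP (cjP P) = P := by
  cases P with
  | inf => rfl
  | pt a b h =>
    show Place.pt a (- -b) _ = Place.pt a b h
    congr 1
    exact neg_neg b

theorem ord_cj (P : Place l) (f : KL l) : ord (cjP P) (cjK f) = ord P f := by
  cases P with
  | pt a b h => exact E3_cj_pt h f
  | inf =>
    show ord Place.inf (cjK f) = ord Place.inf f
    have h1 := E3_cj_pt (l := l) (a := 0) (b := 0) (by ring) (trK f)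
    have h2 : Place.pt (0 : Ω) (-0) (E3_negpt (l := l) (by ring)) = Place.pt 0 0 (by ring) := by
      congr 1
      exact neg_zero
    rw [h2] at h1
    show ord (Place.pt 0 0 (by ring) : Place l) (trK (cjK f)) = ord (Place.pt 0 0 (by ring) : Place l) (trK f)
    rw [cjK_trK, h1]

/-! ## The sum formula -/

/-- The sum formula holds for `f`. -/
def OS (f : KL l) : Prop := (Function.support fun P : Place l => ord P f).Finite ∧ ∑ᶠ P : Place l, ord P f = 0

theorem OS_mul {f g : KL l} (hf : f ≠ 0) (hg : g ≠ 0) (h1 : OS f) (h2 : OS g) : OS (f * g) := by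
  have h3 : (fun P : Place l => ord P (f * g)) = fun P => ord P f + ord P g := funext fun P => ord_mul P hf hg
  refine ⟨?_, ?_⟩
  · rw [h3]
    exact (h1.1.union h2.1).subset (Function.support_add _ _)
  · rw [h3, finsum_add_distrib h1.1 h2.1, h1.2, h2.2, add_zero]

theorem OS_inv {f : KL l} (h1 : OS f) : OS f⁻¹ := by
  have h3 : (fun P : Place l => ord P f⁻¹) = fun P => -ord P f := funext fun P => ord_inv P f
  refine ⟨?_, ?_⟩
  · rw [h3]
    have h4 : (Function.support fun P : Place l => -ord P f) = Function.support fun P : Place l => ord P f := by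
      ext P
      simp [Function.mem_support]
    rw [h4]
    exact h1.1
  · rw [h3, finsum_neg_distrib, h1.2, neg_zero]

theorem OS_const (a : Ω) : OS (algebraMap Ω (KL l) a) := by
  have h3 : (fun P : Place l => ord P (algebraMap Ω (KL l) a)) = fun P => 0 := funext fun P => ord_const P a
  refine ⟨?_, ?_⟩
  · rw [h3]
    simp
  · rw [h3, finsum_zero]

theorem OS_xa (c : Ω) : OS (xK l - algebraMap Ω (KL l) c) := by
  classical
  obtain ⟨b, hb⟩ := IsAlgClosed.exists_pow_nat_eq (c * (c - 1) * (c - l)) (n := 2) (by norm_num)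
  have hinf : ord (Place.inf : Place l) (xK l - algebraMap Ω (KL l) c) = -2 := by
    have h1 := ord_add_eq (Place.inf : Place l) (f := xK l) (g := -algebraMap Ω (KL l) c) xK_ne_zero (by
      rw [E1_ord_x_inf]
      exact (OrdGe.const _ c).neg.mono (by norm_num))
    rw [sub_eq_add_neg, h1.2, E1_ord_x_inf]
  have hne : ∀ (a' b' : Ω) (h' : b' ^ 2 = a' * (a' - 1) * (a' - l)), ord (Place.pt a' b' h') (xK l - algebraMap Ω (KL l) c) ≠ 0 →
      a' = c ∧ (b' = b ∨ b' = -b) := by
    intro a' b' h' h1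
    have h2 : a' = c := by
      by_contra h3
      exact h1 (E1_ord_xa_ne c a' b' h' h3)
    refine ⟨h2, ?_⟩
    rw [h2, ← hb] at h'
    exact sq_eq_sq_iff_eq_or_eq_neg.1 h'
  by_cases hb0 : b = 0
  · have hsub : (Function.support fun P : Place l => ord P (xK l - algebraMap Ω (KL l) c)) ⊆
        (({Place.inf, Place.pt c b hb} : Finset (Place l)) : Set (Place l)) := by
      intro P hP
      rw [Function.mem_support] at hP
      cases P with
      | inf => simp
      | pt a' b' h' =>
        obtain ⟨h2, h3⟩ := hne a' b' h' hP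
        subst h2
        rw [hb0, neg_zero, or_self] at h3
        subst h3
        subst hb0
        simp
    refine ⟨(Finset.finite_toSet _).subset hsub, ?_⟩
    rw [finsum_eq_sum_of_support_subset _ hsub, Finset.sum_pair (by simp), hinf, (E1_ord_branch c b hb hb0).2]
    norm_num
  · have hbb : b ≠ -b := by
      intro h
      apply hb0
      have h1 : (2 : Ω) * b = 0 := by linear_combination h
      rcases mul_eq_zero.1 h1 with h2 | h2
      · exact absurd h2 two_ne_zero
      · exact h2
    have hsub : (Function.support fun P : Place l => ord P (xK l - algebraMap Ω (KL l) c)) ⊆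
        (({Place.inf, Place.pt c b hb, Place.pt c (-b) (E3_negpt hb)} : Finset (Place l)) : Set (Place l)) := by
      intro P hP
      rw [Function.mem_support] at hP
      cases P with
      | inf => simp
      | pt a' b' h' =>
        obtain ⟨h2, h3⟩ := hne a' b' h' hP
        subst h2
        rcases h3 with h3 | h3
        · subst h3
          simp
        · subst h3
          simp
    refine ⟨(Finset.finite_toSet _).subset hsub, ?_⟩
    rw [finsum_eq_sum_of_support_subset _ hsub, Finset.sum_insert (by simp), Finset.sum_pair (by simpa using hbb), hinf,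
      E1_ord_xa_one c b hb hb0, E1_ord_xa_one c (-b) _ (neg_ne_zero.2 hb0)]
    norm_num

theorem OS_poly {p : Polynomial Ω} (hp : p ≠ 0) : OS (Polynomial.aeval (xK l) p) := by
  have hs := IsAlgClosed.splits p
  have h1 := hs.eq_prod_roots
  have h2 : ∀ s : Multiset Ω, (Polynomial.aeval (xK l) ((s.map fun a => Polynomial.X - Polynomial.C a).prod) ≠ 0) ∧
      OS (Polynomial.aeval (xK l) ((s.map fun a => Polynomial.X - Polynomial.C a).prod)) := by
    intro s
    induction s using Multiset.induction_on with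
    | empty =>
      rw [Multiset.map_zero, Multiset.prod_zero, map_one]
      refine ⟨one_ne_zero, ?_⟩
      have h3 := OS_const (l := l) 1
      rwa [map_one] at h3
    | cons a s ih =>
      rw [Multiset.map_cons, Multiset.prod_cons, map_mul, map_sub, Polynomial.aeval_X, Polynomial.aeval_C]
      exact ⟨mul_ne_zero (E1_xa_ne a) ih.1, OS_mul (E1_xa_ne a) ih.1 (OS_xa a) ih.2⟩
  rw [h1, map_mul, Polynomial.aeval_C]
  refine OS_mul ?_ (h2 _).1 (OS_const _) (h2 _).2
  rw [Ne, FaithfulSMul.algebraMap_eq_zero_iff]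
  exact Polynomial.leadingCoeff_ne_zero.2 hp

theorem E3_normK (r : RL l) : Polynomial.aeval (xK l) (Algebra.norm (Polynomial Ω) r) =
    algebraMap (RL l) (KL l) r * cjK (algebraMap (RL l) (KL l) r) := by
  rw [cjK_alg, ← map_mul, ← norm_eq, E2_alg_poly]

theorem OS_RL {r : RL l} (hr : r ≠ 0) : OS (algebraMap (RL l) (KL l) r) := by
  have hrK := E1_algebraMap_ne hr
  have hN := OS_poly (l := l) (norm_ne_zero hr)
  rw [E3_normK] at hN
  have h1 : (fun P : Place l => ord P (algebraMap (RL l) (KL l) r * cjK (algebraMap (RL l) (KL l) r))) =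
      fun P => ord P (algebraMap (RL l) (KL l) r) + ord (cjP P) (algebraMap (RL l) (KL l) r) := by
    funext P
    rw [ord_mul P hrK (cjK_ne hrK)]
    congr 1
    have h2 := ord_cj (cjP P) (algebraMap (RL l) (KL l) r)
    rwa [cjP_cjP] at h2
  have hfin : (Function.support fun P : Place l => ord P (algebraMap (RL l) (KL l) r)).Finite := by
    refine (hN.1.union (Set.finite_singleton Place.inf)).subset ?_
    intro P hP
    rw [Function.mem_support] at hP
    cases P with
    | inf => right; rfl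
    | pt a b h =>
      left
      rw [Function.mem_support]
      have h2 := congrFun h1 (Place.pt a b h)
      rw [h2]
      have h3 := (E1_ordGe_RL a b h r).le hrK
      have h4 := (E1_ordGe_RL a (-b) (E3_negpt h) r).le hrK
      show ord (Place.pt a b h) (algebraMap (RL l) (KL l) r) + ord (Place.pt a (-b) (E3_negpt h)) (algebraMap (RL l) (KL l) r) ≠ 0
      omega
  let e : Place l ≃ Place l := ⟨cjP, cjP, cjP_cjP, cjP_cjP⟩
  have hfin2 : (Function.support fun P : Place l => ord (cjP P) (algebraMap (RL l) (KL l) r)).Finite := by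
    have h5 : (Function.support fun P : Place l => ord (cjP P) (algebraMap (RL l) (KL l) r)) =
        e ⁻¹' (Function.support fun P : Place l => ord P (algebraMap (RL l) (KL l) r)) := rfl
    rw [h5]
    exact hfin.preimage e.injective.injOn
  refine ⟨hfin, ?_⟩
  have h6 := hN.2
  rw [h1, finsum_add_distrib hfin hfin2] at h6
  have h7 : ∑ᶠ P : Place l, ord (cjP P) (algebraMap (RL l) (KL l) r) = ∑ᶠ P : Place l, ord P (algebraMap (RL l) (KL l) r) :=
    finsum_comp_equiv e (f := fun P => ord P (algebraMap (RL l) (KL l) r))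
  rw [h7] at h6
  omega

theorem E3_OS {f : KL l} (hf : f ≠ 0) : OS f := by
  obtain ⟨n, d, hd, rfl⟩ := IsFractionRing.div_surjective (A := RL l) f
  have hd0 : d ≠ 0 := nonZeroDivisors.ne_zero hd
  have hn0 : n ≠ 0 := by
    intro h0
    rw [h0, map_zero, zero_div] at hf
    exact hf rfl
  rw [div_eq_mul_inv]
  exact OS_mul (E1_algebraMap_ne hn0) (inv_ne_zero (E1_algebraMap_ne hd0)) (OS_RL hn0) (OS_inv (OS_RL hd0))

/-- A function without poles is constant. -/
theorem E3_const {f : KL l} (h : ∀ P, OrdGe P 0 f) : ∃ a : Ω, f = algebraMap Ω (KL l) a := by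
  obtain ⟨a, ha⟩ := E1_exists_residue Place.inf (h Place.inf)
  refine ⟨a, ?_⟩
  by_contra hne
  have hne' : f - algebraMap Ω (KL l) a ≠ 0 := sub_ne_zero.2 hne
  have h1 := E3_OS hne'
  have h2 : 0 < ∑ᶠ P : Place l, ord P (f - algebraMap Ω (KL l) a) := by
    refine finsum_pos (fun P => ?_) ⟨Place.inf, ?_⟩ h1.1
    · exact ((h P).sub (OrdGe.const P a)).le hne'
    · have := ha.le hne'
      omega
  rw [h1.2] at h2
  exact lt_irrefl _ h2

theorem E3_no_simple_pole {f : KL l} (P : Place l) (h1 : OrdGe P (-1) f) (h2 : ∀ Q, Q ≠ P → OrdGe Q 0 f) :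
    ∃ a : Ω, f = algebraMap Ω (KL l) a := by
  cases P with
  | inf =>
    obtain ⟨r, hr⟩ := E2_mem_RL h2
    obtain ⟨p, q, h3, h4⟩ := E2_repr r
    rw [← hr, h4] at h1
    obtain ⟨h5, h6⟩ := E2_inf_bound (l := l) 1 h1
    have hq : q = 0 := by
      by_contra hq
      have := h6 hq
      omega
    have hp : p.natDegree = 0 := by omega
    obtain ⟨c, hc⟩ := Polynomial.natDegree_eq_zero.1 hp
    refine ⟨c, ?_⟩
    rw [← hr, h4, hq, map_zero, zero_mul, add_zero, ← hc, Polynomial.aeval_C]
  | pt a b h =>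
    have hx := E1_xa_ne (l := l) a
    have h3 : ∀ Q : Place l, Q ≠ Place.inf → OrdGe Q 0 (f * (xK l - algebraMap Ω (KL l) a)) := by
      intro Q hQ
      have hx0 : OrdGe Q 0 (xK l - algebraMap Ω (KL l) a) := by
        cases Q with
        | inf => exact absurd rfl hQ
        | pt a' b' h' =>
          rw [E1_alg_sub]
          exact E1_ordGe_RL _ _ _ _
      by_cases hQP : Q = Place.pt a b h
      · subst hQP
        have h4 : OrdGe (Place.pt a b h) 1 (xK l - algebraMap Ω (KL l) a) := by
          rw [E1_alg_sub, E1_ordGe_one_iff, map_sub, evR_x, AlgHom.commutes]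
          exact sub_self a
        have h5 := h1.mul h4
        rwa [neg_add_cancel] at h5
      · have h5 := (h2 Q hQP).mul hx0
        rwa [add_zero] at h5
    obtain ⟨r, hr⟩ := E2_mem_RL h3
    obtain ⟨p, q, h4, h5⟩ := E2_repr r
    have h6 : OrdGe (Place.inf : Place l) (-((2 : ℕ) : ℤ)) (f * (xK l - algebraMap Ω (KL l) a)) := by
      have h7 : OrdGe (Place.inf : Place l) (-2) (xK l - algebraMap Ω (KL l) a) :=
        (OrdGe.sub (Or.inr E1_ord_x_inf.ge) ((OrdGe.const _ a).mono (by norm_num)))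
      have h8 := (h2 Place.inf (by simp)).mul h7
      rwa [zero_add] at h8
    rw [← hr, h5] at h6
    obtain ⟨h7, h8⟩ := E2_inf_bound (l := l) 2 h6
    have hq : q = 0 := by
      by_contra hq
      have := h8 hq
      omega
    have hp : p.natDegree ≤ 1 := by omega
    obtain ⟨α, β, hp2⟩ := Polynomial.exists_eq_X_add_C_of_natDegree_le_one hp
    have h9 : f * (xK l - algebraMap Ω (KL l) a) = algebraMap Ω (KL l) α * xK l + algebraMap Ω (KL l) β := by
      rw [← hr, h5, hq, map_zero, zero_mul, add_zero, hp2]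
      simp only [map_add, map_mul, Polynomial.aeval_X, Polynomial.aeval_C]
    refine ⟨α, ?_⟩
    by_contra hne
    have hγ : β + α * a ≠ 0 := by
      intro h0
      apply hne
      have h10 : (f - algebraMap Ω (KL l) α) * (xK l - algebraMap Ω (KL l) a) = 0 := by
        have h11 : algebraMap Ω (KL l) β + algebraMap Ω (KL l) α * algebraMap Ω (KL l) a = 0 := by
          rw [← map_mul, ← map_add, h0, map_zero]
        linear_combination h9 + h11
      rcases mul_eq_zero.1 h10 with h12 | h12
      · exact sub_eq_zero.1 h12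
      · exact absurd h12 hx
    have hγK : algebraMap Ω (KL l) (β + α * a) ≠ 0 := by
      rw [Ne, FaithfulSMul.algebraMap_eq_zero_iff]
      exact hγ
    have h10 : f - algebraMap Ω (KL l) α = algebraMap Ω (KL l) (β + α * a) / (xK l - algebraMap Ω (KL l) a) := by
      rw [eq_div_iff hx, map_add, map_mul]
      linear_combination h9
    have hfα : f - algebraMap Ω (KL l) α ≠ 0 := sub_ne_zero.2 hne
    have h11 : ∀ Q, ord Q (f - algebraMap Ω (KL l) α) = -ord Q (xK l - algebraMap Ω (KL l) a) := fun Q => by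
      rw [h10, ord_div Q hγK hx, ord_const, zero_sub]
    by_cases hb : b = 0
    · have h12 := (h1.sub ((OrdGe.const _ α).mono (by norm_num))).le hfα
      rw [h11, (E1_ord_branch a b h hb).2] at h12
      omega
    · have hQ : Place.pt a (-b) (E3_negpt h) ≠ Place.pt a b h := by
        intro h13
        have h14 : -b = b := by
          injection h13
        apply hb
        have h15 : (2 : Ω) * b = 0 := by linear_combination -h14
        rcases mul_eq_zero.1 h15 with h16 | h16
        · exact absurd h16 two_ne_zero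
        · exact h16
      have h12 := ((h2 _ hQ).sub (OrdGe.const _ α)).le hfα
      rw [h11, E1_ord_xa_one a (-b) _ (neg_ne_zero.2 hb)] at h12
      omega

end

end EllFF
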