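import Pool.Agent.Lib.MP_8ae0c1_agF.E3

/-!
# Riemann-Roch
-/

set_option autoImplicit false
set_option linter.unusedSectionVars false
set_option linter.unusedVariables false

namespace EllFF

open WeierstrassCurve IsDedekindDomain Classical

noncomputable section

variable {Ω : Type*} [Field Ω] [IsAlgClosed Ω] [CharZero Ω] {l : Ω} [Leg l]

theorem E4_single_support (P : Place l) (n : ℤ) : (Function.support (Pi.single P n : Place l → ℤ)).Finite :=
  (Set.finite_singleton P).subset Pi.support_single_subset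

theorem E4_single_sum (P : Place l) (n : ℤ) : ∑ᶠ Q, (Pi.single P n : Place l → ℤ) Q = n := by
  have h1 : ∀ Q, Q ≠ P → (Pi.single P n : Place l → ℤ) Q = 0 := fun Q hQ => by rw [Pi.single_eq_of_ne hQ]
  rw [finsum_eq_single _ P h1, Pi.single_eq_same]

theorem E4_neg {δ : Place l → ℤ} (hδ : (Function.support δ).Finite) (h : ∑ᶠ P, δ P < 0) : LSp δ = ⊥ := by
  rw [eq_bot_iff]
  intro f hf
  rw [Submodule.mem_bot]
  by_contra hne
  have h1 := E3_OS hne
  have h2 : ∑ᶠ P : Place l, ord P f + ∑ᶠ P, δ P = ∑ᶠ P : Place l, (ord P f + δ P) := (finsum_add_distrib h1.1 hδ).symm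
  have h3 : 0 ≤ ∑ᶠ P : Place l, (ord P f + δ P) := finsum_nonneg fun P => by
    have := (hf P).le hne
    omega
  rw [← h2, h1.2, zero_add] at h3
  omega

/-- Adding one point: the dimension grows by at most one. -/
theorem E4_step (δ : Place l → ℤ) (P : Place l) : ∃ f1 : KL l, LSp (δ + Pi.single P 1) ≤ LSp δ ⊔ Submodule.span Ω {f1} := by
  by_cases hall : LSp (δ + Pi.single P 1) ≤ LSp δ
  · exact ⟨0, hall.trans le_sup_left⟩
  · obtain ⟨f1, hf1, hf1'⟩ := SetLike.not_le_iff_exists.1 hall
    refine ⟨f1, fun f2 hf2 => ?_⟩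
    have hf10 : f1 ≠ 0 := fun h0 => hf1' (by rw [h0]; exact zero_mem _)
    have hQ : ∀ (f : KL l), f ∈ LSp (δ + Pi.single P 1) → ∀ Q, Q ≠ P → OrdGe Q (-δ Q) f := by
      intro f hf Q hQ
      have h1 := hf Q
      rwa [Pi.add_apply, Pi.single_eq_of_ne hQ, add_zero] at h1
    have hP : ∀ (f : KL l), f ∈ LSp (δ + Pi.single P 1) → OrdGe P (-δ P - 1) f := by
      intro f hf
      have h1 := hf P
      rwa [Pi.add_apply, Pi.single_eq_same, neg_add] at h1
    have hord : ord P f1 = -δ P - 1 := by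
      have h1 := (hP f1 hf1).le hf10
      have h2 : ¬ (-δ P ≤ ord P f1) := by
        intro h3
        apply hf1'
        intro Q
        by_cases hQP : Q = P
        · subst hQP
          exact Or.inr h3
        · exact hQ f1 hf1 Q hQP
      omega
    have h3 : OrdGe P 0 (f2 / f1) := by
      rw [div_eq_mul_inv]
      have h4 : OrdGe P (δ P + 1) f1⁻¹ := by
        right
        rw [ord_inv, hord]
        omega
      have h5 := (hP f2 hf2).mul h4
      rwa [show -δ P - 1 + (δ P + 1) = 0 by ring] at h5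
    obtain ⟨c, hc⟩ := E1_exists_residue P h3
    have h6 : f2 - c • f1 ∈ LSp δ := by
      intro Q
      by_cases hQP : Q = P
      · subst hQP
        have h7 : f2 - c • f1 = (f2 / f1 - algebraMap Ω (KL l) c) * f1 := by
          rw [sub_mul, div_mul_cancel₀ _ hf10, Algebra.smul_def]
        rw [h7]
        have h8 := hc.mul (hP f1 hf1)
        rwa [show 1 + (-δ Q - 1) = -δ Q by ring] at h8
      · exact (hQ f2 hf2 Q hQP).sub ((hQ f1 hf1 Q hQP).smul c)
    have h7 : f2 = (f2 - c • f1) + c • f1 := by ring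
    rw [h7]
    exact Submodule.add_mem_sup h6 (Submodule.smul_mem _ _ (Submodule.mem_span_singleton_self f1))

theorem E4_step' (δ : Place l → ℤ) (P : Place l) (hfin : FiniteDimensional Ω (LSp δ)) :
    FiniteDimensional Ω (LSp (δ + Pi.single P 1)) ∧
      Module.finrank Ω (LSp (δ + Pi.single P 1)) ≤ Module.finrank Ω (LSp δ) + 1 := by
  obtain ⟨f1, h⟩ := E4_step δ P
  have h1 : FiniteDimensional Ω (LSp δ ⊔ Submodule.span Ω {f1} : Submodule Ω (KL l)) := inferInstance
  refine ⟨Submodule.finiteDimensional_of_le h, ?_⟩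
  calc Module.finrank Ω (LSp (δ + Pi.single P 1)) ≤ Module.finrank Ω (LSp δ ⊔ Submodule.span Ω {f1} : Submodule Ω (KL l)) :=
        Submodule.finrank_mono h
    _ ≤ Module.finrank Ω (LSp δ) + Module.finrank Ω (Submodule.span Ω {f1}) := Submodule.finrank_add_le_finrank_add_finrank _ _
    _ ≤ _ := by
      have := finrank_span_le_card (R := Ω) ({f1} : Set (KL l))
      simp only [Set.toFinset_singleton, Finset.card_singleton] at this
      omega

theorem E4_mono (n : ℕ) : ∀ (δ δ' : Place l → ℤ), (Function.support δ).Finite → (Function.support δ').Finite →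
    (∀ P, δ P ≤ δ' P) → ∑ᶠ P, δ' P - ∑ᶠ P, δ P = n → FiniteDimensional Ω (LSp δ) →
    FiniteDimensional Ω (LSp δ') ∧ Module.finrank Ω (LSp δ') ≤ Module.finrank Ω (LSp δ) + n := by
  induction n with
  | zero =>
    intro δ δ' h1 h2 h3 h4 h5
    have h6 : ∑ᶠ P, (δ' P - δ P) = 0 := by
      rw [finsum_sub_distrib h2 h1, h4]
      rfl
    have h7 : δ = δ' := by
      funext P
      by_contra hne
      have h8 : 0 < ∑ᶠ P, (δ' P - δ P) := by
        refine finsum_pos (fun Q => by have := h3 Q; omega) ⟨P, by have := h3 P; omega⟩ ?_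
        exact (h2.union h1).subset (Function.support_sub _ _)
      omega
    subst h7
    exact ⟨h5, by omega⟩
  | succ n ih =>
    intro δ δ' h1 h2 h3 h4 h5
    have h6 : ∃ P, δ P < δ' P := by
      by_contra hcon
      push Not at hcon
      have h7 : δ = δ' := funext fun P => le_antisymm (h3 P) (hcon P)
      rw [h7, sub_self] at h4
      push_cast at h4
      omega
    obtain ⟨P, hP⟩ := h6
    obtain ⟨h7, h8⟩ := E4_step' δ P h5
    have h9 : (Function.support (δ + (Pi.single P 1 : Place l → ℤ))).Finite :=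
      (h1.union (E4_single_support P 1)).subset (Function.support_add _ _)
    have h10 : ∑ᶠ Q, (δ + (Pi.single P 1 : Place l → ℤ)) Q = ∑ᶠ Q, δ Q + 1 := by
      have := finsum_add_distrib h1 (E4_single_support P 1)
      rw [E4_single_sum] at this
      exact this
    have h11 := ih (δ + (Pi.single P 1 : Place l → ℤ)) δ' h9 h2 (fun Q => by
      rw [Pi.add_apply]
      by_cases hQ : Q = P
      · rw [hQ, Pi.single_eq_same]
        omega
      · rw [Pi.single_eq_of_ne hQ, add_zero]
        exact h3 Q) (by rw [h10]; push_cast at h4; omega) h7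
    exact ⟨h11.1, by omega⟩

theorem E4_const_le {δ : Place l → ℤ} (h : ∀ f ∈ LSp δ, ∃ a : Ω, f = algebraMap Ω (KL l) a) :
    FiniteDimensional Ω (LSp δ) ∧ Module.finrank Ω (LSp δ) ≤ 1 := by
  have h1 : LSp δ ≤ Submodule.span Ω {(1 : KL l)} := by
    intro f hf
    obtain ⟨a, ha⟩ := h f hf
    rw [Submodule.mem_span_singleton]
    exact ⟨a, by rw [ha, Algebra.smul_def, mul_one]⟩
  refine ⟨Submodule.finiteDimensional_of_le h1, (Submodule.finrank_mono h1).trans ?_⟩
  have := finrank_span_le_card (R := Ω) ({1} : Set (KL l))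
  simpa using this

/-- Effective divisors. -/
theorem E4_eff {δ : Place l → ℤ} (hδ : (Function.support δ).Finite) (h0 : ∀ P, 0 ≤ δ P) :
    FiniteDimensional Ω (LSp δ) ∧ (Module.finrank Ω (LSp δ) : ℤ) ≤ max 1 (∑ᶠ P, δ P) := by
  by_cases hz : ∃ P, 0 < δ P
  · obtain ⟨P, hP⟩ := hz
    have h1 := E4_const_le (δ := (Pi.single P 1 : Place l → ℤ)) (fun f hf => E3_no_simple_pole P (by
      have := hf P
      rwa [Pi.single_eq_same] at this) (fun Q hQ => by
      have := hf Q
      rwa [Pi.single_eq_of_ne hQ, neg_zero] at this))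
    have hle : ∀ Q, (Pi.single P 1 : Place l → ℤ) Q ≤ δ Q := fun Q => by
      by_cases hQ : Q = P
      · rw [hQ, Pi.single_eq_same]
        omega
      · rw [Pi.single_eq_of_ne hQ]
        exact h0 Q
    have h2 : 0 ≤ ∑ᶠ Q, δ Q - ∑ᶠ Q, (Pi.single P 1 : Place l → ℤ) Q := by
      rw [← finsum_sub_distrib hδ (E4_single_support P 1)]
      exact finsum_nonneg fun Q => by
        have := hle Q
        omega
    obtain ⟨n, hn⟩ := Int.eq_ofNat_of_zero_le h2
    obtain ⟨h3, h4⟩ := E4_mono n _ _ (E4_single_support P 1) hδ hle hn h1.1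
    refine ⟨h3, le_trans ?_ (le_max_right _ _)⟩
    rw [E4_single_sum] at hn
    have h5 := h1.2
    omega
  · push Not at hz
    have h1 : δ = 0 := funext fun P => le_antisymm (hz P) (h0 P)
    have h2 := E4_const_le (δ := δ) (fun f hf => E3_const fun P => by
      have := hf P
      rwa [h1, Pi.zero_apply, neg_zero] at this)
    refine ⟨h2.1, le_trans ?_ (le_max_left _ _)⟩
    exact_mod_cast h2.2

theorem E4_div {δ δ' : Place l → ℤ} {h : KL l} (hh : h ≠ 0) (hδ' : ∀ P, δ' P = δ P + ord P h) :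
    Nonempty (LSp δ ≃ₗ[Ω] LSp δ') := by
  have h1 : ∀ (δ δ' : Place l → ℤ) (h : KL l), h ≠ 0 → (∀ P, δ' P = δ P + ord P h) → ∀ f ∈ LSp δ, f * h⁻¹ ∈ LSp δ' := by
    intro δ δ' h hh h2 f hf P
    have h3 : OrdGe P (-ord P h) h⁻¹ := by
      right
      rw [ord_inv]
    have h4 := (hf P).mul h3
    rwa [h2 P, neg_add]
  have h2 : ∀ f ∈ LSp δ', f * h ∈ LSp δ := by
    intro f hf
    have h3 := h1 δ' δ h⁻¹ (inv_ne_zero hh) (fun P => by rw [ord_inv, hδ' P]; ring) f hf
    rwa [inv_inv] at h3
  exact ⟨{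
    toFun := fun f => ⟨f.1 * h⁻¹, h1 δ δ' h hh hδ' f.1 f.2⟩
    invFun := fun f => ⟨f.1 * h, h2 f.1 f.2⟩
    map_add' := fun f g => Subtype.ext (add_mul _ _ _)
    map_smul' := fun c f => Subtype.ext (smul_mul_assoc _ _ _)
    left_inv := fun f => Subtype.ext (by
      show f.1 * h⁻¹ * h = f.1
      rw [mul_assoc, inv_mul_cancel₀ hh, mul_one])
    right_inv := fun f => Subtype.ext (by
      show f.1 * h * h⁻¹ = f.1
      rw [mul_assoc, mul_inv_cancel₀ hh, mul_one]) }⟩

theorem E4_main {δ : Place l → ℤ} (hδ : (Function.support δ).Finite) :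
    FiniteDimensional Ω (LSp δ) ∧ (Module.finrank Ω (LSp δ) : ℤ) ≤ max 1 (∑ᶠ P, δ P) := by
  by_cases hz : LSp δ = ⊥
  · rw [hz]
    refine ⟨inferInstance, ?_⟩
    rw [finrank_bot]
    exact le_trans (by norm_num) (le_max_left _ _)
  · obtain ⟨h, hh, hh0⟩ := Submodule.exists_mem_ne_zero_of_ne_bot hz
    have hOS := E3_OS hh0
    have h1 : (Function.support fun P => δ P + ord P h).Finite := (hδ.union hOS.1).subset (Function.support_add _ _)
    obtain ⟨e⟩ := E4_div (δ := δ) (δ' := fun P => δ P + ord P h) hh0 (fun P => rfl)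
    obtain ⟨h2, h3⟩ := E4_eff h1 (fun P => by have := (hh P).le hh0; omega)
    refine ⟨e.symm.finiteDimensional, ?_⟩
    rw [e.finrank_eq]
    rwa [finsum_add_distrib hδ hOS.1, hOS.2, add_zero] at h3

/-- The lower bound at infinity. -/
theorem E4_inf (k : ℕ) (hk : 1 ≤ k) : k ≤ Module.finrank Ω (LSp (Pi.single Place.inf (k : ℤ) : Place l → ℤ)) := by
  have hfd := (E4_main (E4_single_support (Place.inf : Place l) (k : ℤ))).1
  have hmem : ∀ (p : Polynomial.degreeLT Ω (k / 2 + 1)) (q : Polynomial.degreeLT Ω ((k - 1) / 2)),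
      Polynomial.aeval (xK l) p.1 + Polynomial.aeval (xK l) q.1 * yK l ∈ LSp (Pi.single Place.inf (k : ℤ) : Place l → ℤ) := by
    intro p q P
    by_cases hP : P = Place.inf
    · subst hP
      rw [Pi.single_eq_same]
      refine OrdGe.add ?_ ?_
      · by_cases hp : p.1 = 0
        · left
          rw [hp, map_zero]
        · right
          rw [(E2_poly_inf (l := l) hp).2]
          have h1 := Polynomial.mem_degreeLT.1 p.2
          have h2 := (Polynomial.natDegree_lt_iff_degree_lt hp).2 h1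
          omega
      · by_cases hq : q.1 = 0
        · left
          rw [hq, map_zero, zero_mul]
        · right
          rw [ord_mul _ (E2_poly_inf (l := l) hq).1 E1_yK_ne, (E2_poly_inf (l := l) hq).2, E1_ord_y_inf]
          have h1 := Polynomial.mem_degreeLT.1 q.2
          have h2 := (Polynomial.natDegree_lt_iff_degree_lt hq).2 h1
          omega
    · rw [Pi.single_eq_of_ne hP, neg_zero]
      have h1 := (E2_mem_RL_iff (l := l) (algebraMap (RL l) (KL l) (Polynomial.aeval (xR l) p.1 + Polynomial.aeval (xR l) q.1 * yR l))).1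
        ⟨_, rfl⟩ P hP
      rw [map_add, map_mul, E2_alg_poly, E2_alg_poly] at h1
      exact h1
  let φ : (Polynomial.degreeLT Ω (k / 2 + 1) × Polynomial.degreeLT Ω ((k - 1) / 2)) →ₗ[Ω]
      LSp (Pi.single Place.inf (k : ℤ) : Place l → ℤ) :=
    { toFun := fun z => ⟨Polynomial.aeval (xK l) z.1.1 + Polynomial.aeval (xK l) z.2.1 * yK l, hmem z.1 z.2⟩
      map_add' := fun z w => Subtype.ext (by
        show Polynomial.aeval (xK l) (z.1.1 + w.1.1) + Polynomial.aeval (xK l) (z.2.1 + w.2.1) * yK l =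
          (Polynomial.aeval (xK l) z.1.1 + Polynomial.aeval (xK l) z.2.1 * yK l) +
            (Polynomial.aeval (xK l) w.1.1 + Polynomial.aeval (xK l) w.2.1 * yK l)
        rw [map_add, map_add]
        ring)
      map_smul' := fun c z => Subtype.ext (by
        show Polynomial.aeval (xK l) (c • z.1.1) + Polynomial.aeval (xK l) (c • z.2.1) * yK l =
          c • (Polynomial.aeval (xK l) z.1.1 + Polynomial.aeval (xK l) z.2.1 * yK l)
        rw [map_smul, map_smul, smul_add, smul_mul_assoc]) }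
  have hinj : Function.Injective φ := by
    rw [injective_iff_map_eq_zero]
    rintro ⟨p, q⟩ h
    have h1 : Polynomial.aeval (xK l) p.1 + Polynomial.aeval (xK l) q.1 * yK l = 0 := congrArg Subtype.val h
    have h2 : algebraMap (RL l) (KL l) (Polynomial.aeval (xR l) p.1 + Polynomial.aeval (xR l) q.1 * yR l) = 0 := by
      rw [map_add, map_mul, E2_alg_poly, E2_alg_poly]
      exact h1
    have h3 : Polynomial.aeval (xR l) p.1 + Polynomial.aeval (xR l) q.1 * yR l = 0 := by
      by_contra h4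
      exact E1_algebraMap_ne h4 h2
    have h4 : p.1 • (1 : RL l) + q.1 • Affine.CoordinateRing.mk (WL l) Polynomial.X = 0 := by
      rw [Algebra.smul_def, Algebra.smul_def, algebraMap_poly, algebraMap_poly, mul_one]
      exact h3
    obtain ⟨h5, h6⟩ := Affine.CoordinateRing.smul_basis_eq_zero h4
    exact Prod.ext (Subtype.ext h5) (Subtype.ext h6)
  have h1 := LinearMap.finrank_le_finrank_of_injective hinj
  have hd : ∀ n : ℕ, Module.finrank Ω (Polynomial.degreeLT Ω n) = n := fun n => by
    rw [(Polynomial.degreeLTEquiv Ω n).finrank_eq, Module.finrank_fin_fun]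
  have hfd' : ∀ n : ℕ, FiniteDimensional Ω (Polynomial.degreeLT Ω n) := fun n =>
    (Polynomial.degreeLTEquiv Ω n).symm.finiteDimensional
  have := hfd' (k / 2 + 1)
  have := hfd' ((k - 1) / 2)
  rw [Module.finrank_prod, hd, hd] at h1
  omega

end

end EllFF
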