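import Pool.Agent.Lib.MP_8ae0c1_agF.E4

/-!
# Riemann-Roch: the lower bound
-/

set_option autoImplicit false
set_option linter.unusedSectionVars false
set_option linter.unusedVariables false

namespace EllFF

open WeierstrassCurve IsDedekindDomain Classical

noncomputable section

variable {Ω : Type*} [Field Ω] [IsAlgClosed Ω] [CharZero Ω] {l : Ω} [Leg l]

/-- A function which vanishes at `P` and has only the pole `∞`. -/
def gP : Place l → KL l
  | .inf => 1
  | .pt a b h => xK l - algebraMap Ω (KL l) a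

theorem gP_ne (P : Place l) : gP P ≠ 0 := by
  cases P with
  | inf => exact one_ne_zero
  | pt a b h => exact E1_xa_ne a

theorem gP_nonneg (P Q : Place l) (hQ : Q ≠ Place.inf) : 0 ≤ ord Q (gP P) := by
  cases P with
  | inf => rw [gP, ord_one]
  | pt a b h =>
    cases Q with
    | inf => exact absurd rfl hQ
    | pt a' b' h' =>
      refine OrdGe.le ?_ (E1_xa_ne a)
      show OrdGe (Place.pt a' b' h') 0 (xK l - algebraMap Ω (KL l) a)
      rw [E1_alg_sub]
      exact E1_ordGe_RL _ _ _ _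

theorem gP_pos (Q : Place l) (hQ : Q ≠ Place.inf) : 1 ≤ ord Q (gP Q) := by
  cases Q with
  | inf => exact absurd rfl hQ
  | pt a b h =>
    refine OrdGe.le ?_ (E1_xa_ne a)
    show OrdGe (Place.pt a b h) 1 (xK l - algebraMap Ω (KL l) a)
    rw [E1_alg_sub, E1_ordGe_one_iff, map_sub, evR_x, AlgHom.commutes]
    exact sub_self a

theorem ord_prod (P : Place l) {ι : Type*} (s : Finset ι) (f : ι → KL l) (hf : ∀ i ∈ s, f i ≠ 0) :
    ord P (∏ i ∈ s, f i) = ∑ i ∈ s, ord P (f i) := by
  induction s using Finset.induction_on with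
  | empty => rw [Finset.prod_empty, Finset.sum_empty, ord_one]
  | insert a s ha ih =>
    rw [Finset.prod_insert ha, Finset.sum_insert ha, ord_mul P (hf a (Finset.mem_insert_self _ _))
      (Finset.prod_ne_zero_iff.2 fun i hi => hf i (Finset.mem_insert_of_mem hi)),
      ih fun i hi => hf i (Finset.mem_insert_of_mem hi)]

theorem E5_lower {δ : Place l → ℤ} (hδ : (Function.support δ).Finite) :
    ∑ᶠ P, δ P ≤ (Module.finrank Ω (LSp δ) : ℤ) := by
  set h : KL l := ∏ P ∈ hδ.toFinset, gP P ^ (δ P).toNat with hh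
  have hh0 : h ≠ 0 := Finset.prod_ne_zero_iff.2 fun P _ => pow_ne_zero _ (gP_ne P)
  have hord : ∀ Q : Place l, Q ≠ Place.inf → δ Q ≤ ord Q h := by
    intro Q hQ
    rw [hh, ord_prod Q _ _ (fun P _ => pow_ne_zero _ (gP_ne P))]
    have hnn : ∀ P ∈ hδ.toFinset, 0 ≤ ord Q (gP P ^ (δ P).toNat) := fun P _ => by
      rw [ord_pow]
      exact mul_nonneg (by positivity) (gP_nonneg P Q hQ)
    by_cases hQ0 : δ Q ≤ 0
    · exact hQ0.trans (Finset.sum_nonneg hnn)
    · push Not at hQ0
      have hmem : Q ∈ hδ.toFinset := by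
        rw [Set.Finite.mem_toFinset, Function.mem_support]
        omega
      refine le_trans ?_ (Finset.single_le_sum hnn hmem)
      rw [ord_pow]
      have h1 := gP_pos Q hQ
      have h2 : ((δ Q).toNat : ℤ) = δ Q := Int.toNat_of_nonneg hQ0.le
      rw [h2]
      nlinarith
  have hOS := E3_OS hh0
  set δ' : Place l → ℤ := fun P => δ P + ord P h⁻¹ with hδ'
  have hOS' := E3_OS (inv_ne_zero hh0)
  have hfin : (Function.support δ').Finite := (hδ.union hOS'.1).subset (Function.support_add _ _)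
  have hdeg : ∑ᶠ P, δ' P = ∑ᶠ P, δ P := by
    have := finsum_add_distrib hδ hOS'.1
    rw [hOS'.2, add_zero] at this
    exact this
  obtain ⟨e⟩ := E4_div (δ := δ) (δ' := δ') (inv_ne_zero hh0) (fun P => rfl)
  rw [e.finrank_eq, ← hdeg]
  obtain ⟨k, hk1, hk2⟩ : ∃ k : ℕ, 1 ≤ k ∧ δ' Place.inf ≤ k := ⟨(max 1 (δ' Place.inf)).toNat, by omega, by omega⟩
  have hle : ∀ P, δ' P ≤ (Pi.single Place.inf (k : ℤ) : Place l → ℤ) P := by
    intro P
    by_cases hP : P = Place.inf
    · rw [hP, Pi.single_eq_same]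
      exact hk2
    · rw [Pi.single_eq_of_ne hP]
      have h1 := hord P hP
      show δ P + ord P h⁻¹ ≤ 0
      rw [ord_inv]
      omega
  have h2 : 0 ≤ ∑ᶠ Q, (Pi.single Place.inf (k : ℤ) : Place l → ℤ) Q - ∑ᶠ Q, δ' Q := by
    rw [← finsum_sub_distrib (E4_single_support _ _) hfin]
    exact finsum_nonneg fun Q => by
      have := hle Q
      omega
  obtain ⟨n, hn⟩ := Int.eq_ofNat_of_zero_le h2
  obtain ⟨h3, h4⟩ := E4_mono n _ _ hfin (E4_single_support _ _) hle hn (E4_main hfin).1
  have h5 := E4_inf (l := l) k hk1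
  rw [E4_single_sum] at hn
  omega

theorem E5_eq {δ : Place l → ℤ} (hδ : (Function.support δ).Finite) (h : 0 < ∑ᶠ P, δ P) :
    (Module.finrank Ω (LSp δ) : ℤ) = ∑ᶠ P, δ P := by
  have h1 := E5_lower hδ
  have h2 := (E4_main hδ).2
  omega

end

end EllFF
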