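import Pool.Agent.Lib.MP_8ae0c1_agF.E5

/-!
# Derivations: existence and uniqueness
-/

set_option autoImplicit false
set_option linter.unusedSectionVars false
set_option linter.unusedVariables false

namespace EllFF

open WeierstrassCurve IsDedekindDomain

noncomputable section

section gen

variable {Ω : Type*} [Field Ω] {l : Ω}

/-- A dual number. -/
def E6_mk (a b : KL l) : TrivSqZeroExt (KL l) (KL l) := (a, b)

theorem E6_fst (a b : KL l) : (E6_mk a b).fst = a := rfl

theorem E6_snd (a b : KL l) : (E6_mk a b).snd = b := rfl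

/-- The dual number map on `Ω`. -/
def E6_i (E : Derivation ℤ Ω Ω) : Ω →+* TrivSqZeroExt (KL l) (KL l) where
  toFun a := E6_mk (algebraMap Ω (KL l) a) (algebraMap Ω (KL l) (E a))
  map_one' := by
    refine TrivSqZeroExt.ext ?_ ?_
    · exact map_one _
    · show algebraMap Ω (KL l) (E 1) = 0
      rw [E.map_one_eq_zero, map_zero]
  map_mul' a b := by
    refine TrivSqZeroExt.ext ?_ ?_
    · exact map_mul _ _ _
    · rw [TrivSqZeroExt.snd_mul]
      show algebraMap Ω (KL l) (E (a * b)) = algebraMap Ω (KL l) a • algebraMap Ω (KL l) (E b) +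
        MulOpposite.op (algebraMap Ω (KL l) b) • algebraMap Ω (KL l) (E a)
      rw [E.leibniz, map_add, smul_eq_mul, smul_eq_mul, map_mul, map_mul, smul_eq_mul, MulOpposite.smul_eq_mul_unop,
        MulOpposite.unop_op]
      ring
  map_zero' := by
    refine TrivSqZeroExt.ext ?_ ?_
    · exact map_zero _
    · show algebraMap Ω (KL l) (E 0) = 0
      rw [map_zero, map_zero]
  map_add' a b := by
    refine TrivSqZeroExt.ext ?_ ?_
    · exact map_add _ _ _
    · show algebraMap Ω (KL l) (E (a + b)) = algebraMap Ω (KL l) (E a) + algebraMap Ω (KL l) (E b)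
      rw [map_add, map_add]

theorem E6_exists (E : Derivation ℤ Ω Ω) (u v : KL l)
    (h : 2 * yK l * v = (3 * xK l ^ 2 - 2 * (1 + algebraMap Ω (KL l) l) * xK l + algebraMap Ω (KL l) l) * u -
      xK l * (xK l - 1) * algebraMap Ω (KL l) (E l)) :
    ∃ D : Derivation ℤ (KL l) (KL l), (∀ a : Ω, D (algebraMap Ω (KL l) a) = algebraMap Ω (KL l) (E a)) ∧
      D (xK l) = u ∧ D (yK l) = v := by
  set j : Polynomial Ω →+* TrivSqZeroExt (KL l) (KL l) := Polynomial.eval₂RingHom (E6_i E) (E6_mk (xK l) u)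
    with hj
  have hjX : j Polynomial.X = E6_mk (xK l) u := by
    rw [hj, Polynomial.coe_eval₂RingHom, Polynomial.eval₂_X]
  have hjC : ∀ a : Ω, j (Polynomial.C a) = E6_i E a := fun a => by
    rw [hj, Polynomial.coe_eval₂RingHom, Polynomial.eval₂_C]
  have hroot' : ∀ P : Polynomial (Polynomial Ω), P = Polynomial.X ^ 2 -
      Polynomial.C (Polynomial.X * (Polynomial.X - 1) * (Polynomial.X - Polynomial.C l)) → Polynomial.eval₂ j (E6_mk (yK l) v) P = 0 := by
    intro P hP
    rw [hP, Polynomial.eval₂_sub, Polynomial.eval₂_pow, Polynomial.eval₂_X, Polynomial.eval₂_C, map_mul, map_mul, map_sub,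
      map_sub, map_one, hjX, hjC, sub_eq_zero]
    refine TrivSqZeroExt.ext ?_ ?_
    · rw [TrivSqZeroExt.fst_pow, TrivSqZeroExt.fst_mul, TrivSqZeroExt.fst_mul, TrivSqZeroExt.fst_sub, TrivSqZeroExt.fst_sub,
        TrivSqZeroExt.fst_one]
      exact yK_sq
    · rw [pow_two, TrivSqZeroExt.snd_mul, TrivSqZeroExt.snd_mul, TrivSqZeroExt.snd_mul, TrivSqZeroExt.fst_mul,
        TrivSqZeroExt.fst_sub, TrivSqZeroExt.fst_sub, TrivSqZeroExt.fst_one, TrivSqZeroExt.snd_sub, TrivSqZeroExt.snd_sub,
        TrivSqZeroExt.snd_one]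
      show yK l • v + MulOpposite.op (yK l) • v = (xK l * (xK l - 1)) • (u - algebraMap Ω (KL l) (E l)) +
        MulOpposite.op (xK l - algebraMap Ω (KL l) l) • (xK l • (u - 0) + MulOpposite.op (xK l - 1) • u)
      simp only [smul_eq_mul, MulOpposite.smul_eq_mul_unop, MulOpposite.unop_op, sub_zero]
      linear_combination h
  have hroot := hroot' _ (WL_poly (l := l))
  set k : RL l →+* TrivSqZeroExt (KL l) (KL l) := AdjoinRoot.lift j (E6_mk (yK l) v) hroot with hk
  have hkof : ∀ p : Polynomial Ω, k (algebraMap (Polynomial Ω) (RL l) p) = j p := fun p => AdjoinRoot.lift_of hroot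
  have hky : k (yR l) = E6_mk (yK l) v := AdjoinRoot.lift_root hroot
  have hfst : ∀ r : RL l, (k r).fst = algebraMap (RL l) (KL l) r := by
    intro r
    have h1 : ∀ p : Polynomial Ω, (j p).fst = algebraMap (RL l) (KL l) (Polynomial.aeval (xR l) p) := by
      intro p
      have h2 : (TrivSqZeroExt.fstHom (KL l) (KL l) (KL l)).toRingHom.comp j =
          ((algebraMap (RL l) (KL l)).comp (algebraMap (Polynomial Ω) (RL l))) := by
        apply Polynomial.ringHom_ext
        · intro a
          rw [RingHom.comp_apply, hjC]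
          rfl
        · rw [RingHom.comp_apply, hjX]
          rfl
      have h3 := congrArg (fun e : Polynomial Ω →+* KL l => e p) h2
      rw [← algebraMap_poly]
      exact h3
    obtain ⟨p, q, rfl⟩ := RL_repr r
    rw [map_add, map_mul, ← algebraMap_poly, ← algebraMap_poly, hkof, hkof, hky, TrivSqZeroExt.fst_add, TrivSqZeroExt.fst_mul,
      h1, h1, map_add, map_mul, algebraMap_poly, algebraMap_poly]
    rfl
  have hunit : ∀ y : nonZeroDivisors (RL l), IsUnit (k y) := by
    intro y
    rw [TrivSqZeroExt.isUnit_iff_isUnit_fst, hfst, isUnit_iff_ne_zero, Ne, FaithfulSMul.algebraMap_eq_zero_iff]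
    exact nonZeroDivisors.ne_zero y.2
  set L : KL l →+* TrivSqZeroExt (KL l) (KL l) := IsLocalization.lift (M := nonZeroDivisors (RL l)) hunit with hL
  have hLr : ∀ r : RL l, L (algebraMap (RL l) (KL l) r) = k r := fun r => IsLocalization.lift_eq hunit r
  have hLf : ∀ f : KL l, (L f).fst = f := by
    intro f
    obtain ⟨a, b, hb, rfl⟩ := IsFractionRing.div_surjective (A := RL l) f
    have hb0 : algebraMap (RL l) (KL l) b ≠ 0 := by
      rw [Ne, FaithfulSMul.algebraMap_eq_zero_iff]
      exact nonZeroDivisors.ne_zero hb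
    rw [eq_div_iff hb0]
    have h1 : L (algebraMap (RL l) (KL l) a / algebraMap (RL l) (KL l) b) * L (algebraMap (RL l) (KL l) b) =
        L (algebraMap (RL l) (KL l) a) := by
      rw [← map_mul, div_mul_cancel₀ _ hb0]
    have h2 := congrArg TrivSqZeroExt.fst h1
    rw [TrivSqZeroExt.fst_mul, hLr, hLr, hfst, hfst] at h2
    exact h2
  refine ⟨Derivation.mk' (@LinearMap.mk ℤ ℤ _ _ (RingHom.id ℤ) (KL l) (KL l) _ _ Algebra.toModule _
    ⟨fun f => (L f).snd, fun f g => by rw [map_add, TrivSqZeroExt.snd_add]⟩ (fun n f => by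
      dsimp only
      rw [Algebra.smul_def, RingHom.id_apply, eq_intCast, map_mul, map_intCast, TrivSqZeroExt.snd_mul, TrivSqZeroExt.fst_intCast,
        TrivSqZeroExt.snd_intCast, smul_zero, add_zero, smul_eq_mul, zsmul_eq_mul])) ?_, ?_, ?_, ?_⟩
  · intro a b
    show (L (a * b)).snd = a • (L b).snd + b • (L a).snd
    rw [map_mul, TrivSqZeroExt.snd_mul, hLf, hLf]
    simp only [smul_eq_mul, MulOpposite.smul_eq_mul_unop, MulOpposite.unop_op]
    ring
  · intro a
    show (L (algebraMap Ω (KL l) a)).snd = _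
    have h1 : algebraMap Ω (KL l) a = algebraMap (RL l) (KL l) (algebraMap (Polynomial Ω) (RL l) (Polynomial.C a)) := rfl
    rw [h1, hLr, hkof, hjC]
    rfl
  · show (L (xK l)).snd = u
    have h1 : xK l = algebraMap (RL l) (KL l) (algebraMap (Polynomial Ω) (RL l) Polynomial.X) := rfl
    rw [h1, hLr, hkof, hjX]
    rfl
  · show (L (yK l)).snd = v
    have h1 : yK l = algebraMap (RL l) (KL l) (yR l) := rfl
    rw [h1, hLr, hky]
    rfl

theorem E6_ext (D D' : Derivation ℤ (KL l) (KL l)) (h : ∀ a : Ω, D (algebraMap Ω (KL l) a) = D' (algebraMap Ω (KL l) a))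
    (hx : D (xK l) = D' (xK l)) (hy : D (yK l) = D' (yK l)) : D = D' := by
  have hpoly : ∀ p : Polynomial Ω, D (Polynomial.aeval (xK l) p) = D' (Polynomial.aeval (xK l) p) := by
    intro p
    induction p using Polynomial.induction_on' with
    | add p q hp hq => rw [map_add, map_add, map_add, hp, hq]
    | monomial n a =>
      rw [Polynomial.aeval_monomial, D.leibniz, D'.leibniz, D.leibniz_pow, D'.leibniz_pow, h, hx]
  have halg : ∀ p : Polynomial Ω, algebraMap (RL l) (KL l) (Polynomial.aeval (xR l) p) = Polynomial.aeval (xK l) p := fun p =>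
    (Polynomial.aeval_algebraMap_apply (KL l) (xR l) p).symm
  have hR : ∀ r : RL l, D (algebraMap (RL l) (KL l) r) = D' (algebraMap (RL l) (KL l) r) := by
    intro r
    obtain ⟨p, q, rfl⟩ := RL_repr r
    have h3 : algebraMap (RL l) (KL l) (yR l) = yK l := rfl
    rw [map_add, map_mul, halg, halg, h3, map_add, map_add, D.leibniz, D'.leibniz, hpoly, hpoly, hy]
  refine Derivation.ext fun f => ?_
  obtain ⟨a, b, hb, rfl⟩ := IsFractionRing.div_surjective (A := RL l) f
  have hb0 : algebraMap (RL l) (KL l) b ≠ 0 := by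
    rw [Ne, FaithfulSMul.algebraMap_eq_zero_iff]
    exact nonZeroDivisors.ne_zero hb
  have h1 : ∀ D : Derivation ℤ (KL l) (KL l), algebraMap (RL l) (KL l) b * D (algebraMap (RL l) (KL l) a / algebraMap (RL l) (KL l) b) =
      D (algebraMap (RL l) (KL l) a) - algebraMap (RL l) (KL l) a / algebraMap (RL l) (KL l) b * D (algebraMap (RL l) (KL l) b) := by
    intro D
    have h2 := D.leibniz (algebraMap (RL l) (KL l) b) (algebraMap (RL l) (KL l) a / algebraMap (RL l) (KL l) b)
    rw [mul_div_cancel₀ _ hb0, smul_eq_mul, smul_eq_mul] at h2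
    rw [h2]
    ring
  have h2 := h1 D
  rw [hR, hR, ← h1 D'] at h2
  exact mul_left_cancel₀ hb0 h2

end gen

end

end EllFF
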