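import Pool.Agent.Lib.MP_8ae0c1_agF.E6

/-!
# Derivations and orders
-/

set_option autoImplicit false
set_option linter.unusedSectionVars false
set_option linter.unusedVariables false

namespace EllFF

open WeierstrassCurve IsDedekindDomain

noncomputable section

variable {Ω : Type*} [Field Ω] [IsAlgClosed Ω] [CharZero Ω] {l : Ω} [Leg l]

instance KL_charZero : CharZero (KL l) := charZero_of_injective_algebraMap (algebraMap Ω (KL l)).injective

/-- A map which is additive and satisfies the Leibniz rule. -/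
structure IsDer (D : KL l → KL l) : Prop where
  add : ∀ f g, D (f + g) = D f + D g
  mul : ∀ f g, D (f * g) = f * D g + g * D f

theorem IsDer.ofZ (D : Derivation ℤ (KL l) (KL l)) : IsDer (fun f => D f) :=
  ⟨fun f g => map_add D f g, fun f g => D.leibniz f g⟩

theorem IsDer.ofΩ (D : Derivation Ω (KL l) (KL l)) : IsDer (fun f => D f) :=
  ⟨fun f g => map_add D f g, fun f g => D.leibniz f g⟩

theorem IsDer.zero {D : KL l → KL l} (h : IsDer D) : D 0 = 0 := by
  have := h.add 0 0
  rw [add_zero] at this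
  linear_combination -this

theorem IsDer.one {D : KL l → KL l} (h : IsDer D) : D 1 = 0 := by
  have := h.mul 1 1
  rw [mul_one, one_mul] at this
  linear_combination -this

theorem IsDer.neg {D : KL l → KL l} (h : IsDer D) (f : KL l) : D (-f) = -D f := by
  have h1 := h.add f (-f)
  rw [add_neg_cancel, h.zero] at h1
  linear_combination -h1

theorem IsDer.sub {D : KL l → KL l} (h : IsDer D) (f g : KL l) : D (f - g) = D f - D g := by
  rw [sub_eq_add_neg, h.add, h.neg]
  ring

theorem IsDer.div {D : KL l → KL l} (h : IsDer D) {f g : KL l} (hg : g ≠ 0) : D (f / g) = (D f - f / g * D g) / g := by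
  have h1 := h.mul (f / g) g
  rw [div_mul_cancel₀ _ hg] at h1
  rw [eq_div_iff hg, h1]
  ring

theorem IsDer.pow {D : KL l → KL l} (h : IsDer D) (f : KL l) (n : ℕ) : D (f ^ n) = n * f ^ (n - 1) * D f := by
  induction n with
  | zero => rw [pow_zero, h.one]; simp
  | succ n ih =>
    rw [pow_succ, h.mul, ih]
    rcases Nat.eq_zero_or_pos n with h0 | h0
    · subst h0
      simp
    · rw [Nat.add_sub_cancel]
      obtain ⟨m, rfl⟩ := Nat.exists_eq_succ_of_ne_zero h0.ne'
      rw [Nat.succ_sub_one, Nat.succ_eq_add_one, pow_succ]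
      push_cast
      ring

theorem IsDer.sub' {D D' : KL l → KL l} (h : IsDer D) (h' : IsDer D') : IsDer (fun f => D f - D' f) :=
  ⟨fun f g => by simp only [h.add, h'.add]; ring, fun f g => by simp only [h.mul, h'.mul]; ring⟩

theorem IsDer.add' {D D' : KL l → KL l} (h : IsDer D) (h' : IsDer D') : IsDer (fun f => D f + D' f) :=
  ⟨fun f g => by simp only [h.add, h'.add]; ring, fun f g => by simp only [h.mul, h'.mul]; ring⟩

theorem IsDer.cmul {D : KL l → KL l} (h : IsDer D) (c : KL l) : IsDer (fun f => c * D f) :=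
  ⟨fun f g => by simp only [h.add]; ring, fun f g => by simp only [h.mul]; ring⟩

theorem IsDer.tr {D : KL l → KL l} (h : IsDer D) : IsDer (fun f => trK (D (trK f))) :=
  ⟨fun f g => by simp only [map_add, h.add], fun f g => by simp only [map_mul, h.mul, map_add, trK_trK]⟩

/-- The commutator. -/
theorem IsDer.comm {D D' : KL l → KL l} (h : IsDer D) (h' : IsDer D') : IsDer (fun f => D (D' f) - D' (D f)) :=
  ⟨fun f g => by simp only [h.add, h'.add]; ring, fun f g => by simp only [h.mul, h'.mul, h.add, h'.add]; ring⟩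

theorem IsDer.eq_zero {D : KL l → KL l} (h : IsDer D) (hc : ∀ a : Ω, D (algebraMap Ω (KL l) a) = 0) (hx : D (xK l) = 0)
    (hy : D (yK l) = 0) (f : KL l) : D f = 0 := by
  have hpoly : ∀ p : Polynomial Ω, D (Polynomial.aeval (xK l) p) = 0 := by
    intro p
    induction p using Polynomial.induction_on' with
    | add p q hp hq => rw [map_add, h.add, hp, hq, add_zero]
    | monomial n a => rw [Polynomial.aeval_monomial, h.mul, h.pow, hc, hx, mul_zero, mul_zero, mul_zero, add_zero]
  have hR : ∀ r : RL l, D (algebraMap (RL l) (KL l) r) = 0 := by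
    intro r
    obtain ⟨p, q, h1, h2⟩ := E2_repr r
    rw [h2, h.add, h.mul, hpoly, hpoly, hy, mul_zero, mul_zero, add_zero, add_zero]
  obtain ⟨a, b, hb, rfl⟩ := IsFractionRing.div_surjective (A := RL l) f
  have hb0 : algebraMap (RL l) (KL l) b ≠ 0 := by
    rw [Ne, FaithfulSMul.algebraMap_eq_zero_iff]
    exact nonZeroDivisors.ne_zero hb
  rw [h.div hb0, hR, hR, mul_zero, sub_zero, zero_div]

theorem IsDer.pres_pt {D : KL l → KL l} (h : IsDer D) (a b : Ω) (hab : b ^ 2 = a * (a - 1) * (a - l))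
    (hc : ∀ c : Ω, OrdGe (Place.pt a b hab) 0 (D (algebraMap Ω (KL l) c))) (hx : OrdGe (Place.pt a b hab) 0 (D (xK l)))
    (hy : OrdGe (Place.pt a b hab) 0 (D (yK l))) {f : KL l} (hf : OrdGe (Place.pt a b hab) 0 f) :
    OrdGe (Place.pt a b hab) 0 (D f) := by
  have hx0 : OrdGe (Place.pt a b hab) 0 (xK l) := E1_ordGe_RL a b hab (xR l)
  have hy0 : OrdGe (Place.pt a b hab) 0 (yK l) := E1_ordGe_RL a b hab (yR l)
  have hm : ∀ {u v : KL l}, OrdGe (Place.pt a b hab) 0 u → OrdGe (Place.pt a b hab) 0 v → OrdGe (Place.pt a b hab) 0 (u * v) := by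
    intro u v h1 h2
    have h3 := h1.mul h2
    rwa [add_zero] at h3
  have hpoly0 : ∀ p : Polynomial Ω, OrdGe (Place.pt a b hab) 0 (Polynomial.aeval (xK l) p) := fun p => by
    rw [← E2_alg_poly]
    exact E1_ordGe_RL a b hab _
  have hpow : ∀ n : ℕ, OrdGe (Place.pt a b hab) 0 (D (xK l ^ n)) := by
    intro n
    induction n with
    | zero =>
      rw [pow_zero, h.one]
      exact OrdGe.zero _ _
    | succ n ih =>
      rw [pow_succ, h.mul]
      have h1 : OrdGe (Place.pt a b hab) 0 (xK l ^ n) := by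
        have := hpoly0 (Polynomial.X ^ n)
        rwa [map_pow, Polynomial.aeval_X] at this
      exact (hm h1 hx).add (hm hx0 ih)
  have hpoly : ∀ p : Polynomial Ω, OrdGe (Place.pt a b hab) 0 (D (Polynomial.aeval (xK l) p)) := by
    intro p
    induction p using Polynomial.induction_on' with
    | add p q hp hq =>
      rw [map_add, h.add]
      exact hp.add hq
    | monomial n c =>
      rw [Polynomial.aeval_monomial, h.mul]
      have h1 : OrdGe (Place.pt a b hab) 0 (xK l ^ n) := by
        have := hpoly0 (Polynomial.X ^ n)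
        rwa [map_pow, Polynomial.aeval_X] at this
      exact (hm (OrdGe.const _ c) (hpow n)).add (hm h1 (hc c))
  have hR : ∀ r : RL l, OrdGe (Place.pt a b hab) 0 (D (algebraMap (RL l) (KL l) r)) := by
    intro r
    obtain ⟨p, q, h1, h2⟩ := E2_repr r
    rw [h2, h.add, h.mul]
    exact (hpoly p).add ((hm (hpoly0 q) hy).add (hm hy0 (hpoly q)))
  obtain ⟨n, d, hd, rfl⟩ := E3_frac hf
  have hd0 : (d : RL l) ≠ 0 := fun h0 => hd (by rw [h0, map_zero])
  have hdK := E1_algebraMap_ne hd0
  rw [h.div hdK, div_eq_mul_inv]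
  have h1 : OrdGe (Place.pt a b hab) 0 (algebraMap (RL l) (KL l) d)⁻¹ := by
    right
    rw [ord_inv, E1_ord_eq_zero a b hab hd, neg_zero]
  exact hm ((hR n).sub (hm hf (hR d))) h1

/-! ## The invariant derivation -/

theorem E7_exists_dd : ∃ D : Derivation Ω (KL l) (KL l), D (xK l) = 2 * yK l ∧
    D (yK l) = 3 * xK l ^ 2 - 2 * (1 + algebraMap Ω (KL l) l) * xK l + algebraMap Ω (KL l) l := by
  obtain ⟨D0, h1, h2, h3⟩ := E6_exists (l := l) 0 (2 * yK l)
    (3 * xK l ^ 2 - 2 * (1 + algebraMap Ω (KL l) l) * xK l + algebraMap Ω (KL l) l) (by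
      rw [Derivation.coe_zero, Pi.zero_apply, map_zero]
      ring)
  have hc : ∀ a : Ω, D0 (algebraMap Ω (KL l) a) = 0 := fun a => by
    rw [h1, Derivation.coe_zero, Pi.zero_apply, map_zero]
  refine ⟨Derivation.mk' {
    toFun := fun f => D0 f
    map_add' := fun f g => map_add D0 f g
    map_smul' := fun c f => by
      rw [RingHom.id_apply, Algebra.smul_def c f, D0.leibniz, hc, smul_zero, add_zero, smul_eq_mul, Algebra.smul_def c (D0 f)] }
    (fun a b => D0.leibniz a b), h2, h3⟩

/-- Values of the derivation `D` on the two generators determine its behaviour (`D` = the invariant derivation). -/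
structure IsDD (D : KL l → KL l) : Prop extends IsDer D where
  const : ∀ a : Ω, D (algebraMap Ω (KL l) a) = 0
  x : D (xK l) = 2 * yK l
  y : D (yK l) = 3 * xK l ^ 2 - 2 * (1 + algebraMap Ω (KL l) l) * xK l + algebraMap Ω (KL l) l

theorem IsDD.tr {D : KL l → KL l} (h : IsDD D) (f : KL l) : trK (D (trK f)) = D f := by
  have h1 : IsDer (fun f => trK (D (trK f)) - D f) := h.toIsDer.tr.sub' h.toIsDer
  have hx0 := xK_ne_zero (l := l)
  have hy0 := E1_yK_ne (l := l)
  have hl0 := E1_lK_ne (l := l)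
  refine sub_eq_zero.1 (h1.eq_zero (fun a => ?_) ?_ ?_ f)
  · rw [AlgHom.commutes, h.const, map_zero, sub_zero]
  · show trK (D (trK (xK l))) - D (xK l) = 0
    rw [trK_x, h.toIsDer.div hx0, h.const, h.x]
    simp only [map_div₀, map_sub, map_mul, map_zero, AlgHom.commutes, trK_x, trK_y, map_ofNat]
    field_simp
    ring
  · show trK (D (trK (yK l))) - D (yK l) = 0
    have hsq := yK_sq (l := l)
    have h2 : D (trK (yK l)) = algebraMap Ω (KL l) l - 2 * algebraMap Ω (KL l) l * (1 + algebraMap Ω (KL l) l) / xK l +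
        3 * algebraMap Ω (KL l) l ^ 2 / xK l ^ 2 := by
      rw [trK_y, h.toIsDer.neg, h.toIsDer.div (pow_ne_zero 2 hx0), h.toIsDer.mul, h.const, h.toIsDer.pow, h.x, h.y]
      field_simp
      push_cast
      linear_combination (4 * algebraMap Ω (KL l) l * xK l) * hsq
    rw [h2, h.y]
    simp only [map_div₀, map_sub, map_mul, map_add, map_pow, AlgHom.commutes, trK_x, map_ofNat, map_one]
    field_simp
    ring

theorem E7_isDD (D : Derivation Ω (KL l) (KL l)) (hx : D (xK l) = 2 * yK l)
    (hy : D (yK l) = 3 * xK l ^ 2 - 2 * (1 + algebraMap Ω (KL l) l) * xK l + algebraMap Ω (KL l) l) : IsDD (fun f => D f) where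
  toIsDer := IsDer.ofΩ D
  const := fun a => D.map_algebraMap a
  x := hx
  y := hy

theorem E7_hm {P : Place l} {u v : KL l} (h1 : OrdGe P 0 u) (h2 : OrdGe P 0 v) : OrdGe P 0 (u * v) := by
  have h3 := h1.mul h2
  rwa [add_zero] at h3

theorem E7_nat (P : Place l) (n : ℕ) : OrdGe P 0 (n : KL l) := by
  have := OrdGe.const P (n : Ω)
  rwa [map_natCast] at this

theorem E7_two (P : Place l) : OrdGe P 0 (2 : KL l) := by exact_mod_cast E7_nat P 2

theorem E7_gder (P : Place l) (hP : P ≠ Place.inf) :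
    OrdGe P 0 (3 * xK l ^ 2 - 2 * (1 + algebraMap Ω (KL l) l) * xK l + algebraMap Ω (KL l) l) := by
  refine (E2_mem_RL_iff _).1 ⟨3 * xR l ^ 2 - 2 * (1 + algebraMap Ω (RL l) l) * xR l + algebraMap Ω (RL l) l, ?_⟩ P hP
  simp only [map_add, map_sub, map_mul, map_pow, map_ofNat, map_one, ← IsScalarTower.algebraMap_apply Ω (RL l) (KL l)]
  rfl

theorem E7_ordGe_inf (n : ℤ) (f : KL l) : OrdGe (Place.inf : Place l) n f ↔ OrdGe (Place.pt 0 0 (by ring) : Place l) n (trK f) := by
  constructor
  · rintro (h | h)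
    · left
      rw [h, map_zero]
    · right
      exact h
  · rintro (h | h)
    · left
      rw [← trK_trK f, h, map_zero]
    · right
      exact h

theorem IsDD.ordGe {D : KL l → KL l} (h : IsDD D) (P : Place l) {f : KL l} (hf : OrdGe P 0 f) : OrdGe P 0 (D f) := by
  have key : ∀ (a b : Ω) (hab : b ^ 2 = a * (a - 1) * (a - l)) (f : KL l), OrdGe (Place.pt a b hab) 0 f →
      OrdGe (Place.pt a b hab) 0 (D f) := by
    intro a b hab f hf
    refine h.toIsDer.pres_pt a b hab (fun c => ?_) ?_ ?_ hf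
    · rw [h.const]
      exact OrdGe.zero _ _
    · rw [h.x]
      exact E7_hm (E7_two _) (E1_ordGe_RL a b hab (yR l))
    · rw [h.y]
      exact E7_gder _ (by simp)
  cases P with
  | pt a b hab => exact key a b hab f hf
  | inf =>
    rw [E7_ordGe_inf] at hf ⊢
    have h1 := key 0 0 (by ring) _ hf
    have h2 := h.tr (trK f)
    rw [trK_trK] at h2
    rwa [h2]

/-- A uniformiser with a unit derivative. -/
theorem IsDD.unif {D : KL l → KL l} (h : IsDD D) (P : Place l) : ∃ t : KL l, t ≠ 0 ∧ ord P t = 1 ∧ D t ≠ 0 ∧ ord P (D t) = 0 := by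
  have key : ∀ (a b : Ω) (hab : b ^ 2 = a * (a - 1) * (a - l)), ∃ t : KL l, t ≠ 0 ∧ ord (Place.pt a b hab) t = 1 ∧ D t ≠ 0 ∧
      ord (Place.pt a b hab) (D t) = 0 := by
    intro a b hab
    by_cases hb : b = 0
    · have hev : evR a b hab (3 * xR l ^ 2 - 2 * (1 + algebraMap Ω (RL l) l) * xR l + algebraMap Ω (RL l) l) ≠ 0 := by
        simp only [map_add, map_sub, map_mul, map_pow, map_ofNat, map_one, evR_x, AlgHom.commutes]
        exact gder_ne (l := l) a (by rw [← hab, hb]; ring)
      have h1 := E1_ord_eq_zero a b hab hev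
      have h2 : algebraMap (RL l) (KL l) (3 * xR l ^ 2 - 2 * (1 + algebraMap Ω (RL l) l) * xR l + algebraMap Ω (RL l) l) = D (yK l) := by
        rw [h.y]
        simp only [map_add, map_sub, map_mul, map_pow, map_ofNat, map_one, ← IsScalarTower.algebraMap_apply Ω (RL l) (KL l)]
        rfl
      have h3 : algebraMap (RL l) (KL l) (3 * xR l ^ 2 - 2 * (1 + algebraMap Ω (RL l) l) * xR l + algebraMap Ω (RL l) l) ≠ 0 :=
        E1_algebraMap_ne (fun h0 => hev (by rw [h0, map_zero]))
      rw [h2] at h1 h3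
      exact ⟨yK l, E1_yK_ne, (E1_ord_branch a b hab hb).1, h3, h1⟩
    · have h1 : D (xK l - algebraMap Ω (KL l) a) = 2 * yK l := by rw [h.toIsDer.sub, h.const, h.x, sub_zero]
      refine ⟨xK l - algebraMap Ω (KL l) a, E1_xa_ne a, E1_ord_xa_one a b hab hb, ?_, ?_⟩
      · rw [h1]
        exact mul_ne_zero two_ne_zero E1_yK_ne
      · rw [h1, ord_mul _ two_ne_zero E1_yK_ne, E1_ord_y_ne a b hab hb, add_zero]
        have := ord_const (Place.pt a b hab) (2 : Ω)
        rwa [map_ofNat] at this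
  cases P with
  | pt a b hab => exact key a b hab
  | inf =>
    obtain ⟨t, h1, h2, h3, h4⟩ := key 0 0 (by ring)
    refine ⟨trK t, trK_ne h1, ?_, ?_, ?_⟩
    · rw [ord, trK_trK]
      exact h2
    · intro h0
      have h5 := h.tr t
      rw [h0, map_zero] at h5
      exact h3 h5.symm
    · have h5 := h.tr t
      rw [ord, h5]
      exact h4

theorem E7_zpow (P : Place l) {g : KL l} (hg : g ≠ 0) (n : ℤ) : ord P (g ^ n) = n * ord P g := by
  cases n with
  | ofNat n => rw [Int.ofNat_eq_natCast, zpow_natCast, ord_pow]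
  | negSucc n =>
    rw [zpow_negSucc, ord_inv, ord_pow, Int.negSucc_eq]
    push_cast
    ring

theorem IsDer.zpow {D : KL l → KL l} (h : IsDer D) {f : KL l} (hf : f ≠ 0) (n : ℤ) : D (f ^ n) = n * f ^ (n - 1) * D f := by
  have hnat : ∀ m : ℕ, D (f ^ m) * f = m * f ^ m * D f := fun m => by
    rw [h.pow]
    rcases Nat.eq_zero_or_pos m with h0 | h0
    · subst h0
      simp
    · have h1 : f ^ m = f ^ (m - 1) * f := by
        rw [← pow_succ, Nat.sub_add_cancel h0]
      rw [h1]
      ring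
  have key : D (f ^ n) * f = n * f ^ n * D f := by
    cases n with
    | ofNat m =>
      rw [Int.ofNat_eq_natCast, zpow_natCast, hnat]
      push_cast
      ring
    | negSucc m =>
      rw [zpow_negSucc]
      have h1 := h.div (f := 1) (g := f ^ (m + 1)) (pow_ne_zero _ hf)
      rw [h.one, one_div] at h1
      rw [h1]
      have h2 := hnat (m + 1)
      have hne := pow_ne_zero (m + 1) hf
      have h3 : (0 - (f ^ (m + 1))⁻¹ * D (f ^ (m + 1))) / f ^ (m + 1) * f =
          -((f ^ (m + 1))⁻¹ * (f ^ (m + 1))⁻¹ * (D (f ^ (m + 1)) * f)) := by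
        rw [div_eq_mul_inv]
        ring
      rw [h3, h2, Int.negSucc_eq]
      push_cast
      field_simp
  have h2 : f ^ n = f ^ (n - 1) * f := by
    rw [← zpow_add_one₀ hf, sub_add_cancel]
  apply mul_right_cancel₀ hf
  rw [key, h2]
  ring

theorem IsDD.ord {D : KL l → KL l} (h : IsDD D) (P : Place l) {f : KL l} (hf : f ≠ 0) (h0 : ord P f ≠ 0) :
    D f ≠ 0 ∧ ord P (D f) = ord P f - 1 := by
  obtain ⟨t, ht0, ht1, ht2, ht3⟩ := h.unif P
  set n := EllFF.ord P f with hn
  have hn0 : (n : KL l) ≠ 0 := by exact_mod_cast h0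
  set u : KL l := f * t ^ (-n) with hu
  have hu0 : u ≠ 0 := mul_ne_zero hf (zpow_ne_zero _ ht0)
  have hu1 : EllFF.ord P u = 0 := by
    rw [hu, ord_mul P hf (zpow_ne_zero _ ht0), E7_zpow P ht0, ht1, ← hn]
    ring
  have hf' : f = t ^ n * u := by
    rw [hu, mul_comm f, ← mul_assoc, ← zpow_add₀ ht0, add_neg_cancel, zpow_zero, one_mul]
  have hD : D f = n * (t ^ (n - 1) * (D t * u)) + t ^ n * D u := by
    rw [hf', h.toIsDer.mul, h.toIsDer.zpow ht0]
    ring
  have h1 : (n : KL l) * (t ^ (n - 1) * (D t * u)) ≠ 0 := mul_ne_zero hn0 (mul_ne_zero (zpow_ne_zero _ ht0) (mul_ne_zero ht2 hu0))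
  have h2 : EllFF.ord P ((n : KL l) * (t ^ (n - 1) * (D t * u))) = n - 1 := by
    have h3 : EllFF.ord P (n : KL l) = 0 := by
      have := ord_const P (n : Ω)
      rwa [map_intCast] at this
    rw [ord_mul P hn0 (mul_ne_zero (zpow_ne_zero _ ht0) (mul_ne_zero ht2 hu0)), h3, ord_mul P (zpow_ne_zero _ ht0) (mul_ne_zero ht2 hu0),
      ord_mul P ht2 hu0, E7_zpow P ht0, ht1, ht3, hu1]
    ring
  have h3 : OrdGe P (EllFF.ord P ((n : KL l) * (t ^ (n - 1) * (D t * u))) + 1) (t ^ n * D u) := by
    rw [h2, sub_add_cancel]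
    have h4 : OrdGe P n (t ^ n) := by
      right
      rw [E7_zpow P ht0, ht1, mul_one]
    have h5 := h4.mul (h.ordGe P (Or.inr hu1.ge : OrdGe P 0 u))
    rwa [add_zero] at h5
  have h4 := ord_add_eq P h1 h3
  rw [hD]
  exact ⟨h4.1, by rw [h4.2, h2]⟩

theorem IsDD.ordGe' {D : KL l → KL l} (h : IsDD D) (P : Place l) {n : ℤ} {f : KL l} (hf : OrdGe P n f) : OrdGe P (n - 1) (D f) := by
  by_cases hf0 : f = 0
  · left
    rw [hf0, h.toIsDer.zero]
  · have h1 := hf.le hf0
    by_cases h0 : EllFF.ord P f = 0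
    · exact (h.ordGe P (Or.inr h0.ge)).mono (by omega)
    · right
      rw [(h.ord P hf0 h0).2]
      omega

theorem IsDD.eq_zero {D : KL l → KL l} (h : IsDD D) {f : KL l} (hf : D f = 0) : ∃ a : Ω, f = algebraMap Ω (KL l) a := by
  apply E3_const
  intro P
  by_cases hf0 : f = 0
  · left
    exact hf0
  · right
    by_contra hlt
    exact (h.ord P hf0 (by omega)).1 hf

end

end EllFF
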