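import Pool.Agent.Lib.MP_8ae0c1_agF.E7

/-!
# Extensions of derivations of `Ω`
-/

set_option autoImplicit false
set_option linter.unusedSectionVars false
set_option linter.unusedVariables false

namespace EllFF

open WeierstrassCurve IsDedekindDomain

noncomputable section

variable {Ω : Type*} [Field Ω] [IsAlgClosed Ω] [CharZero Ω] {l : Ω} [Leg l]

theorem E8_exists (E : Derivation ℤ Ω Ω) : ∃ D : Derivation ℤ (KL l) (KL l),
    (∀ a : Ω, D (algebraMap Ω (KL l) a) = algebraMap Ω (KL l) (E a)) ∧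
    D (xK l) = 0 ∧ 2 * yK l * D (yK l) = -(xK l * (xK l - 1) * algebraMap Ω (KL l) (E l)) := by
  have hy := E1_yK_ne (l := l)
  have h2 : 2 * yK l * (-(xK l * (xK l - 1) * algebraMap Ω (KL l) (E l)) / (2 * yK l)) =
      -(xK l * (xK l - 1) * algebraMap Ω (KL l) (E l)) := mul_div_cancel₀ _ (mul_ne_zero two_ne_zero hy)
  obtain ⟨D, h1, h3, h4⟩ := E6_exists (l := l) E 0 (-(xK l * (xK l - 1) * algebraMap Ω (KL l) (E l)) / (2 * yK l)) (by
    rw [h2]
    ring)
  exact ⟨D, h1, h3, by rw [h4, h2]⟩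

/-- The map `D` extends the map `E` of `Ω`. -/
structure IsExt (E : Ω → Ω) (D : KL l → KL l) : Prop extends IsDer D where
  const : ∀ a : Ω, D (algebraMap Ω (KL l) a) = algebraMap Ω (KL l) (E a)
  x : D (xK l) = 0
  y : 2 * yK l * D (yK l) = -(xK l * (xK l - 1) * algebraMap Ω (KL l) (E l))

theorem IsExt.y0 {E : Ω → Ω} {D : KL l → KL l} (h : IsExt E D) (hE : E l = 0) : D (yK l) = 0 := by
  have h1 := h.y
  rw [hE, map_zero, mul_zero, neg_zero] at h1
  exact (mul_eq_zero.1 h1).resolve_left (mul_ne_zero two_ne_zero E1_yK_ne)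

theorem IsExt.y' {E : Ω → Ω} {D : KL l → KL l} (h : IsExt E D) :
    D (yK l) = -(xK l * (xK l - 1) * algebraMap Ω (KL l) (E l)) / (2 * yK l) := by
  rw [eq_div_iff (mul_ne_zero two_ne_zero E1_yK_ne), ← h.y]
  ring

theorem IsExt.comm {E : Ω → Ω} {D D' : KL l → KL l} (h : IsExt E D) (hE : E l = 0) (h' : IsDD D') (f : KL l) :
    D (D' f) = D' (D f) := by
  have hz := h.toIsDer.zero
  have hy := h.y0 hE
  refine sub_eq_zero.1 ((h.toIsDer.comm h'.toIsDer).eq_zero (fun a => ?_) ?_ ?_ f)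
  · show D (D' (algebraMap Ω (KL l) a)) - D' (D (algebraMap Ω (KL l) a)) = 0
    rw [h'.const, h.const, h'.const, hz, sub_zero]
  · show D (D' (xK l)) - D' (D (xK l)) = 0
    have h2 : D (2 : KL l) = 0 := by
      have h3 : (2 : KL l) = 1 + 1 := by norm_num
      rw [h3, h.toIsDer.add, h.toIsDer.one, add_zero]
    rw [h'.x, h.x, h'.toIsDer.zero, h.toIsDer.mul, hy, h2, mul_zero, mul_zero, add_zero, sub_zero]
  · show D (D' (yK l)) - D' (D (yK l)) = 0
    have hn : ∀ n : ℕ, D (n : KL l) = 0 := by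
      intro n
      induction n with
      | zero => rw [Nat.cast_zero, hz]
      | succ n ih => rw [Nat.cast_succ, h.toIsDer.add, ih, h.toIsDer.one, add_zero]
    have h3 : D (3 : KL l) = 0 := by exact_mod_cast hn 3
    have h2 : D (2 : KL l) = 0 := by exact_mod_cast hn 2
    have hlz : D (algebraMap Ω (KL l) l) = 0 := by rw [h.const, hE, map_zero]
    rw [h'.y, hy, h'.toIsDer.zero, h.toIsDer.add, h.toIsDer.sub, h.toIsDer.mul, h.toIsDer.mul, h.toIsDer.mul, h.toIsDer.pow, h.toIsDer.add,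
      h.x, hlz, h3, h2, h.toIsDer.one]
    ring

theorem IsExt.tr {E : Ω → Ω} {D : KL l → KL l} (h : IsExt E D) (hE : E l = 0) (f : KL l) : trK (D (trK f)) = D f := by
  have hz := h.toIsDer.zero
  have hy := h.y0 hE
  have hlz : D (algebraMap Ω (KL l) l) = 0 := by rw [h.const, hE, map_zero]
  have hx0 := xK_ne_zero (l := l)
  refine sub_eq_zero.1 ((h.toIsDer.tr.sub' h.toIsDer).eq_zero (fun a => ?_) ?_ ?_ f)
  · rw [AlgHom.commutes, h.const, AlgHom.commutes, sub_self]
  · show trK (D (trK (xK l))) - D (xK l) = 0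
    rw [trK_x, h.toIsDer.div hx0, hlz, h.x]
    simp
  · show trK (D (trK (yK l))) - D (yK l) = 0
    rw [trK_y, h.toIsDer.neg, h.toIsDer.div (pow_ne_zero 2 hx0), h.toIsDer.mul, hlz, hy, h.toIsDer.pow, h.x]
    simp

theorem E8_ordGe_lK (P : Place l) (a : Ω) : OrdGe P 0 (algebraMap Ω (KL l) a) := OrdGe.const P a

theorem IsExt.ordGe_pt {E : Ω → Ω} {D : KL l → KL l} (h : IsExt E D) (a b : Ω) (hab : b ^ 2 = a * (a - 1) * (a - l))
    (hal : a = l → E l = 0) {f : KL l} (hf : OrdGe (Place.pt a b hab) 0 f) : OrdGe (Place.pt a b hab) 0 (D f) := by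
  refine h.toIsDer.pres_pt a b hab (fun c => ?_) ?_ ?_ hf
  · rw [h.const]
    exact OrdGe.const _ _
  · rw [h.x]
    exact OrdGe.zero _ _
  · by_cases hE : E l = 0
    · rw [h.y0 hE]
      exact OrdGe.zero _ _
    · have hal' : a ≠ l := fun h0 => hE (hal h0)
      have hx0 : OrdGe (Place.pt a b hab) 0 (xK l) := E1_ordGe_RL a b hab (xR l)
      have hx1 : OrdGe (Place.pt a b hab) 0 (xK l - 1) := by
        have := E1_ordGe_RL a b hab (xR l - 1)
        rwa [map_sub, map_one] at this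
      have hh : OrdGe (Place.pt a b hab) 0 (algebraMap Ω (KL l) (-(E l) / 2)) := OrdGe.const _ _
      have h2 : D (yK l) = algebraMap Ω (KL l) (-(E l) / 2) * (xK l * (xK l - 1) * (yK l)⁻¹) := by
        rw [h.y', map_div₀, map_neg, map_ofNat]
        have hy := E1_yK_ne (l := l)
        field_simp
      rw [h2]
      refine E7_hm hh ?_
      by_cases hb : b = 0
      · have hyo := (E1_ord_branch a b hab hb).1
        have hyi : OrdGe (Place.pt a b hab) (-1) (yK l)⁻¹ := by
          right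
          rw [ord_inv, hyo]
        have h0 : a * (a - 1) = 0 := by
          rw [hb] at hab
          have h3 : a * (a - 1) * (a - l) = 0 := by rw [← hab]; ring
          exact (mul_eq_zero.1 h3).resolve_right (sub_ne_zero.2 hal')
        have hxx : OrdGe (Place.pt a b hab) 1 (xK l * (xK l - 1)) := by
          have h4 : xK l * (xK l - 1) = algebraMap (RL l) (KL l) (xR l * (xR l - 1)) := by
            rw [map_mul, map_sub, map_one]
            rfl
          rw [h4, E1_ordGe_one_iff, map_mul, map_sub, map_one, evR_x]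
          exact h0
        have h5 := hxx.mul hyi
        rwa [add_neg_cancel] at h5
      · have hyi : OrdGe (Place.pt a b hab) 0 (yK l)⁻¹ := by
          right
          rw [ord_inv, E1_ord_y_ne a b hab hb, neg_zero]
        exact E7_hm (E7_hm hx0 hx1) hyi

theorem IsExt.ordGe_inf {E : Ω → Ω} {D : KL l → KL l} (h : IsExt E D) {f : KL l} (hf : OrdGe Place.inf 0 f) :
    OrdGe Place.inf 0 (D f) := by
  have hx0 := xK_ne_zero (l := l)
  have hy0 := E1_yK_ne (l := l)
  have hl0 := E1_lK_ne (l := l)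
  rw [E7_ordGe_inf] at hf ⊢
  have hmain : ∀ g : KL l, OrdGe (Place.pt 0 0 (by ring) : Place l) 0 g →
      OrdGe (Place.pt 0 0 (by ring) : Place l) 0 (trK (D (trK g))) := by
    intro g hg
    have hx' : trK (D (trK (xK l))) = algebraMap Ω (KL l) (E l / l) * xK l := by
      rw [trK_x, h.toIsDer.div hx0, h.const, h.x, mul_zero, sub_zero, map_div₀, AlgHom.commutes, trK_x, map_div₀]
      field_simp
    have hy' : trK (D (trK (yK l))) = algebraMap Ω (KL l) (E l / l) * yK l +
        algebraMap Ω (KL l) (E l / (2 * l)) * ((xK l - algebraMap Ω (KL l) l) * (xK l ^ 2 * (yK l)⁻¹)) := by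
      rw [trK_y, h.toIsDer.neg, h.toIsDer.div (pow_ne_zero 2 hx0), h.toIsDer.mul, h.const, h.toIsDer.pow, h.x, h.y']
      simp only [map_div₀, map_sub, map_mul, map_add, map_neg, map_pow, AlgHom.commutes, trK_x, trK_y, map_ofNat, map_one,
        mul_zero, sub_zero]
      field_simp
      ring
    refine h.toIsDer.tr.pres_pt 0 0 (by ring) (fun c => ?_) ?_ ?_ hg
    · show OrdGe _ 0 (trK (D (trK (algebraMap Ω (KL l) c))))
      rw [AlgHom.commutes, h.const, AlgHom.commutes]
      exact OrdGe.const _ _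
    · show OrdGe _ 0 (trK (D (trK (xK l))))
      rw [hx']
      exact E7_hm (OrdGe.const _ _) (E1_ordGe_RL _ _ _ (xR l))
    · show OrdGe _ 0 (trK (D (trK (yK l))))
      rw [hy']
      refine (E7_hm (OrdGe.const _ _) (E1_ordGe_RL _ _ _ (yR l))).add (E7_hm (OrdGe.const _ _) (E7_hm ?_ ?_))
      · rw [E1_alg_sub]
        exact E1_ordGe_RL _ _ _ _
      · right
        rw [ord_mul _ (pow_ne_zero 2 hx0) (inv_ne_zero hy0), ord_inv, ord_pow, E1_x00, E1_y00]
        norm_num
  have h1 := hmain _ hf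
  rwa [trK_trK] at h1

theorem IsExt.ordGe {E : Ω → Ω} {D : KL l → KL l} (h : IsExt E D) (hE : E l = 0) (P : Place l) {f : KL l} (hf : OrdGe P 0 f) :
    OrdGe P 0 (D f) := by
  cases P with
  | pt a b hab => exact h.ordGe_pt a b hab (fun _ => hE) hf
  | inf => exact h.ordGe_inf hf

theorem IsExt.ordGe' {E : Ω → Ω} {D : KL l → KL l} (h : IsExt E D) (P : Place l) (hP : P ≠ Place.pt l 0 (by ring)) {f : KL l}
    (hf : OrdGe P 0 f) : OrdGe P 0 (D f) := by
  cases P with
  | pt a b hab =>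
    refine h.ordGe_pt a b hab (fun h0 => ?_) hf
    exfalso
    apply hP
    subst h0
    have hb : b = 0 := by
      rw [sub_self, mul_zero] at hab
      exact pow_eq_zero_iff (two_ne_zero) |>.1 hab
    subst hb
    rfl
  | inf => exact h.ordGe_inf hf

/-- The correction term. -/
def theta0 (l : Ω) : KL l := xK l * (xK l - 1) /
  (2 * yK l * (3 * xK l ^ 2 - 2 * (1 + algebraMap Ω (KL l) l) * xK l + algebraMap Ω (KL l) l))

theorem E8_gder_ord (a b : Ω) (hab : b ^ 2 = a * (a - 1) * (a - l)) (hb : b = 0) :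
    (3 * xK l ^ 2 - 2 * (1 + algebraMap Ω (KL l) l) * xK l + algebraMap Ω (KL l) l : KL l) ≠ 0 ∧
    ord (Place.pt a b hab) (3 * xK l ^ 2 - 2 * (1 + algebraMap Ω (KL l) l) * xK l + algebraMap Ω (KL l) l) = 0 := by
  have hev : evR a b hab (3 * xR l ^ 2 - 2 * (1 + algebraMap Ω (RL l) l) * xR l + algebraMap Ω (RL l) l) ≠ 0 := by
    simp only [map_add, map_sub, map_mul, map_pow, map_ofNat, map_one, evR_x, AlgHom.commutes]
    exact gder_ne (l := l) a (by rw [← hab, hb]; ring)
  have h1 := E1_ord_eq_zero a b hab hev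
  have h3 : algebraMap (RL l) (KL l) (3 * xR l ^ 2 - 2 * (1 + algebraMap Ω (RL l) l) * xR l + algebraMap Ω (RL l) l) ≠ 0 :=
    E1_algebraMap_ne (fun h0 => hev (by rw [h0, map_zero]))
  have h2 : algebraMap (RL l) (KL l) (3 * xR l ^ 2 - 2 * (1 + algebraMap Ω (RL l) l) * xR l + algebraMap Ω (RL l) l) =
      (3 * xK l ^ 2 - 2 * (1 + algebraMap Ω (KL l) l) * xK l + algebraMap Ω (KL l) l : KL l) := by
    simp only [map_add, map_sub, map_mul, map_pow, map_ofNat, map_one, ← IsScalarTower.algebraMap_apply Ω (RL l) (KL l)]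
    rfl
  rw [h2] at h1 h3
  exact ⟨h3, h1⟩

theorem E8_xx (l : Ω) [Leg l] : xK l * (xK l - 1) ≠ 0 ∧ ord (Place.pt l 0 (by ring)) (xK l * (xK l - 1)) = 0 := by
  have hev : evR l 0 (by ring) (xR l * (xR l - 1)) ≠ 0 := by
    rw [map_mul, map_sub, map_one, evR_x]
    exact mul_ne_zero Leg.ne0 (sub_ne_zero.2 Leg.ne1)
  have h1 := E1_ord_eq_zero l 0 (by ring) hev
  have h3 : algebraMap (RL l) (KL l) (xR l * (xR l - 1)) ≠ 0 := E1_algebraMap_ne (fun h0 => hev (by rw [h0, map_zero]))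
  have h2 : algebraMap (RL l) (KL l) (xR l * (xR l - 1)) = xK l * (xK l - 1) := by
    rw [map_mul, map_sub, map_one]
    rfl
  rw [h2] at h1 h3
  exact ⟨h3, h1⟩

theorem theta0_ord : theta0 l ≠ 0 ∧ ord (Place.pt l 0 (by ring)) (theta0 l) = -1 := by
  obtain ⟨h1, h2⟩ := E8_gder_ord (l := l) l 0 (by ring) rfl
  obtain ⟨h3, h4⟩ := E8_xx l
  have hy := E1_yK_ne (l := l)
  have h5 : (2 : KL l) * yK l ≠ 0 := mul_ne_zero two_ne_zero hy
  have h6 : ord (Place.pt l 0 (by ring)) ((2 : KL l) * yK l) = 1 := by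
    rw [ord_mul _ two_ne_zero hy, (E1_ord_branch l 0 (by ring) rfl).1]
    have := ord_const (Place.pt l 0 (by ring) : Place l) (2 : Ω)
    rw [map_ofNat] at this
    rw [this]
    norm_num
  refine ⟨div_ne_zero h3 (mul_ne_zero h5 h1), ?_⟩
  rw [theta0, ord_div _ h3 (mul_ne_zero h5 h1), h4, ord_mul _ h5 h1, h6, h2]
  norm_num

theorem IsExt.theta {E : Ω → Ω} {D D' : KL l → KL l} (h : IsExt E D) (h' : IsDD D') {f : KL l}
    (hf : OrdGe (Place.pt l 0 (by ring)) 0 f) :
    OrdGe (Place.pt l 0 (by ring)) 0 (D f + algebraMap Ω (KL l) (E l) * theta0 l * D' f) := by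
  obtain ⟨h1, h2⟩ := E8_gder_ord (l := l) l 0 (by ring) rfl
  obtain ⟨h3, h4⟩ := E8_xx l
  have hy := E1_yK_ne (l := l)
  refine (h.toIsDer.add' (h'.toIsDer.cmul (algebraMap Ω (KL l) (E l) * theta0 l))).pres_pt l 0 (by ring) (fun c => ?_) ?_ ?_ hf
  · show OrdGe _ 0 (D (algebraMap Ω (KL l) c) + algebraMap Ω (KL l) (E l) * theta0 l * D' (algebraMap Ω (KL l) c))
    have h5 : D (algebraMap Ω (KL l) c) + algebraMap Ω (KL l) (E l) * theta0 l * D' (algebraMap Ω (KL l) c) =
        algebraMap Ω (KL l) (E c) := by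
      rw [h.const, h'.const, mul_zero, add_zero]
    rw [h5]
    exact OrdGe.const _ _
  · show OrdGe _ 0 (D (xK l) + algebraMap Ω (KL l) (E l) * theta0 l * D' (xK l))
    have h5 : D (xK l) + algebraMap Ω (KL l) (E l) * theta0 l * D' (xK l) = algebraMap Ω (KL l) (E l) *
        (xK l * (xK l - 1) * (3 * xK l ^ 2 - 2 * (1 + algebraMap Ω (KL l) l) * xK l + algebraMap Ω (KL l) l)⁻¹) := by
      rw [h.x, h'.x, theta0]
      field_simp
      ring
    rw [h5]
    refine E7_hm (OrdGe.const _ _) (E7_hm (Or.inr h4.ge) ?_)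
    right
    rw [ord_inv, h2, neg_zero]
  · show OrdGe _ 0 (D (yK l) + algebraMap Ω (KL l) (E l) * theta0 l * D' (yK l))
    have h5 : D (yK l) + algebraMap Ω (KL l) (E l) * theta0 l * D' (yK l) = 0 := by
      rw [h.y', h'.y, theta0]
      have h6 : ∀ e X Y G : KL l, Y ≠ 0 → G ≠ 0 → -(X * (X - 1) * e) / (2 * Y) + e * (X * (X - 1) / (2 * Y * G)) * G = 0 := by
        intro e X Y G hY hG
        field_simp
        ring
      exact h6 _ _ _ _ hy h1
    rw [h5]
    exact OrdGe.zero _ _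

theorem IsExt.unique {E E' E'' : Ω → Ω} {D D' D'' : KL l → KL l} (h : IsExt E D) (h' : IsExt E' D') (h'' : IsExt E'' D'')
    (c : Ω) (hE : ∀ a, E a = E' a + c * E'' a) (f : KL l) : D f = D' f + algebraMap Ω (KL l) c * D'' f := by
  have hd : IsDer (fun f => D f - (D' f + algebraMap Ω (KL l) c * D'' f)) :=
    h.toIsDer.sub' (h'.toIsDer.add' (h''.toIsDer.cmul _))
  refine sub_eq_zero.1 (hd.eq_zero (fun a => ?_) ?_ ?_ f)
  · rw [h.const, h'.const, h''.const, hE, map_add, map_mul, sub_self]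
  · rw [h.x, h'.x, h''.x, mul_zero, add_zero, sub_zero]
  · rw [h.y', h'.y', h''.y', hE, map_add, map_mul]
    have hy := E1_yK_ne (l := l)
    field_simp
    ring

end

end EllFF
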