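import Pool.Agent.Lib.MP_8ae0c1_agF.E8

/-!
# Valuation rings and integrality
-/

set_option autoImplicit false
set_option linter.unusedSectionVars false
set_option linter.unusedVariables false

namespace EllFF

open WeierstrassCurve IsDedekindDomain

noncomputable section

variable {Ω : Type*} [Field Ω] [IsAlgClosed Ω] [CharZero Ω] {l : Ω} [Leg l]

theorem E9_const_of_algebraic {f : KL l} (h : IsAlgebraic Ω f) : ∃ a : Ω, f = algebraMap Ω (KL l) a := by
  have h1 : IsIntegral Ω f := h.isIntegral
  have h2 := IsAlgClosed.degree_eq_one_of_irreducible Ω (minpoly.irreducible h1)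
  obtain ⟨a, ha⟩ := minpoly.mem_range_of_degree_eq_one Ω f h2
  exact ⟨a, ha.symm⟩

theorem E9_inv_ge {P : Place l} {f : KL l} (hf : f ≠ 0) (h : ord P f < 0) : OrdGe P 1 f⁻¹ := by
  right
  rw [ord_inv]
  omega

/-- The case `x ∈ V`. -/
theorem E9_fin (V : ValuationSubring (KL l)) (hΩ : ∀ a : Ω, algebraMap Ω (KL l) a ∈ V) (hV : V ≠ ⊤) (hx : xK l ∈ V) :
    ∃ (a b : Ω) (h : b ^ 2 = a * (a - 1) * (a - l)), (∀ f, f ∈ V ↔ OrdGe (Place.pt a b h) 0 f) ∧
      ∀ r : RL l, (algebraMap (RL l) (KL l) r)⁻¹ ∉ V ∨ r = 0 ↔ evR a b h r = 0 := by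
  have hy : yK l ∈ V := by
    rcases V.mem_or_inv_mem (yK l) with h | h
    · exact h
    · have h1 : yK l ^ 2 ∈ V := by
        rw [yK_sq]
        exact mul_mem (mul_mem hx (sub_mem hx (one_mem V))) (sub_mem hx (hΩ l))
      have h2 : yK l = yK l ^ 2 * (yK l)⁻¹ := by
        have := E1_yK_ne (l := l)
        field_simp
      rw [h2]
      exact mul_mem h1 h
  have hR : ∀ r : RL l, algebraMap (RL l) (KL l) r ∈ V := by
    intro r
    obtain ⟨p, q, h1, h2⟩ := E2_repr r
    have h3 : ∀ p : Polynomial Ω, Polynomial.aeval (xK l) p ∈ V := by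
      intro p
      induction p using Polynomial.induction_on' with
      | add p q hp hq =>
        rw [map_add]
        exact add_mem hp hq
      | monomial n a =>
        rw [Polynomial.aeval_monomial]
        exact mul_mem (hΩ a) (pow_mem hx n)
    rw [h2]
    exact add_mem (h3 p) (mul_mem (h3 q) hy)
  let φ : RL l →+* V := (algebraMap (RL l) (KL l)).codRestrict V.toSubring hR
  have hφ : ∀ r, ((φ r : V) : KL l) = algebraMap (RL l) (KL l) r := fun r => rfl
  set 𝔭 : Ideal (RL l) := (IsLocalRing.maximalIdeal V).comap φ with h𝔭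
  have hprime : 𝔭.IsPrime := Ideal.comap_isPrime φ _
  have hmem : ∀ r : RL l, r ∈ 𝔭 ↔ ((algebraMap (RL l) (KL l) r)⁻¹ ∉ V ∨ r = 0) := by
    intro r
    rw [h𝔭, Ideal.mem_comap, IsLocalRing.mem_maximalIdeal, mem_nonunits_iff]
    by_cases hr : r = 0
    · simp [hr]
    · have hrK := E1_algebraMap_ne hr
      constructor
      · intro h1
        left
        intro h2
        apply h1
        exact IsUnit.of_mul_eq_one ⟨(algebraMap (RL l) (KL l) r)⁻¹, h2⟩ (Subtype.ext (mul_inv_cancel₀ hrK))
      · rintro (h1 | h1)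
        · intro h2
          apply h1
          obtain ⟨u, hu⟩ := h2
          have h3 : algebraMap (RL l) (KL l) r * ((↑u⁻¹ : V) : KL l) = 1 := by
            rw [← hφ, ← hu]
            have h4 : (↑u : V) * ↑u⁻¹ = 1 := Units.mul_inv u
            exact congrArg (fun z : V => (z : KL l)) h4
          rw [inv_eq_of_mul_eq_one_right h3]
          exact (↑u⁻¹ : V).2
        · exact absurd h1 hr
  have hne : 𝔭 ≠ ⊥ := by
    intro h0
    apply hV
    rw [eq_top_iff]
    intro f _
    obtain ⟨n, d, hd, rfl⟩ := IsFractionRing.div_surjective (A := RL l) f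
    have hd0 : d ≠ 0 := nonZeroDivisors.ne_zero hd
    have h1 : d ∉ 𝔭 := by
      rw [h0, Ideal.mem_bot]
      exact hd0
    rw [hmem] at h1
    push Not at h1
    rw [div_eq_mul_inv]
    exact mul_mem (hR n) h1.1
  have hmax : 𝔭.IsMaximal := Ring.DimensionLEOne.maximalOfPrime hne hprime
  obtain ⟨a, b, h, hP⟩ := exists_point 𝔭
  have hev : ∀ r : RL l, r ∈ 𝔭 ↔ evR a b h r = 0 := fun r => by
    rw [hP, RingHom.mem_ker]
  refine ⟨a, b, h, ?_, fun r => by rw [← hmem, hev]⟩
  have hto : ∀ n d : RL l, evR a b h d ≠ 0 → algebraMap (RL l) (KL l) n / algebraMap (RL l) (KL l) d ∈ V := by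
    intro n d hd
    have h1 : d ∉ 𝔭 := by
      rw [hev]
      exact hd
    rw [hmem] at h1
    push Not at h1
    rw [div_eq_mul_inv]
    exact mul_mem (hR n) h1.1
  intro f
  constructor
  · intro hf
    by_cases hf0 : f = 0
    · left
      exact hf0
    · right
      by_contra hlt
      push Not at hlt
      have h1 := E9_inv_ge hf0 hlt
      obtain ⟨n, d, hd, hnd⟩ := E3_frac (h1.mono zero_le_one)
      rw [hnd, E3_mk1 hd] at h1
      have h2 : n ∈ 𝔭 := (hev n).2 h1
      have hn0 : n ≠ 0 := by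
        intro h0
        rw [h0, map_zero, zero_div] at hnd
        exact inv_ne_zero hf0 hnd
      rw [hmem] at h2
      rcases h2 with h2 | h2
      · apply h2
        have h3 : (algebraMap (RL l) (KL l) n)⁻¹ = f * (algebraMap (RL l) (KL l) d)⁻¹ := by
          have hdK := E1_algebraMap_ne (l := l) (r := d) (fun h0 => hd (by rw [h0, map_zero]))
          have hnK := E1_algebraMap_ne hn0
          have h4 : f = algebraMap (RL l) (KL l) d / algebraMap (RL l) (KL l) n := by
            rw [← inv_inv f, hnd, inv_div]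
          rw [h4]
          field_simp
        rw [h3]
        refine mul_mem hf ?_
        have h5 : d ∉ 𝔭 := by
          rw [hev]
          exact hd
        rw [hmem] at h5
        push Not at h5
        exact h5.1
      · exact hn0 h2
  · intro hf
    obtain ⟨n, d, hd, rfl⟩ := E3_frac hf
    exact hto n d hd

theorem E9_place (V : ValuationSubring (KL l)) (hΩ : ∀ a : Ω, algebraMap Ω (KL l) a ∈ V) (hV : V ≠ ⊤) :
    ∃ P : Place l, ∀ f, f ∈ V ↔ OrdGe P 0 f := by
  by_cases hx : xK l ∈ V
  · obtain ⟨a, b, h, h1, -⟩ := E9_fin V hΩ hV hx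
    exact ⟨Place.pt a b h, h1⟩
  · set V' : ValuationSubring (KL l) := V.comap (trK (l := l)).toRingHom with hV'
    have hmem : ∀ f, f ∈ V' ↔ trK f ∈ V := fun f => by
      rw [hV', ValuationSubring.mem_comap]
      rfl
    have hx0 := xK_ne_zero (l := l)
    have hl0 := E1_lK_ne (l := l)
    have hxi : (xK l)⁻¹ ∈ V := (V.mem_or_inv_mem (xK l)).resolve_left hx
    have hx' : xK l ∈ V' := by
      rw [hmem, trK_x, div_eq_mul_inv]
      exact mul_mem (hΩ l) hxi
    have hxi' : (xK l)⁻¹ ∉ V' := by
      rw [hmem, map_inv₀, trK_x, inv_div]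
      intro h1
      apply hx
      have h2 : xK l = algebraMap Ω (KL l) l * (xK l / algebraMap Ω (KL l) l) := by field_simp
      rw [h2]
      exact mul_mem (hΩ l) h1
    have hV'top : V' ≠ ⊤ := by
      intro h1
      apply hxi'
      rw [h1]
      exact ValuationSubring.mem_top _
    obtain ⟨a, b, h, h1, h2⟩ := E9_fin V' (fun a => by rw [hmem, AlgHom.commutes]; exact hΩ a) hV'top hx'
    have ha : a = 0 := by
      have h3 := (h2 (xR l)).1 (Or.inl hxi')
      rwa [evR_x] at h3
    subst ha
    have hb : b = 0 := by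
      have h3 : b ^ 2 = 0 := by rw [h]; ring
      exact pow_eq_zero_iff (two_ne_zero) |>.1 h3
    subst hb
    refine ⟨Place.inf, fun f => ?_⟩
    rw [E7_ordGe_inf, ← h1, hmem, trK_trK]

/-- The valuation ring of a place. -/
def OPl (P : Place l) : ValuationSubring (KL l) where
  carrier := {f | OrdGe P 0 f}
  mul_mem' := fun h1 h2 => E7_hm h1 h2
  one_mem' := Or.inr (ord_one P).ge
  add_mem' := fun h1 h2 => h1.add h2
  zero_mem' := OrdGe.zero P 0
  neg_mem' := fun h1 => h1.neg
  mem_or_inv_mem' := fun f => by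
    by_cases hf : f = 0
    · left
      exact Or.inl hf
    · rcases le_total 0 (ord P f) with h | h
      · left
        exact Or.inr h
      · right
        right
        rw [ord_inv]
        omega

theorem mem_OPl (P : Place l) (f : KL l) : f ∈ OPl P ↔ OrdGe P 0 f := Iff.rfl

theorem E9_integral_iff (ξ f : KL l) :
    IsIntegral (Algebra.adjoin Ω {ξ}) f ↔ ∀ P, OrdGe P 0 ξ → OrdGe P 0 f := by
  constructor
  · intro h P hP
    have hle : ∀ z ∈ Algebra.adjoin Ω {ξ}, z ∈ OPl P := by
      intro z hz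
      induction hz using Algebra.adjoin_induction with
      | mem z hz =>
        rw [Set.mem_singleton_iff] at hz
        rw [hz]
        exact hP
      | algebraMap a => exact OrdGe.const P a
      | add a b _ _ ha hb => exact add_mem ha hb
      | mul a b _ _ ha hb => exact mul_mem ha hb
    let ι : Algebra.adjoin Ω {ξ} →+* OPl P :=
      { toFun := fun z => ⟨z.1, hle z.1 z.2⟩
        map_one' := rfl
        map_mul' := fun _ _ => rfl
        map_zero' := rfl
        map_add' := fun _ _ => rfl }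
    have h2 : IsIntegral (OPl P) f := by
      obtain ⟨p, hp, hp2⟩ := h
      refine ⟨p.map ι, hp.map ι, ?_⟩
      rw [Polynomial.eval₂_map]
      exact hp2
    obtain ⟨g, hg⟩ := IsIntegrallyClosed.isIntegral_iff.1 h2
    rw [← mem_OPl, ← hg]
    exact g.2
  · intro h
    by_contra hf
    have hcl : IsIntegrallyClosedIn (integralClosure (Algebra.adjoin Ω {ξ}) (KL l)).toSubring (KL l) := by
      rw [Subring.isIntegrallyClosedIn_iff]
      intro z hz
      have hz2 : IsIntegral (integralClosure (Algebra.adjoin Ω {ξ}) (KL l)) z := hz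
      exact isIntegral_trans z hz2
    have hf2 : f ∉ (integralClosure (Algebra.adjoin Ω {ξ}) (KL l)).toSubring := hf
    obtain ⟨V, hV1, hV2⟩ := Subring.exists_le_valuationSubring_of_isIntegrallyClosedIn hf2
    have hin : ∀ z ∈ Algebra.adjoin Ω {ξ}, z ∈ V := by
      intro z hz
      apply hV1
      show IsIntegral (Algebra.adjoin Ω {ξ}) z
      exact isIntegral_algebraMap (R := Algebra.adjoin Ω {ξ}) (x := ⟨z, hz⟩)
    have hΩ : ∀ a : Ω, algebraMap Ω (KL l) a ∈ V := fun a => hin _ (Subalgebra.algebraMap_mem _ a)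
    have hξ : ξ ∈ V := hin ξ (Algebra.subset_adjoin rfl)
    have hVtop : V ≠ ⊤ := by
      intro h0
      apply hV2
      rw [h0]
      exact ValuationSubring.mem_top _
    obtain ⟨P, hP⟩ := E9_place V hΩ hVtop
    exact hV2 ((hP f).2 (h P ((hP ξ).1 hξ)))

end

end EllFF
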