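import Pool.Agent.Lib.MP_8ae0c1_agF.EDefs

/-!
# The coordinate ring is a Dedekind domain, and its primes are the points
-/

set_option autoImplicit false
set_option linter.unusedSectionVars false
set_option linter.unusedVariables false

namespace EllFF

open WeierstrassCurve IsDedekindDomain

noncomputable section

variable {Ω : Type*} [Field Ω] {l : Ω}

theorem DC_poly (a : Ω) (p : Polynomial Ω) :
    ∃ c : RL l, Polynomial.aeval (xR l) p - algebraMap Ω (RL l) (p.eval a) = (xR l - algebraMap Ω (RL l) a) * c := by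
  obtain ⟨q, hq⟩ := Polynomial.X_sub_C_dvd_sub_C_eval (a := a) (p := p)
  refine ⟨Polynomial.aeval (xR l) q, ?_⟩
  have h := congrArg (Polynomial.aeval (xR l)) hq
  simpa only [map_sub, map_mul, Polynomial.aeval_X, Polynomial.aeval_C] using h

theorem ker_eq_span (a b : Ω) (h : b ^ 2 = a * (a - 1) * (a - l)) :
    RingHom.ker (evR a b h) = Ideal.span {xR l - algebraMap Ω (RL l) a, yR l - algebraMap Ω (RL l) b} := by
  apply le_antisymm
  · intro f hf
    rw [RingHom.mem_ker] at hf
    obtain ⟨p, q, rfl⟩ := RL_repr f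
    have hev : ∀ p : Polynomial Ω, evR a b h (Polynomial.aeval (xR l) p) = p.eval a := fun p => by
      rw [← Polynomial.aeval_algHom_apply, evR_x, Polynomial.coe_aeval_eq_eval]
    rw [map_add, map_mul, hev, hev, evR_y] at hf
    obtain ⟨c1, h1⟩ := DC_poly (l := l) a p
    obtain ⟨c2, h2⟩ := DC_poly (l := l) a q
    have h3 : Polynomial.aeval (xR l) p + Polynomial.aeval (xR l) q * yR l =
        (c1 + c2 * yR l) * (xR l - algebraMap Ω (RL l) a) +
          algebraMap Ω (RL l) (q.eval a) * (yR l - algebraMap Ω (RL l) b) := by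
      have h4 : algebraMap Ω (RL l) (p.eval a) + algebraMap Ω (RL l) (q.eval a) * algebraMap Ω (RL l) b = 0 := by
        rw [← map_mul, ← map_add, hf, map_zero]
      linear_combination h1 + h2 * yR l + h4
    rw [h3]
    refine Ideal.add_mem _ (Ideal.mul_mem_left _ _ (Ideal.subset_span ?_)) (Ideal.mul_mem_left _ _ (Ideal.subset_span ?_))
    · exact Set.mem_insert _ _
    · exact Set.mem_insert_of_mem _ rfl
  · rw [Ideal.span_le]
    rintro f (rfl | hf)
    · rw [SetLike.mem_coe, RingHom.mem_ker, map_sub, evR_x, AlgHom.commutes]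
      exact sub_self a
    · rw [Set.mem_singleton_iff] at hf
      rw [hf, SetLike.mem_coe, RingHom.mem_ker, map_sub, evR_y, AlgHom.commutes]
      exact sub_self b

/-- `(g(x) - g(a)) / (x - a)` -/
def kR (l a : Ω) : RL l :=
  xR l ^ 2 + algebraMap Ω (RL l) (a - 1 - l) * xR l + algebraMap Ω (RL l) (a ^ 2 - (1 + l) * a + l)

theorem kR_mul (a b : Ω) (h : b ^ 2 = a * (a - 1) * (a - l)) :
    (yR l - algebraMap Ω (RL l) b) * (yR l + algebraMap Ω (RL l) b) = (xR l - algebraMap Ω (RL l) a) * kR l a := by
  have h1 := congrArg (algebraMap Ω (RL l)) h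
  simp only [map_pow, map_mul, map_sub, map_one] at h1
  rw [kR]
  simp only [map_pow, map_mul, map_sub, map_add, map_one]
  linear_combination yR_sq (l := l) - h1

theorem evR_k (a b : Ω) (h : b ^ 2 = a * (a - 1) * (a - l)) :
    evR a b h (kR l a) = 3 * a ^ 2 - 2 * (1 + l) * a + l := by
  rw [kR]
  simp only [map_add, map_mul, map_pow, evR_x, AlgHom.commutes]
  show a ^ 2 + (a - 1 - l) * a + (a ^ 2 - (1 + l) * a + l) = _
  ring

/-- the curve is smooth -/
theorem gder_ne [hl : Leg l] (a : Ω) (h : 0 = a * (a - 1) * (a - l)) : 3 * a ^ 2 - 2 * (1 + l) * a + l ≠ 0 := by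
  have h0 := hl.ne0
  have h1 := hl.ne1
  rcases mul_eq_zero.1 h.symm with h2 | h2
  · rcases mul_eq_zero.1 h2 with h3 | h3
    · rw [h3]
      simpa using h0
    · have h4 : a = 1 := by linear_combination h3
      rw [h4]
      intro h5
      apply h1
      linear_combination -h5
  · have h4 : a = l := by linear_combination h2
    rw [h4]
    intro h5
    have h6 : l * (l - 1) = 0 := by linear_combination h5
    rcases mul_eq_zero.1 h6 with h7 | h7
    · exact h0 h7
    · exact h1 (by linear_combination h7)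

instance : Ring.DimensionLEOne (RL l) := Ring.DimensionLEOne.of_isIntegral (Polynomial Ω) (RL l)

variable [IsAlgClosed Ω]

/-- Each maximal ideal comes from a point. -/
theorem exists_point (P : Ideal (RL l)) [hP : P.IsMaximal] :
    ∃ (a b : Ω) (h : b ^ 2 = a * (a - 1) * (a - l)), P = RingHom.ker (evR a b h) := by
  let _ : Field (RL l ⧸ P) := Ideal.Quotient.field P
  have hfin : Module.Finite Ω (RL l ⧸ P) := finite_of_finite_type_of_isJacobsonRing Ω (RL l ⧸ P)
  have hbij : Function.Bijective (algebraMap Ω (RL l ⧸ P)) := IsAlgClosed.algebraMap_bijective_of_isIntegral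
  obtain ⟨a, ha⟩ := hbij.2 (Ideal.Quotient.mk P (xR l))
  obtain ⟨b, hb⟩ := hbij.2 (Ideal.Quotient.mk P (yR l))
  have hab : b ^ 2 = a * (a - 1) * (a - l) := by
    apply hbij.1
    have h1 := congrArg (Ideal.Quotient.mk P) (yR_sq (l := l))
    simp only [map_pow, map_mul, map_sub, map_one] at h1
    simp only [map_pow, map_mul, map_sub, map_one]
    rw [ha, hb, h1]
    rfl
  refine ⟨a, b, hab, ?_⟩
  symm
  apply Ideal.IsMaximal.eq_of_le (evR_isMaximal a b hab) hP.ne_top
  rw [ker_eq_span, Ideal.span_le]
  rintro f (rfl | hf)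
  · rw [SetLike.mem_coe, ← Ideal.Quotient.eq_zero_iff_mem, map_sub, ← ha, sub_eq_zero]
    rfl
  · rw [Set.mem_singleton_iff] at hf
    rw [hf, SetLike.mem_coe, ← Ideal.Quotient.eq_zero_iff_mem, map_sub, ← hb, sub_eq_zero]
    rfl

variable [CharZero Ω] [Leg l]

theorem isDVR (P : Ideal (RL l)) (hP0 : P ≠ ⊥) (hP : P.IsPrime) : IsDiscreteValuationRing (Localization.AtPrime P) := by
  have hPm : P.IsMaximal := Ring.DimensionLEOne.maximalOfPrime hP0 hP
  obtain ⟨a, b, h, hPe⟩ := exists_point P
  have hnf : ¬ IsField (Localization.AtPrime P) := by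
    intro hf
    apply hP0
    have h1 := IsLocalRing.isField_iff_maximalIdeal_eq.1 hf
    rw [eq_bot_iff]
    intro x hx
    have h2 : algebraMap (RL l) (Localization.AtPrime P) x ∈ IsLocalRing.maximalIdeal (Localization.AtPrime P) := by
      rw [← Localization.AtPrime.map_eq_maximalIdeal]
      exact Ideal.mem_map_of_mem _ hx
    rw [h1, Ideal.mem_bot] at h2
    rw [Ideal.mem_bot]
    exact (IsLocalization.injective (Localization.AtPrime P) P.primeCompl_le_nonZeroDivisors) (by rw [h2, map_zero])
  refine ((IsDiscreteValuationRing.TFAE (Localization.AtPrime P) hnf).out 0 4).2 ?_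
  have hunit : ∀ r : RL l, evR a b h r ≠ 0 → IsUnit (algebraMap (RL l) (Localization.AtPrime P) r) := fun r hr => by
    refine IsLocalization.map_units (Localization.AtPrime P) (⟨r, ?_⟩ : P.primeCompl)
    show ¬ (r ∈ P)
    rw [hPe]
    exact hr
  have hkey := congrArg (algebraMap (RL l) (Localization.AtPrime P)) (kR_mul a b h)
  rw [map_mul, map_mul] at hkey
  have hmax : IsLocalRing.maximalIdeal (Localization.AtPrime P) =
      Ideal.span {algebraMap (RL l) (Localization.AtPrime P) (xR l - algebraMap Ω (RL l) a),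
        algebraMap (RL l) (Localization.AtPrime P) (yR l - algebraMap Ω (RL l) b)} := by
    rw [← Localization.AtPrime.map_eq_maximalIdeal]
    have h3 : P = Ideal.span {xR l - algebraMap Ω (RL l) a, yR l - algebraMap Ω (RL l) b} := by
      rw [hPe, ker_eq_span]
    rw [congrArg (Ideal.map (algebraMap (RL l) (Localization.AtPrime P))) h3, Ideal.map_span, Set.image_pair]
  rw [hmax]
  by_cases hb : b = 0
  · refine ⟨⟨algebraMap (RL l) (Localization.AtPrime P) (yR l - algebraMap Ω (RL l) b), ?_⟩⟩
    have hk := hunit (kR l a) (by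
      rw [evR_k]
      exact gder_ne a (by rw [← h, hb]; ring))
    apply le_antisymm
    · rw [Ideal.span_le]
      rintro f (rfl | hf)
      · rw [SetLike.mem_coe, Ideal.submodule_span_eq, Ideal.mem_span_singleton']
        obtain ⟨u, hu⟩ := hk
        refine ⟨algebraMap (RL l) (Localization.AtPrime P) (yR l + algebraMap Ω (RL l) b) * ↑u⁻¹, ?_⟩
        rw [← hu] at hkey
        calc _ = algebraMap (RL l) (Localization.AtPrime P) (yR l - algebraMap Ω (RL l) b) *
              algebraMap (RL l) (Localization.AtPrime P) (yR l + algebraMap Ω (RL l) b) * ↑u⁻¹ := by ring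
          _ = _ := by rw [hkey, mul_assoc, Units.mul_inv, mul_one]
      · rw [Set.mem_singleton_iff] at hf
        rw [hf, SetLike.mem_coe]
        exact Ideal.subset_span rfl
    · rw [Ideal.submodule_span_eq]
      exact Ideal.span_mono (by intro z hz; rw [Set.mem_singleton_iff] at hz; rw [hz]; exact Set.mem_insert_of_mem _ rfl)
  · refine ⟨⟨algebraMap (RL l) (Localization.AtPrime P) (xR l - algebraMap Ω (RL l) a), ?_⟩⟩
    have hk := hunit (yR l + algebraMap Ω (RL l) b) (by
      rw [map_add, evR_y, AlgHom.commutes]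
      show b + b ≠ 0
      rw [← two_mul]
      exact mul_ne_zero two_ne_zero hb)
    apply le_antisymm
    · rw [Ideal.span_le]
      rintro f (rfl | hf)
      · rw [SetLike.mem_coe]
        exact Ideal.subset_span rfl
      · rw [Set.mem_singleton_iff] at hf
        rw [hf, SetLike.mem_coe, Ideal.submodule_span_eq, Ideal.mem_span_singleton']
        obtain ⟨u, hu⟩ := hk
        refine ⟨algebraMap (RL l) (Localization.AtPrime P) (kR l a) * ↑u⁻¹, ?_⟩
        rw [← hu] at hkey
        calc _ = algebraMap (RL l) (Localization.AtPrime P) (xR l - algebraMap Ω (RL l) a) *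
              algebraMap (RL l) (Localization.AtPrime P) (kR l a) * ↑u⁻¹ := by ring
          _ = _ := by rw [← hkey, mul_assoc, Units.mul_inv, mul_one]
    · rw [Ideal.submodule_span_eq]
      exact Ideal.span_mono (by intro z hz; rw [Set.mem_singleton_iff] at hz; rw [hz]; exact Set.mem_insert _ _)

instance : IsDedekindDomain (RL l) := by
  have : IsDedekindDomainDvr (RL l) := ⟨fun P h0 hP => isDVR P h0 hP⟩
  infer_instance

theorem exists_spec (v : HeightOneSpectrum (RL l)) :
    ∃ (a b : Ω) (h : b ^ 2 = a * (a - 1) * (a - l)), v = spec a b h := by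
  have hm : v.asIdeal.IsMaximal := v.isMaximal
  obtain ⟨a, b, h, hP⟩ := exists_point v.asIdeal
  exact ⟨a, b, h, HeightOneSpectrum.ext hP⟩

end

end EllFF
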