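import Mathlib

/-!
# The function field of the elliptic curve `y² = x (x - 1) (x - l)` over an algebraically closed field `Ω` of characteristic `0`:
# definitions
-/

set_option autoImplicit false
set_option linter.unusedSectionVars false
set_option linter.unusedVariables false

namespace EllFF

open WeierstrassCurve IsDedekindDomain

/-- `l` is different from `0` and `1`. -/
class Leg {Ω : Type*} [Field Ω] (l : Ω) : Prop where
  ne0 : l ≠ 0
  ne1 : l ≠ 1

noncomputable section Defs

variable {Ω : Type*} [Field Ω]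

/-- The curve `y² = x (x - 1) (x - l)`. -/
abbrev WL (l : Ω) : WeierstrassCurve.Affine Ω := ⟨0, -(1 + l), 0, l, 0⟩

/-- The coordinate ring `Ω[x, y]`. -/
abbrev RL (l : Ω) : Type _ := (WL l).CoordinateRing

/-- The function field `Ω(x, y)`. -/
abbrev KL (l : Ω) : Type _ := (WL l).FunctionField

/-- `x` in the coordinate ring -/
def xR (l : Ω) : RL l := Affine.CoordinateRing.mk (WL l) (Polynomial.C Polynomial.X)

/-- `y` in the coordinate ring -/
def yR (l : Ω) : RL l := Affine.CoordinateRing.mk (WL l) Polynomial.X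

/-- `x` in the function field -/
def xK (l : Ω) : KL l := algebraMap (RL l) (KL l) (xR l)

/-- `y` in the function field -/
def yK (l : Ω) : KL l := algebraMap (RL l) (KL l) (yR l)

variable {l : Ω}

theorem WL_poly : (WL l).polynomial =
    Polynomial.X ^ 2 - Polynomial.C (Polynomial.X * (Polynomial.X - 1) * (Polynomial.X - Polynomial.C l)) := by
  rw [Affine.polynomial]
  simp only [map_zero, map_neg, map_add, map_one, map_mul, map_sub, map_pow]
  ring1

theorem yR_sq : yR l ^ 2 = xR l * (xR l - 1) * (xR l - algebraMap Ω (RL l) l) := by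
  have h : Affine.CoordinateRing.mk (WL l) (Polynomial.X ^ 2) =
      Affine.CoordinateRing.mk (WL l) (Polynomial.C (Polynomial.X * (Polynomial.X - 1) * (Polynomial.X - Polynomial.C l))) := by
    refine AdjoinRoot.mk_eq_mk.mpr ⟨1, ?_⟩
    rw [WL_poly, mul_one]
  have hC : algebraMap Ω (RL l) l = Affine.CoordinateRing.mk (WL l) (Polynomial.C (Polynomial.C l)) := rfl
  rw [hC]
  simp only [yR, xR]
  rw [← map_pow, h]
  simp only [map_mul, map_sub, map_one]

theorem yK_sq : yK l ^ 2 = xK l * (xK l - 1) * (xK l - algebraMap Ω (KL l) l) := by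
  have h := congrArg (algebraMap (RL l) (KL l)) (yR_sq (l := l))
  rw [map_pow, map_mul, map_mul, map_sub, map_sub, map_one, ← IsScalarTower.algebraMap_apply Ω (RL l) (KL l)] at h
  exact h

theorem algebraMap_poly (p : Polynomial Ω) : algebraMap (Polynomial Ω) (RL l) p = Polynomial.aeval (xR l) p := by
  induction p using Polynomial.induction_on' with
  | add p q hp hq => rw [map_add, map_add, hp, hq]
  | monomial n a =>
    rw [Polynomial.aeval_monomial, ← Polynomial.C_mul_X_pow_eq_monomial, map_mul, map_pow]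
    rfl

/-- Each element of the coordinate ring is `p(x) + q(x) y`. -/
theorem RL_repr (f : RL l) : ∃ p q : Polynomial Ω, f = Polynomial.aeval (xR l) p + Polynomial.aeval (xR l) q * yR l := by
  obtain ⟨p, q, rfl⟩ := Affine.CoordinateRing.exists_smul_basis_eq f
  refine ⟨p, q, ?_⟩
  rw [Algebra.smul_def, Algebra.smul_def, algebraMap_poly, algebraMap_poly, mul_one]
  rfl

theorem xR_transc : Transcendental Ω (xR l) := by
  rw [transcendental_iff]
  intro p hp
  rw [← algebraMap_poly] at hp
  exact (FaithfulSMul.algebraMap_injective (Polynomial Ω) (RL l)) (by rw [hp, map_zero])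

theorem xK_transc : Transcendental Ω (xK l) :=
  (transcendental_algebraMap_iff (IsFractionRing.injective (RL l) (KL l))).2 xR_transc

/-- The homomorphism of the coordinate ring given by a point. -/
def liftR {F : Type*} [CommRing F] [Algebra Ω F] (a b : F) (h : b ^ 2 = a * (a - 1) * (a - algebraMap Ω F l)) : RL l →ₐ[Ω] F :=
  AdjoinRoot.liftAlgHom _ (Polynomial.aeval a) b (by
    rw [WL_poly, Polynomial.eval₂_sub, Polynomial.eval₂_pow, Polynomial.eval₂_X, Polynomial.eval₂_C]
    simp only [RingHom.coe_coe, map_mul, map_sub, Polynomial.aeval_X, Polynomial.aeval_C, map_one]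
    rw [h, sub_self])

theorem liftR_x {F : Type*} [CommRing F] [Algebra Ω F] (a b : F) (h : b ^ 2 = a * (a - 1) * (a - algebraMap Ω F l)) :
    liftR a b h (xR l) = a := by
  rw [liftR, xR]
  show AdjoinRoot.liftAlgHom _ _ _ _ (AdjoinRoot.of _ Polynomial.X) = a
  rw [AdjoinRoot.liftAlgHom_of]
  simp

theorem liftR_y {F : Type*} [CommRing F] [Algebra Ω F] (a b : F) (h : b ^ 2 = a * (a - 1) * (a - algebraMap Ω F l)) :
    liftR a b h (yR l) = b := by
  rw [liftR, yR]
  show AdjoinRoot.liftAlgHom _ _ _ _ (AdjoinRoot.root _) = b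
  rw [AdjoinRoot.liftAlgHom_root]

/-- The conjugation `y ↦ -y` of the coordinate ring. -/
def conjR : RL l →ₐ[Ω] RL l := liftR (xR l) (-yR l) (by rw [neg_sq, yR_sq])

theorem conjR_x : conjR (xR l) = xR l := liftR_x _ _ _
theorem conjR_y : conjR (yR l) = -yR l := liftR_y _ _ _

theorem norm_repr (p q : Polynomial Ω) :
    Algebra.norm (Polynomial Ω) (Polynomial.aeval (xR l) p + Polynomial.aeval (xR l) q * yR l) =
      p ^ 2 - q ^ 2 * (Polynomial.X * (Polynomial.X - 1) * (Polynomial.X - Polynomial.C l)) := by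
  have h := Affine.CoordinateRing.norm_smul_basis (W' := WL l) p q
  rw [Algebra.smul_def, Algebra.smul_def, algebraMap_poly, algebraMap_poly, mul_one] at h
  have h1 : Affine.CoordinateRing.mk (WL l) Polynomial.X = yR l := rfl
  rw [h1] at h
  rw [h]
  simp only [map_zero, map_neg, map_add, map_one]
  ring

theorem norm_eq (f : RL l) : Polynomial.aeval (xR l) (Algebra.norm (Polynomial Ω) f) = f * conjR f := by
  obtain ⟨p, q, rfl⟩ := RL_repr f
  rw [norm_repr]
  have h2 : ∀ p : Polynomial Ω, conjR (Polynomial.aeval (xR l) p) = Polynomial.aeval (xR l) p := fun p => by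
    rw [← Polynomial.aeval_algHom_apply, conjR_x]
  simp only [map_add, map_mul, map_sub, map_pow, h2, conjR_y, Polynomial.aeval_X, Polynomial.aeval_C, map_one]
  linear_combination (Polynomial.aeval (xR l) q) ^ 2 * yR_sq (l := l)

instance : Module.Finite (Polynomial Ω) (RL l) := Module.Finite.of_basis (Affine.CoordinateRing.basis (WL l))

theorem norm_ne_zero {f : RL l} (hf : f ≠ 0) : Algebra.norm (Polynomial Ω) f ≠ 0 :=
  fun h => hf (Algebra.norm_eq_zero_iff.1 h)

theorem liftR_injective {F : Type*} [Field F] [Algebra Ω F] (a b : F) (h : b ^ 2 = a * (a - 1) * (a - algebraMap Ω F l))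
    (ha : Transcendental Ω a) : Function.Injective (liftR a b h) := by
  rw [injective_iff_map_eq_zero]
  intro f hf
  by_contra h0
  have h1 : liftR a b h (Polynomial.aeval (xR l) (Algebra.norm (Polynomial Ω) f)) = 0 := by
    rw [norm_eq, map_mul, hf, zero_mul]
  rw [← Polynomial.aeval_algHom_apply, liftR_x] at h1
  have h2 := (transcendental_iff.1 ha) _ h1
  exact norm_ne_zero h0 h2

/-- The homomorphism of the function field given by a point with transcendental `x`. -/
def liftK {F : Type*} [Field F] [Algebra Ω F] (a b : F) (h : b ^ 2 = a * (a - 1) * (a - algebraMap Ω F l))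
    (ha : Transcendental Ω a) : KL l →ₐ[Ω] F :=
  IsFractionRing.liftAlgHom (liftR_injective a b h ha)

theorem liftK_algebraMap {F : Type*} [Field F] [Algebra Ω F] (a b : F) (h : b ^ 2 = a * (a - 1) * (a - algebraMap Ω F l))
    (ha : Transcendental Ω a) (f : RL l) : liftK a b h ha (algebraMap (RL l) (KL l) f) = liftR a b h f := by
  exact IsFractionRing.lift_algebraMap (liftR_injective a b h ha) f

theorem liftK_x {F : Type*} [Field F] [Algebra Ω F] (a b : F) (h : b ^ 2 = a * (a - 1) * (a - algebraMap Ω F l))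
    (ha : Transcendental Ω a) : liftK a b h ha (xK l) = a := by
  rw [xK, liftK_algebraMap, liftR_x]

theorem liftK_y {F : Type*} [Field F] [Algebra Ω F] (a b : F) (h : b ^ 2 = a * (a - 1) * (a - algebraMap Ω F l))
    (ha : Transcendental Ω a) : liftK a b h ha (yK l) = b := by
  rw [yK, liftK_algebraMap, liftR_y]

/-- Two homomorphisms of the function field which agree on `x` and `y` are equal. -/
theorem KL_hom_ext {F : Type*} [Field F] [Algebra Ω F] (f g : KL l →ₐ[Ω] F) (hx : f (xK l) = g (xK l))
    (hy : f (yK l) = g (yK l)) : f = g := by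
  have h1 : ∀ r : RL l, f (algebraMap (RL l) (KL l) r) = g (algebraMap (RL l) (KL l) r) := by
    intro r
    obtain ⟨p, q, rfl⟩ := RL_repr r
    have h2 : ∀ p : Polynomial Ω, algebraMap (RL l) (KL l) (Polynomial.aeval (xR l) p) = Polynomial.aeval (xK l) p := fun p =>
      (Polynomial.aeval_algebraMap_apply (KL l) (xR l) p).symm
    simp only [map_add, map_mul, h2, ← Polynomial.aeval_algHom_apply, hx]
    have h3 : f (algebraMap (RL l) (KL l) (yR l)) = g (algebraMap (RL l) (KL l) (yR l)) := hy
    rw [h3]
  refine AlgHom.ext fun z => ?_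
  obtain ⟨a, b, hb, rfl⟩ := IsFractionRing.div_surjective (A := RL l) z
  rw [map_div₀, map_div₀, h1, h1]

end Defs

noncomputable section Places

variable {Ω : Type*} [Field Ω] {l : Ω}

/-- The places of the function field: the points of the curve. -/
inductive Place (l : Ω) : Type _
  | inf : Place l
  | pt (a b : Ω) (h : b ^ 2 = a * (a - 1) * (a - l)) : Place l

/-- The evaluation of the coordinate ring at a point. -/
def evR (a b : Ω) (h : b ^ 2 = a * (a - 1) * (a - l)) : RL l →ₐ[Ω] Ω := liftR a b h

theorem evR_x (a b : Ω) (h : b ^ 2 = a * (a - 1) * (a - l)) : evR a b h (xR l) = a := liftR_x _ _ _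

theorem evR_y (a b : Ω) (h : b ^ 2 = a * (a - 1) * (a - l)) : evR a b h (yR l) = b := liftR_y _ _ _

theorem evR_surj (a b : Ω) (h : b ^ 2 = a * (a - 1) * (a - l)) : Function.Surjective (evR a b h) := fun c =>
  ⟨algebraMap Ω (RL l) c, by rw [AlgHom.commutes]; rfl⟩

instance evR_isMaximal (a b : Ω) (h : b ^ 2 = a * (a - 1) * (a - l)) : (RingHom.ker (evR a b h)).IsMaximal :=
  RingHom.ker_isMaximal_of_surjective _ (evR_surj a b h)

theorem evR_ker_ne_bot (a b : Ω) (h : b ^ 2 = a * (a - 1) * (a - l)) : RingHom.ker (evR a b h) ≠ ⊥ := by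
  intro h0
  have h1 : xR l - algebraMap Ω (RL l) a ∈ RingHom.ker (evR a b h) := by
    rw [RingHom.mem_ker, map_sub, evR_x, AlgHom.commutes]
    exact sub_self a
  rw [h0, Ideal.mem_bot, sub_eq_zero] at h1
  exact xR_transc (l := l) (by rw [h1]; exact isAlgebraic_algebraMap a)

/-- The prime ideal of a point. -/
def spec (a b : Ω) (h : b ^ 2 = a * (a - 1) * (a - l)) : HeightOneSpectrum (RL l) where
  asIdeal := RingHom.ker (evR a b h)
  isPrime := (evR_isMaximal a b h).isPrime
  ne_bot := evR_ker_ne_bot a b h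

theorem x_inv_transc [hl : Leg l] : Transcendental Ω (algebraMap Ω (KL l) l / xK l) := by
  intro h
  have h1 : IsAlgebraic Ω (algebraMap Ω (KL l) l / (algebraMap Ω (KL l) l / xK l)) := by
    rw [div_eq_mul_inv]
    exact IsAlgebraic.mul (isAlgebraic_algebraMap l) h.inv
  have h2 : algebraMap Ω (KL l) l ≠ 0 := by
    rw [Ne, FaithfulSMul.algebraMap_eq_zero_iff]
    exact hl.ne0
  have h3 : xK l ≠ 0 := by
    intro h0
    exact xK_transc (l := l) (by rw [h0]; exact isAlgebraic_zero)
  have h4 : algebraMap Ω (KL l) l / (algebraMap Ω (KL l) l / xK l) = xK l := by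
    field_simp
  rw [h4] at h1
  exact xK_transc h1

theorem xK_ne_zero : xK l ≠ 0 := fun h0 => xK_transc (l := l) (by rw [h0]; exact isAlgebraic_zero)

/-- The translation by the point `(0, 0)`: `x ↦ l / x`, `y ↦ - l y / x²`. It interchanges `(0, 0)` and the point at infinity. -/
def trK [hl : Leg l] : KL l →ₐ[Ω] KL l :=
  liftK (algebraMap Ω (KL l) l / xK l) (-(algebraMap Ω (KL l) l * yK l / xK l ^ 2)) (by
    have h3 := xK_ne_zero (l := l)
    rw [neg_sq, div_pow, mul_pow, yK_sq]
    field_simp
    ring) x_inv_transc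

end Places

end EllFF
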