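import Pool.Agent.Lib.MP_8ae0c1_agF.EDed

/-!
# The orders at the places
-/

set_option autoImplicit false
set_option linter.unusedSectionVars false
set_option linter.unusedVariables false

namespace EllFF

open WeierstrassCurve IsDedekindDomain

noncomputable section

variable {Ω : Type*} [Field Ω] [IsAlgClosed Ω] [CharZero Ω] {l : Ω} [Leg l]

/-- The order at a prime of the coordinate ring. -/
def ordF (v : HeightOneSpectrum (RL l)) (f : KL l) : ℤ := -WithZero.log (v.valuation (KL l) f)

/-- The order of a function at a place (`0` for the function `0`). -/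
def ord : Place l → KL l → ℤ
  | .inf, f => ordF (spec 0 0 (by ring)) (trK f)
  | .pt a b h, f => ordF (spec a b h) f

/-- `ord P f ≥ n`, with `ord P 0 = ∞`. -/
def OrdGe (P : Place l) (n : ℤ) (f : KL l) : Prop := f = 0 ∨ n ≤ ord P f

section F

variable (v : HeightOneSpectrum (RL l))

theorem ordF_zero : ordF v 0 = 0 := by
  rw [ordF, map_zero, WithZero.log_zero, neg_zero]

theorem ordF_one : ordF v 1 = 0 := by
  rw [ordF, map_one, WithZero.log_one, neg_zero]

theorem ordF_mul {f g : KL l} (hf : f ≠ 0) (hg : g ≠ 0) : ordF v (f * g) = ordF v f + ordF v g := by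
  rw [ordF, map_mul, WithZero.log_mul ((Valuation.ne_zero_iff _).2 hf) ((Valuation.ne_zero_iff _).2 hg), ordF, ordF]
  ring

theorem ordF_inv (f : KL l) : ordF v f⁻¹ = -ordF v f := by
  rw [ordF, map_inv₀, WithZero.log_inv, ordF]

theorem ordF_neg (f : KL l) : ordF v (-f) = ordF v f := by
  rw [ordF, Valuation.map_neg, ordF]

theorem ordF_ge_iff {f : KL l} (hf : f ≠ 0) (n : ℤ) : n ≤ ordF v f ↔ v.valuation (KL l) f ≤ WithZero.exp (-n) := by
  rw [ordF, ← WithZero.log_le_iff_le_exp ((Valuation.ne_zero_iff _).2 hf)]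
  constructor <;> intro h <;> linarith

theorem ordF_add {f g : KL l} (hf : f ≠ 0) (hg : g ≠ 0) (hfg : f + g ≠ 0) (n : ℤ) (h1 : n ≤ ordF v f) (h2 : n ≤ ordF v g) :
    n ≤ ordF v (f + g) := by
  rw [ordF_ge_iff v hf] at h1
  rw [ordF_ge_iff v hg] at h2
  rw [ordF_ge_iff v hfg]
  exact (Valuation.map_add _ _ _).trans (max_le h1 h2)

theorem ordF_const {a : Ω} (ha : a ≠ 0) : ordF v (algebraMap Ω (KL l) a) = 0 := by
  have h1 : v.valuation (KL l) (algebraMap (RL l) (KL l) (algebraMap Ω (RL l) a)) = 1 := by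
    rw [HeightOneSpectrum.valuation_eq_one_iff_notMem]
    intro h
    apply v.isPrime.ne_top
    rw [Ideal.eq_top_iff_one]
    have h2 := v.asIdeal.mul_mem_left (algebraMap Ω (RL l) a⁻¹) h
    rwa [← map_mul, inv_mul_cancel₀ ha, map_one] at h2
  rw [IsScalarTower.algebraMap_apply Ω (RL l) (KL l), ordF, h1, WithZero.log_one, neg_zero]

theorem ordF_surj : ∃ t : KL l, t ≠ 0 ∧ ordF v t = 1 := by
  obtain ⟨t, ht⟩ := v.valuation_exists_uniformizer (KL l)
  refine ⟨t, ?_, ?_⟩
  · intro h0
    rw [h0, map_zero] at ht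
    exact WithZero.exp_ne_zero ht.symm
  · rw [ordF, ht, WithZero.log_exp, neg_neg]

end F

theorem trK_x : trK (xK l) = algebraMap Ω (KL l) l / xK l := liftK_x _ _ _ _

theorem trK_y : trK (yK l) = -(algebraMap Ω (KL l) l * yK l / xK l ^ 2) := liftK_y _ _ _ _

theorem trK_trK (f : KL l) : trK (trK f) = f := by
  have h3 := xK_ne_zero (l := l)
  have h4 : algebraMap Ω (KL l) l ≠ 0 := by
    rw [Ne, FaithfulSMul.algebraMap_eq_zero_iff]
    exact Leg.ne0
  have h : (trK (l := l)).comp trK = AlgHom.id Ω (KL l) := by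
    apply KL_hom_ext
    · rw [AlgHom.comp_apply, trK_x, map_div₀, trK_x, AlgHom.commutes, AlgHom.id_apply]
      field_simp
    · rw [AlgHom.comp_apply, trK_y, map_neg, map_div₀, map_mul, map_pow, trK_x, trK_y, AlgHom.commutes, AlgHom.id_apply]
      field_simp
  exact congrArg (fun e : KL l →ₐ[Ω] KL l => e f) h

theorem trK_ne {f : KL l} (hf : f ≠ 0) : trK f ≠ 0 := fun h => hf (by rw [← trK_trK f, h, map_zero])

theorem ord_zero (P : Place l) : ord P 0 = 0 := by
  cases P with
  | inf => rw [ord, map_zero, ordF_zero]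
  | pt a b h => exact ordF_zero _

theorem ord_one (P : Place l) : ord P 1 = 0 := by
  cases P with
  | inf => rw [ord, map_one, ordF_one]
  | pt a b h => exact ordF_one _

theorem ord_mul (P : Place l) {f g : KL l} (hf : f ≠ 0) (hg : g ≠ 0) : ord P (f * g) = ord P f + ord P g := by
  cases P with
  | inf => rw [ord, map_mul, ordF_mul _ (trK_ne hf) (trK_ne hg), ord, ord]
  | pt a b h => exact ordF_mul _ hf hg

theorem ord_inv (P : Place l) (f : KL l) : ord P f⁻¹ = -ord P f := by
  cases P with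
  | inf => rw [ord, map_inv₀, ordF_inv, ord]
  | pt a b h => exact ordF_inv _ _

theorem ord_div (P : Place l) {f g : KL l} (hf : f ≠ 0) (hg : g ≠ 0) : ord P (f / g) = ord P f - ord P g := by
  rw [div_eq_mul_inv, ord_mul P hf (inv_ne_zero hg), ord_inv]
  ring

theorem ord_neg (P : Place l) (f : KL l) : ord P (-f) = ord P f := by
  cases P with
  | inf => rw [ord, map_neg, ordF_neg, ord]
  | pt a b h => exact ordF_neg _ _

theorem ord_pow (P : Place l) (f : KL l) (n : ℕ) : ord P (f ^ n) = n * ord P f := by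
  by_cases hf : f = 0
  · subst hf
    rcases Nat.eq_zero_or_pos n with h | h
    · subst h
      rw [pow_zero, ord_one]
      simp
    · rw [zero_pow h.ne', ord_zero, mul_zero]
  · induction n with
    | zero => rw [pow_zero, ord_one]; simp
    | succ n ih =>
      rw [pow_succ, ord_mul P (pow_ne_zero n hf) hf, ih]
      push_cast
      ring

theorem ord_const (P : Place l) (a : Ω) : ord P (algebraMap Ω (KL l) a) = 0 := by
  by_cases ha : a = 0
  · rw [ha, map_zero, ord_zero]
  · cases P with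
    | inf => rw [ord, AlgHom.commutes, ordF_const _ ha]
    | pt a' b h => exact ordF_const _ ha

theorem ord_add (P : Place l) {f g : KL l} (hf : f ≠ 0) (hg : g ≠ 0) (hfg : f + g ≠ 0) (n : ℤ) (h1 : n ≤ ord P f)
    (h2 : n ≤ ord P g) : n ≤ ord P (f + g) := by
  cases P with
  | inf =>
    rw [ord] at h1 h2 ⊢
    rw [map_add]
    exact ordF_add _ (trK_ne hf) (trK_ne hg) (by rw [← map_add]; exact trK_ne hfg) n h1 h2
  | pt a b h => exact ordF_add _ hf hg hfg n h1 h2

theorem exists_unif (P : Place l) : ∃ t : KL l, t ≠ 0 ∧ ord P t = 1 := by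
  cases P with
  | inf =>
    obtain ⟨t, ht, h1⟩ := ordF_surj (spec 0 0 (by ring : (0 : Ω) ^ 2 = 0 * (0 - 1) * (0 - l)))
    refine ⟨trK t, trK_ne ht, ?_⟩
    rw [ord, trK_trK]
    exact h1
  | pt a b h => exact ordF_surj _

theorem OrdGe.add {P : Place l} {n : ℤ} {f g : KL l} (h1 : OrdGe P n f) (h2 : OrdGe P n g) : OrdGe P n (f + g) := by
  by_cases hf : f = 0
  · rw [hf, zero_add]
    exact h2
  by_cases hg : g = 0
  · rw [hg, add_zero]
    exact h1
  by_cases hfg : f + g = 0
  · exact Or.inl hfg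
  exact Or.inr (ord_add P hf hg hfg n (h1.resolve_left hf) (h2.resolve_left hg))

theorem OrdGe.zero (P : Place l) (n : ℤ) : OrdGe P n 0 := Or.inl rfl

theorem OrdGe.mono {P : Place l} {n m : ℤ} {f : KL l} (h1 : OrdGe P n f) (h : m ≤ n) : OrdGe P m f :=
  h1.imp id fun h2 => h.trans h2

theorem OrdGe.mul {P : Place l} {n m : ℤ} {f g : KL l} (h1 : OrdGe P n f) (h2 : OrdGe P m g) : OrdGe P (n + m) (f * g) := by
  rcases h1 with h1 | h1
  · left
    rw [h1, zero_mul]
  rcases h2 with h2 | h2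
  · left
    rw [h2, mul_zero]
  by_cases hf : f = 0
  · left
    rw [hf, zero_mul]
  by_cases hg : g = 0
  · left
    rw [hg, mul_zero]
  right
  rw [ord_mul P hf hg]
  exact add_le_add h1 h2

theorem OrdGe.neg {P : Place l} {n : ℤ} {f : KL l} (h1 : OrdGe P n f) : OrdGe P n (-f) := by
  rcases h1 with h1 | h1
  · left
    rw [h1, neg_zero]
  · right
    rwa [ord_neg]

theorem OrdGe.sub {P : Place l} {n : ℤ} {f g : KL l} (h1 : OrdGe P n f) (h2 : OrdGe P n g) : OrdGe P n (f - g) := by
  rw [sub_eq_add_neg]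
  exact h1.add h2.neg

theorem OrdGe.const (P : Place l) (a : Ω) : OrdGe P 0 (algebraMap Ω (KL l) a) := Or.inr (ord_const P a).ge

theorem OrdGe.smul {P : Place l} {n : ℤ} {f : KL l} (a : Ω) (h1 : OrdGe P n f) : OrdGe P n (a • f) := by
  rw [Algebra.smul_def]
  have h2 := (OrdGe.const P a).mul h1
  rwa [zero_add] at h2

theorem OrdGe.sum {P : Place l} {n : ℤ} {ι : Type*} (s : Finset ι) (f : ι → KL l) (h : ∀ i ∈ s, OrdGe P n (f i)) :
    OrdGe P n (∑ i ∈ s, f i) := by
  classical
  induction s using Finset.induction_on with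
  | empty => exact OrdGe.zero P n
  | insert a s ha ih =>
    rw [Finset.sum_insert ha]
    exact (h a (Finset.mem_insert_self _ _)).add (ih fun i hi => h i (Finset.mem_insert_of_mem hi))

theorem OrdGe.le {P : Place l} {n : ℤ} {f : KL l} (h : OrdGe P n f) (hf : f ≠ 0) : n ≤ ord P f := h.resolve_left hf

/-- The Riemann-Roch space of a divisor. -/
def LSp (δ : Place l → ℤ) : Submodule Ω (KL l) where
  carrier := {f | ∀ P, OrdGe P (-δ P) f}
  zero_mem' := fun P => OrdGe.zero P _
  add_mem' := fun h1 h2 P => (h1 P).add (h2 P)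
  smul_mem' := fun a _ h P => (h P).smul a

theorem mem_LSp {δ : Place l → ℤ} {f : KL l} : f ∈ LSp δ ↔ ∀ P, OrdGe P (-δ P) f := Iff.rfl

/-- The strict triangle equality. -/
theorem ord_add_eq (P : Place l) {f g : KL l} (hf : f ≠ 0) (hg : OrdGe P (ord P f + 1) g) :
    f + g ≠ 0 ∧ ord P (f + g) = ord P f := by
  rcases hg with hg | hg
  · rw [hg, add_zero]
    exact ⟨hf, rfl⟩
  by_cases hg0 : g = 0
  · rw [hg0, add_zero]
    exact ⟨hf, rfl⟩
  have hne : f + g ≠ 0 := by
    intro h0
    have h1 : g = -f := by linear_combination h0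
    rw [h1, ord_neg] at hg
    omega
  refine ⟨hne, le_antisymm ?_ (ord_add P hf hg0 hne _ le_rfl (by omega))⟩
  by_contra hlt
  push Not at hlt
  have h2 := ord_add P hne (neg_ne_zero.2 hg0) (by rw [add_neg_cancel_right]; exact hf) (ord P f + 1) (by omega)
    (by rw [ord_neg]; exact hg)
  rw [add_neg_cancel_right] at h2
  omega

end

end EllFF
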